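import Pool.Agent.LgP.Gr

/-!
# The associated graded algebra of a filtration

Generalisation of `Pool.Agent.LgP.gr_exists` (file `LgP/Gr.lean`, adapt its proof; there `F j = I^j`):
`F : ℕ → Submodule O E` with `1 ∈ F 0`, `F i * F j ≤ F (i + j)`, `F (i + 1) ≤ F i`, containing `Φ`, `Ψ`
(inverse to each other, `Φ^n = 1`) and all `ρ x` in `F 0`; `Φ ρ(x) Ψ = ρ (φ x)`, `Split n φ`.
`A = R / C`, `R = {f ∈ E[T] : f.coeff j ∈ F j}`, `f ~ g` iff `(f - g).coeff j ∈ F (j + 1)`.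
`cl k u =` class of `u T^k`. `S =` span of the classes `cl k (ρ x - 1)` with `1 ≤ k`, `ρ x - 1 ∈ F k`. It is
Lie closed: for `ρ g - 1 ∈ F k`, `ρ h - 1 ∈ F l`, `c = g⁻¹ h⁻¹ g h`:
`(ρ g - 1)(ρ h - 1) - (ρ h - 1)(ρ g - 1) = ρ (h g) (ρ c - 1)`, so `ρ c - 1 ∈ F 0 * F (k + l) ≤ F (k + l)` and the
difference of both sides is `(ρ (h g) - 1)(ρ c - 1)`. NOTE: here `ρ (h g) - 1` must lie in `F 1` to
conclude; this is the hypothesis `hρ1 : ∀ x, ρ x - 1 ∈ F 1`.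
Trace: `∑_j (ρ (φ^j g) - 1) ≡ ρ (∏_j φ^j g) - 1 = 0` modulo `F (2k) ≤ F (k+1)`, and
`Φ^j (ρ g - 1) Ψ^j = ρ (φ^j g) - 1`.
-/

set_option autoImplicit false

namespace Pool.Agent.OrdS

open Pool.Agent.LgP

/-- filtrations -/
private structure GrF_Fil {O E : Type} [CommRing O] [Ring E] [Algebra O E]
    (F : ℕ → Submodule O E) : Prop where
  one : (1 : E) ∈ F 0
  mul : ∀ i j, ∀ a ∈ F i, ∀ b ∈ F j, a * b ∈ F (i + j)
  anti : ∀ i, F (i + 1) ≤ F i

section gr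

variable {O E : Type} [CommRing O] [Ring E] [Algebra O E] {F : ℕ → Submodule O E}

private theorem GrF_le (hF : GrF_Fil F) {a b : ℕ} (h : a ≤ b) : F b ≤ F a := by
  induction b, h using Nat.le_induction with
  | base => exact le_rfl
  | succ b _ ih => exact (hF.anti b).trans ih

/-- the Rees algebra of a filtration -/
private def GrF_R (hF : GrF_Fil F) : Subalgebra O (Polynomial E) where
  carrier := {f | ∀ j, f.coeff j ∈ F j}
  mul_mem' := by
    intro f g hf hg j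
    rw [Polynomial.coeff_mul]
    refine Submodule.sum_mem _ fun x hx => ?_
    rw [← Finset.HasAntidiagonal.mem_antidiagonal.mp hx]
    exact hF.mul _ _ _ (hf _) _ (hg _)
  add_mem' := by
    intro f g hf hg j
    rw [Polynomial.coeff_add]
    exact Submodule.add_mem _ (hf j) (hg j)
  algebraMap_mem' := by
    intro r j
    rw [Polynomial.algebraMap_apply, Polynomial.coeff_C]
    split_ifs with h
    · subst h
      rw [Algebra.algebraMap_eq_smul_one]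
      exact Submodule.smul_mem _ r hF.one
    · exact Submodule.zero_mem _

private theorem GrF_coeff_mul (hF : GrF_Fil F) (f g : Polynomial E) (a b : ℕ)
    (hf : ∀ j, f.coeff j ∈ F (j + a)) (hg : ∀ j, g.coeff j ∈ F (j + b)) (j : ℕ) :
    (f * g).coeff j ∈ F (j + (a + b)) := by
  rw [Polynomial.coeff_mul]
  refine Submodule.sum_mem _ fun x hx => ?_
  have h1 : j + (a + b) = (x.1 + a) + (x.2 + b) := by
    rw [← Finset.HasAntidiagonal.mem_antidiagonal.mp hx]; ring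
  rw [h1]
  exact hF.mul _ _ _ (hf _) _ (hg _)

/-- the congruence modulo the next step of the filtration -/
private def GrF_C (hF : GrF_Fil F) : RingCon (GrF_R hF) where
  r f g := ∀ j, ((f : Polynomial E) - g).coeff j ∈ F (j + 1)
  iseqv :=
    { refl := fun f j => by rw [sub_self, Polynomial.coeff_zero]; exact Submodule.zero_mem _
      symm := fun {f g} h j => by
        have := Submodule.neg_mem _ (h j)
        rwa [← Polynomial.coeff_neg, neg_sub] at this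
      trans := fun {f g k} h1 h2 j => by
        have := Submodule.add_mem _ (h1 j) (h2 j)
        rwa [← Polynomial.coeff_add, sub_add_sub_cancel] at this }
  mul' := by
    intro w x y z h1 h2 j
    have e : ((w * y : GrF_R hF) : Polynomial E) - ((x * z : GrF_R hF) : Polynomial E) =
        (w : Polynomial E) * ((y : Polynomial E) - z) + ((w : Polynomial E) - x) * z := by
      push_cast
      noncomm_ring
    rw [e, Polynomial.coeff_add]
    refine Submodule.add_mem _ ?_ ?_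
    · exact GrF_coeff_mul hF _ _ 0 1 w.2 h2 j
    · exact GrF_coeff_mul hF _ _ 1 0 h1 z.2 j
  add' := by
    intro w x y z h1 h2 j
    have e : ((w + y : GrF_R hF) : Polynomial E) - ((x + z : GrF_R hF) : Polynomial E) =
        ((w : Polynomial E) - x) + ((y : Polynomial E) - z) := by
      push_cast
      abel
    rw [e, Polynomial.coeff_add]
    exact Submodule.add_mem _ (h1 j) (h2 j)

/-- the monomial `u T^k` -/
private noncomputable def GrF_mono (hF : GrF_Fil F) (k : ℕ) : ↥(F k) →ₗ[O] GrF_R hF where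
  toFun u := ⟨Polynomial.monomial k (u : E), fun j => by
    rw [Polynomial.coeff_monomial]
    split_ifs with h
    · subst h; exact u.2
    · exact Submodule.zero_mem _⟩
  map_add' u v := by
    ext1
    simp
  map_smul' r u := by
    apply Subtype.ext
    show Polynomial.monomial k (r • (u : E)) = r • Polynomial.monomial k (u : E)
    rw [Polynomial.smul_monomial]

/-- the class of the monomial `u T^k` -/
private noncomputable def GrF_M (hF : GrF_Fil F) (k : ℕ) : ↥(F k) →ₗ[O] (GrF_C hF).Quotient :=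
  ((GrF_C hF).mkₐ O).toLinearMap ∘ₗ GrF_mono hF k

private theorem GrF_M_eq_zero (hF : GrF_Fil F) {k : ℕ} (u : ↥(F k)) :
    GrF_M hF k u = 0 ↔ (u : E) ∈ F (k + 1) := by
  have h0 : GrF_M hF k u = 0 ↔ (GrF_C hF) (GrF_mono hF k u) 0 := by
    rw [← RingCon.eq]
    rfl
  rw [h0]
  constructor
  · intro h
    have := h k
    simpa [GrF_mono] using this
  · intro h j
    show (((GrF_mono hF k u : GrF_R hF) : Polynomial E) - ((0 : GrF_R hF) : Polynomial E)).coeff j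
      ∈ _
    have e : ((GrF_mono hF k u : GrF_R hF) : Polynomial E) = Polynomial.monomial k (u : E) := rfl
    rw [e, ZeroMemClass.coe_zero, sub_zero, Polynomial.coeff_monomial]
    split_ifs with h1
    · subst h1; exact h
    · exact Submodule.zero_mem _

private theorem GrF_M_mul (hF : GrF_Fil F) {k l : ℕ} (u : ↥(F k)) (v : ↥(F l)) (w : ↥(F (k + l)))
    (hw : (w : E) = (u : E) * v) : GrF_M hF k u * GrF_M hF l v = GrF_M hF (k + l) w := by
  unfold GrF_M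
  simp only [LinearMap.comp_apply, AlgHom.toLinearMap_apply]
  rw [← map_mul]
  congr 1
  ext1
  show Polynomial.monomial k (u : E) * Polynomial.monomial l (v : E) =
    Polynomial.monomial (k + l) (w : E)
  rw [Polynomial.monomial_mul_monomial, hw]

private theorem GrF_M_congr (hF : GrF_Fil F) {k l : ℕ} (h : k = l) (u : ↥(F k)) (v : ↥(F l))
    (huv : (u : E) = v) : GrF_M hF k u = GrF_M hF l v := by
  subst h
  congr 1
  exact Subtype.ext huv

private theorem GrF_M_one (hF : GrF_Fil F) : GrF_M hF 0 ⟨1, hF.one⟩ = 1 := by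
  unfold GrF_M
  simp only [LinearMap.comp_apply, AlgHom.toLinearMap_apply]
  rw [← map_one ((GrF_C hF).mkₐ O)]
  congr 1

end gr

section aug

variable {O E X : Type} [CommRing O] [Ring E] [Algebra O E] [Group X] {F : ℕ → Submodule O E}
  (ρ : X →* E)

private theorem GrF_rho_mem (hF : GrF_Fil F) (hρ1 : ∀ x, ρ x - 1 ∈ F 1) (x : X) : ρ x ∈ F 0 := by
  have e : ρ x = (ρ x - 1) + 1 := by rw [sub_add_cancel]
  rw [e]
  exact Submodule.add_mem _ (hF.anti 0 (hρ1 x)) hF.one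

private theorem GrF_comm (hF : GrF_Fil F) (hρ1 : ∀ x, ρ x - 1 ∈ F 1) {k l : ℕ} (g h : X)
    (hg : ρ g - 1 ∈ F k) (hh : ρ h - 1 ∈ F l) :
    ρ (g⁻¹ * h⁻¹ * g * h) - 1 ∈ F (k + l) ∧
    ((ρ g - 1) * (ρ h - 1) - (ρ h - 1) * (ρ g - 1)) - (ρ (g⁻¹ * h⁻¹ * g * h) - 1) ∈
      F (k + l + 1) := by
  obtain ⟨D, hD⟩ : ∃ D, D = (ρ g - 1) * (ρ h - 1) - (ρ h - 1) * (ρ g - 1) := ⟨_, rfl⟩
  rw [← hD]
  have hDm : D ∈ F (k + l) := by
    rw [hD]
    refine Submodule.sub_mem _ ?_ ?_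
    · exact hF.mul _ _ _ hg _ hh
    · rw [add_comm]; exact hF.mul _ _ _ hh _ hg
  have e1 : D = ρ (h * g) * (ρ (g⁻¹ * h⁻¹ * g * h) - 1) := by
    rw [mul_sub, ← map_mul, mul_one]
    have : h * g * (g⁻¹ * h⁻¹ * g * h) = g * h := by group
    rw [this, hD, map_mul, map_mul]
    noncomm_ring
  have e2 : ρ (g⁻¹ * h⁻¹ * g * h) - 1 = ρ ((h * g)⁻¹) * D := by
    rw [e1, ← mul_assoc, ← map_mul, inv_mul_cancel, map_one, one_mul]
  have h1 : ρ (g⁻¹ * h⁻¹ * g * h) - 1 ∈ F (k + l) := by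
    rw [e2]
    have := hF.mul _ _ _ (GrF_rho_mem ρ hF hρ1 ((h * g)⁻¹)) _ hDm
    rwa [zero_add] at this
  refine ⟨h1, ?_⟩
  have e3 : D - (ρ (g⁻¹ * h⁻¹ * g * h) - 1) =
      (ρ (h * g) - 1) * (ρ (g⁻¹ * h⁻¹ * g * h) - 1) := by
    rw [sub_mul, one_mul, ← e1]
  rw [e3, add_comm]
  exact hF.mul _ _ _ (hρ1 _) _ h1

private theorem GrF_list (hF : GrF_Fil F) {k : ℕ} (hk : 1 ≤ k) (L : List X)
    (hL : ∀ x ∈ L, ρ x - 1 ∈ F k) :
    ρ L.prod - 1 ∈ F k ∧
    (L.map fun x => ρ x - 1).sum - (ρ L.prod - 1) ∈ F (k + 1) := by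
  induction L with
  | nil => simp
  | cons x L ih =>
    obtain ⟨h1, h2⟩ := ih fun y hy => hL y (List.mem_cons_of_mem _ hy)
    have hx := hL x List.mem_cons_self
    have e : ρ (x :: L).prod - 1 = (ρ x - 1) + (ρ L.prod - 1) + (ρ x - 1) * (ρ L.prod - 1) := by
      rw [List.prod_cons, map_mul]; noncomm_ring
    have h3 : (ρ x - 1) * (ρ L.prod - 1) ∈ F (k + k) := hF.mul _ _ _ hx _ h1
    have h4 := GrF_le hF (a := k) (by omega) h3
    have h5 := GrF_le hF (a := k + 1) (by omega) h3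
    refine ⟨?_, ?_⟩
    · rw [e]
      exact Submodule.add_mem _ (Submodule.add_mem _ hx h1) h4
    · rw [e, List.map_cons, List.sum_cons]
      have e2 : (ρ x - 1 + (L.map fun x => ρ x - 1).sum) -
          ((ρ x - 1) + (ρ L.prod - 1) + (ρ x - 1) * (ρ L.prod - 1)) =
          ((L.map fun x => ρ x - 1).sum - (ρ L.prod - 1)) - (ρ x - 1) * (ρ L.prod - 1) := by
        abel
      rw [e2]
      exact Submodule.sub_mem _ h2 h5

end aug

theorem grF_exists {O E X : Type} [CommRing O] [Ring E] [Algebra O E] [Group X] (n : ℕ)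
    (F : ℕ → Submodule O E) (h1 : (1 : E) ∈ F 0) (hmul : ∀ i j, F i * F j ≤ F (i + j))
    (hanti : ∀ i, F (i + 1) ≤ F i) (Φ Ψ : E) (hΦ : Φ ∈ F 0) (hΨ : Ψ ∈ F 0) (hpq : Φ * Ψ = 1)
    (hqp : Ψ * Φ = 1) (φ : X →* X) (ρ : X →* E) (hρ1 : ∀ x, ρ x - 1 ∈ F 1)
    (hρ : ∀ x, Φ * ρ x * Ψ = ρ (φ x)) (hφ : Split n φ) :
    ∃ (A : Type) (_ : Ring A) (_ : Algebra O A) (cl : (k : ℕ) → F k →ₗ[O] A) (S : Submodule O A),
      (∀ (k : ℕ) (u : F k), cl k u = 0 ↔ (u : E) ∈ F (k + 1)) ∧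
      (∀ (k l : ℕ) (u : F k) (v : F l) (w : F (k + l)), (w : E) = (u : E) * v →
        cl k u * cl l v = cl (k + l) w) ∧
      (cl 0 ⟨1, h1⟩ = 1) ∧ IsLie S ∧
      (∀ (k : ℕ) (x : X) (hx : ρ x - 1 ∈ F (k + 1)), cl (k + 1) ⟨ρ x - 1, hx⟩ ∈ S) ∧
      (∀ a ∈ S, ∑ j ∈ Finset.range n, (cl 0 ⟨Φ, hΦ⟩) ^ j * a * (cl 0 ⟨Ψ, hΨ⟩) ^ j = 0) := by
  have hF : GrF_Fil F := ⟨h1, fun i j a ha b hb => hmul i j (Submodule.mul_mem_mul ha hb), hanti⟩
  obtain ⟨S, hS⟩ : ∃ S : Submodule O (GrF_C hF).Quotient, S = Submodule.span O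
    {a | ∃ (k : ℕ) (g : X) (_ : 1 ≤ k) (h : ρ g - 1 ∈ F k), a = GrF_M hF k ⟨ρ g - 1, h⟩} :=
      ⟨_, rfl⟩
  have hgen : ∀ (k : ℕ) (g : X) (_ : 1 ≤ k) (h : ρ g - 1 ∈ F k),
      GrF_M hF k ⟨ρ g - 1, h⟩ ∈ S := fun k g hk h => by
    rw [hS]; exact Submodule.subset_span ⟨k, g, hk, h, rfl⟩
  have hconj : ∀ x, Φ * (ρ x - 1) * Ψ = ρ (φ x) - 1 := by
    intro x
    rw [mul_sub, sub_mul, hρ, mul_one, hpq]
  have hcF : ∀ (k : ℕ) (u : E), u ∈ F k → Φ * u * Ψ ∈ F k := by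
    intro k u hu
    have h2 := hF.mul _ _ _ (hF.mul _ _ _ hΦ _ hu) _ hΨ
    rwa [zero_add, add_zero] at h2
  have hitI : ∀ (j k : ℕ) (g : X), ρ g - 1 ∈ F k → ρ ((⇑φ)^[j] g) - 1 ∈ F k := by
    intro j k g h
    induction j with
    | zero => exact h
    | succ j ih =>
      rw [Function.iterate_succ_apply', ← hconj]
      exact hcF _ _ ih
  have hstep : ∀ (k : ℕ) (g : X) (h : ρ g - 1 ∈ F k) (h' : ρ (φ g) - 1 ∈ F k),
      GrF_M hF 0 ⟨Φ, hΦ⟩ * GrF_M hF k ⟨ρ g - 1, h⟩ * GrF_M hF 0 ⟨Ψ, hΨ⟩ =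
        GrF_M hF k ⟨ρ (φ g) - 1, h'⟩ := by
    intro k g h h'
    have h2 : Φ * (ρ g - 1) ∈ F (0 + k) := hF.mul _ _ _ hΦ _ h
    have h3 : Φ * (ρ g - 1) * Ψ ∈ F (0 + k + 0) := hF.mul _ _ _ h2 _ hΨ
    rw [GrF_M_mul hF _ _ ⟨Φ * (ρ g - 1), h2⟩ rfl,
      GrF_M_mul hF _ _ ⟨Φ * (ρ g - 1) * Ψ, h3⟩ rfl]
    exact GrF_M_congr hF (by omega) _ _ (hconj g)
  have hτit : ∀ (j k : ℕ) (g : X) (h : ρ g - 1 ∈ F k),
      (GrF_M hF 0 ⟨Φ, hΦ⟩) ^ j * GrF_M hF k ⟨ρ g - 1, h⟩ * (GrF_M hF 0 ⟨Ψ, hΨ⟩) ^ j =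
        GrF_M hF k ⟨ρ ((⇑φ)^[j] g) - 1, hitI j k g h⟩ := by
    intro j k g h
    induction j with
    | zero =>
      rw [pow_zero, pow_zero, one_mul, mul_one]
      rfl
    | succ j ih =>
      have e : (GrF_M hF 0 ⟨Φ, hΦ⟩) ^ (j + 1) * GrF_M hF k ⟨ρ g - 1, h⟩ *
          (GrF_M hF 0 ⟨Ψ, hΨ⟩) ^ (j + 1) = GrF_M hF 0 ⟨Φ, hΦ⟩ *
          ((GrF_M hF 0 ⟨Φ, hΦ⟩) ^ j * GrF_M hF k ⟨ρ g - 1, h⟩ * (GrF_M hF 0 ⟨Ψ, hΨ⟩) ^ j) *
          GrF_M hF 0 ⟨Ψ, hΨ⟩ := by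
        rw [pow_succ', pow_succ]
        simp only [mul_assoc]
      have h' : ρ (φ ((⇑φ)^[j] g)) - 1 ∈ F k := by
        have := hitI (j + 1) k g h
        rwa [Function.iterate_succ_apply'] at this
      rw [e, ih, hstep k _ _ h']
      refine GrF_M_congr hF rfl _ _ ?_
      show ρ (φ ((⇑φ)^[j] g)) - 1 = ρ ((⇑φ)^[j + 1] g) - 1
      rw [Function.iterate_succ_apply']
  refine ⟨(GrF_C hF).Quotient, inferInstance, inferInstance, GrF_M hF, S,
    fun k u => GrF_M_eq_zero hF u, fun k l u v w hw => GrF_M_mul hF u v w hw, GrF_M_one hF,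
    ?_, fun k x hx => hgen _ _ (by omega) hx, ?_⟩
  · -- Lie
    intro a ha b hb
    rw [hS] at ha hb
    induction ha, hb using Submodule.span_induction₂ with
    | mem_mem a b ha hb =>
      obtain ⟨k, g, hk, h1, rfl⟩ := ha
      obtain ⟨l, h, hl, h2, rfl⟩ := hb
      obtain ⟨h3, h4⟩ := GrF_comm ρ hF hρ1 g h h1 h2
      have hm1 : (ρ g - 1) * (ρ h - 1) ∈ F (k + l) := hF.mul _ _ _ h1 _ h2
      have hm2 : (ρ h - 1) * (ρ g - 1) ∈ F (l + k) := hF.mul _ _ _ h2 _ h1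
      have hm3 : (ρ h - 1) * (ρ g - 1) ∈ F (k + l) := by rw [add_comm]; exact hm2
      have h5 : GrF_M hF k ⟨ρ g - 1, h1⟩ * GrF_M hF l ⟨ρ h - 1, h2⟩ -
          GrF_M hF l ⟨ρ h - 1, h2⟩ * GrF_M hF k ⟨ρ g - 1, h1⟩ =
          GrF_M hF (k + l) ⟨ρ (g⁻¹ * h⁻¹ * g * h) - 1, h3⟩ := by
        rw [GrF_M_mul hF _ _ ⟨_, hm1⟩ rfl, GrF_M_mul hF _ _ ⟨_, hm2⟩ rfl]
        have e1 : GrF_M hF (l + k) ⟨(ρ h - 1) * (ρ g - 1), hm2⟩ =
            GrF_M hF (k + l) ⟨(ρ h - 1) * (ρ g - 1), hm3⟩ :=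
          GrF_M_congr hF (add_comm l k) _ _ rfl
        rw [e1]
        refine sub_eq_zero.mp ?_
        refine Eq.trans ?_ ((GrF_M_eq_zero hF (k := k + l)
          ⟨((ρ g - 1) * (ρ h - 1) - (ρ h - 1) * (ρ g - 1)) -
            (ρ (g⁻¹ * h⁻¹ * g * h) - 1), ?_⟩).mpr h4)
        · rw [← map_sub (GrF_M hF (k + l)), ← map_sub (GrF_M hF (k + l))]
          exact GrF_M_congr hF rfl _ _ rfl
        · exact Submodule.sub_mem _ (Submodule.sub_mem _ hm1 hm3) h3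
      rw [h5]
      exact hgen _ _ (by omega) h3
    | zero_left b _ => simp
    | zero_right a _ => simp
    | add_left a b c _ _ _ h1 h2 =>
      have : (a + b) * c - c * (a + b) = (a * c - c * a) + (b * c - c * b) := by noncomm_ring
      rw [this]
      exact Submodule.add_mem _ h1 h2
    | add_right a b c _ _ _ h1 h2 =>
      have : a * (b + c) - (b + c) * a = (a * b - b * a) + (a * c - c * a) := by noncomm_ring
      rw [this]
      exact Submodule.add_mem _ h1 h2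
    | smul_left r a b _ _ h =>
      exact Eq.mpr (congrArg (· ∈ S) (gr_lie_smul r a b)) (Submodule.smul_mem S r h)
    | smul_right r a b _ _ h =>
      exact Eq.mpr (congrArg (· ∈ S) (gr_lie_smul' r a b)) (Submodule.smul_mem S r h)
  · -- trace
    intro a ha
    rw [hS] at ha
    induction ha using Submodule.span_induction with
    | mem a ha =>
      obtain ⟨k, g, hk, h, rfl⟩ := ha
      rw [Finset.sum_congr rfl fun j _ => hτit j k g h, ← map_sum, GrF_M_eq_zero]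
      have h1 := GrF_list ρ hF hk ((List.range n).map fun j => (⇑φ)^[j] g) (by
        intro x hx
        obtain ⟨j, -, rfl⟩ := List.mem_map.mp hx
        exact hitI j k g h)
      have h2 := h1.2
      rw [hφ g, map_one, sub_self, sub_zero, List.map_map] at h2
      have e : ((∑ j ∈ Finset.range n, (⟨ρ ((⇑φ)^[j] g) - 1, hitI j k g h⟩ : ↥(F k)) :
          ↥(F k)) : E) = ((List.range n).map
            ((fun x => ρ x - 1) ∘ fun j => (⇑φ)^[j] g)).sum := by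
        rw [Submodule.coe_sum, gr_sum_list]
        rfl
      rw [e]
      exact h2
    | zero =>
      refine Finset.sum_eq_zero fun j _ => ?_
      rw [mul_zero, zero_mul]
    | add a b _ _ h1 h2 =>
      rw [Finset.sum_congr rfl fun j _ => (by rw [mul_add, add_mul] :
        (GrF_M hF 0 ⟨Φ, hΦ⟩) ^ j * (a + b) * (GrF_M hF 0 ⟨Ψ, hΨ⟩) ^ j =
        (GrF_M hF 0 ⟨Φ, hΦ⟩) ^ j * a * (GrF_M hF 0 ⟨Ψ, hΨ⟩) ^ j +
        (GrF_M hF 0 ⟨Φ, hΦ⟩) ^ j * b * (GrF_M hF 0 ⟨Ψ, hΨ⟩) ^ j), Finset.sum_add_distrib, h1,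
        h2, add_zero]
    | smul r a _ h =>
      have e : ∀ j, (GrF_M hF 0 ⟨Φ, hΦ⟩) ^ j * (r • a) * (GrF_M hF 0 ⟨Ψ, hΨ⟩) ^ j =
          r • ((GrF_M hF 0 ⟨Φ, hΦ⟩) ^ j * a * (GrF_M hF 0 ⟨Ψ, hΨ⟩) ^ j) := fun j =>
        (congrArg (fun z => z * (GrF_M hF 0 ⟨Ψ, hΨ⟩) ^ j) (mul_smul_comm r _ a)).trans
          (smul_mul_assoc r _ _)
      rw [Finset.sum_congr rfl fun j _ => e j, ← Finset.smul_sum, h, smul_zero]

end Pool.Agent.OrdS
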