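import Pool.Agent.OrdS.Two

/-!
# Abelian ideals which commute with the letters `X`

`S = LC (Z ⊔ X)`, `b ≤ S` a submodule with commuting elements, `[Z, b] ≤ b`, `[X, b] = 0`,
`Φ b Ψ ≤ b`, `b ≤ J = ⊤ X ⊤`. Then `(⊤ b ⊤)^18 = 0`.

Proof. `e_i = ide ζ Φ i`, `e_0 = 0`, `∑ e_i = 1`, `a e_i = e_(i+d) a` for `a` of degree `d`.
`b` is the sum of its homogeneous parts `b_i = {β ∈ b : Hom ζ Φ i β}`, `0 < i < 6` (`cmp_mem`, `cmp_sum`,
`cmp_zero`, trace zero on `S`).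
* `b_1^5 = 0`: `β_1 ⋯ β_5 e_i = β_1 ⋯ β_k e_(i+5-k) ⋯ = 0` for `1 ≤ i ≤ 5` since `e_6 = e_0 = 0`
  occurs on the way. In the same way `b_5^5 = 0`.
* `b_3^4 = 0`: elements of `b_3` commute with `X`, with `Z` (`z β - β z ∈ S` has degree `6`, so it is `0`) and
  `Φ β = - β Φ`. So `K = {a : a β = 0 for all β ∈ b_3}` is a two-sided ideal (`β r ∈ ⊤ β`: induction over
  the generators). `e_3 ∈ K` as `e_3 β = β e_0 = 0`. Apply `twoClass` to `A / K` (`exists_quot`, `Sys.map`; the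
  hypothesis `h3` there says that the image of `6 e_3` vanishes): `J^3 ≤ K`. As `b_3 ≤ J`, `b_3^4 ≤ J^3 b_3 = 0`.
* `b_2^4 = 0`: for `β, γ ∈ b_2`: `β γ e_2 = β e_4 γ = e_0 β γ = 0`, `γ e_4 = e_0 γ = 0`. Put `o = e_1 + e_3 + e_5`,
  `v = e_2 + e_4`, `o + v = 1`: `β γ v = 0`. Let `q = β_1 β_2 β_3 o`. For `x ∈ X` (odd degree, commuting with `b`):
  `x q = β_1 β_2 β_3 x o = β_1 β_2 β_3 v x = 0`. For `z ∈ Z`: `z q = β_1 β_2 β_3 z o +` three terms in which
  one `β_i` is replaced by `z β_i - β_i z ∈ b` (degree 5, moved to the right of the others, as `b` is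
  commutative): all are `0` because a product of two elements of `b_2` times `v` is `0`.
  So `{s : s q = 0}` is Lie closed and contains `Z`, `X`, hence `S` and `b_2`: `β_0 β_1 β_2 β_3 o = 0`.
  In the same way `b_4^4 = 0` (`β γ v = 0` for `β, γ ∈ b_4`).
* The submodules `b_i` commute pairwise, `b ≤ b_1 + ⋯ + b_5`, so `b^18 = 0` (`5 + 5 + 4 + 4 + 4 - 4 = 18`; use
  `Commute.add_pow_eq_zero_of_add_le_succ_of_pow_eq_zero` in the semiring `Submodule O A`).
* `b ⊤ = ⊤ b ⊤` as sets of sums: `{a : a b ≤ b ⊤}` is closed under products and contains the generators. So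
  `(⊤ b ⊤)^18 ≤ b^18 ⊤ = 0`.
-/

set_option autoImplicit false

namespace Pool.Agent.OrdS

open Pool.Agent.LgP

variable {O A : Type} [CommRing O] [Ring A] [Algebra O A] {ζ : O} {Φ Ψ : A} {Z X : Submodule O A}

/-- homogeneous part of degree `i` -/
private def Abel_h (ζ : O) (Φ : A) (b : Submodule O A) (i : ℕ) : Submodule O A :=
  { carrier := {a | a ∈ b ∧ Hom ζ Φ i a}
    zero_mem' := ⟨b.zero_mem, by unfold Hom; simp⟩
    add_mem' := fun h1 h2 => ⟨b.add_mem h1.1 h2.1, h1.2.add h2.2⟩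
    smul_mem' := fun r _ h => ⟨b.smul_mem r h.1, h.2.smul r⟩ }

private theorem Abel_h_le (b : Submodule O A) (i : ℕ) : Abel_h ζ Φ b i ≤ b := fun _ h => h.1

/-- an element of degree `j` kills `e_i` if `i + j` is divisible by `6` -/
private theorem Abel_kill (h : Sys ζ Φ Ψ Z X) {j : ℕ} {a : A} (ha : Hom ζ Φ j a) {i : ℕ}
    (hij : (i + j) % 6 = 0) : a * ide ζ Φ i = 0 := by
  rw [ha.ide h i, ide_congr h (i := i + j) (j := 0) (by simpa using hij), ide_zero h, zero_mul]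

private theorem Abel_eq (h : Sys ζ Φ Ψ Z X) {a : A} (ha : ∀ i, i < 6 → a * ide ζ Φ i = 0) :
    a = 0 := by
  have h1 : a = a * ∑ i ∈ Finset.range 6, ide ζ Φ i := by rw [ide_sum h, mul_one]
  rw [h1, Finset.mul_sum]
  exact Finset.sum_eq_zero fun i hi => ha i (Finset.mem_range.1 hi)

private theorem Abel_deg (T : Submodule O A) (d : ℕ) (hT : ∀ a ∈ T, Hom ζ Φ d a) (k : ℕ) :
    ∀ a ∈ T ^ k, Hom ζ Φ (d * k) a := by
  induction k with
  | zero =>
    intro a ha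
    rw [pow_zero, Submodule.mem_one] at ha
    obtain ⟨r, rfl⟩ := ha
    unfold Hom
    rw [mul_zero, pow_zero, one_smul, Algebra.commutes]
  | succ k ih =>
    intro a ha
    rw [pow_succ] at ha
    refine Submodule.mul_induction_on ha ?_ ?_
    · intro m hm n hn
      have := (ih m hm).mul (hT n hn)
      rwa [show d * k + d = d * (k + 1) by ring] at this
    · intro x y hx hy
      exact hx.add hy

private theorem Abel_pow (h : Sys ζ Φ Ψ Z X) (T : Submodule O A) (d : ℕ)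
    (hT : ∀ a ∈ T, Hom ζ Φ d a) (n : ℕ) (hn : ∀ i, i < 6 → ∃ k, k ≤ n ∧ (i + d * k) % 6 = 0) :
    T ^ n = ⊥ := by
  rw [eq_bot_iff]
  intro a ha
  rw [Submodule.mem_bot]
  apply Abel_eq h
  intro i hi
  obtain ⟨k, hk, hik⟩ := hn i hi
  rw [show n = (n - k) + k by omega, pow_add] at ha
  refine Submodule.mul_induction_on ha ?_ ?_
  · intro c _ e he
    rw [mul_assoc, Abel_kill h (Abel_deg T d hT k e he) hik, mul_zero]
  · intro x y hx hy
    rw [add_mul, hx, hy, add_zero]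

private theorem Abel_mem_of_gen (h : Sys ζ Φ Ψ Z X) (U : Subalgebra O A) (h1 : Φ ∈ U)
    (h2 : ∀ z ∈ Z, z ∈ U) (h3 : ∀ x ∈ X, x ∈ U) (a : A) : a ∈ U := by
  have h4 : Algebra.adjoin O ({Φ} ∪ (Z : Set A) ∪ (X : Set A)) ≤ U := by
    apply Algebra.adjoin_le
    rintro a ((ha | ha) | ha)
    · rw [Set.mem_singleton_iff] at ha
      rw [ha]; exact h1
    · exact h2 a ha
    · exact h3 a ha
  rw [h.gen] at h4
  exact h4 (by trivial)

private theorem Abel_three (h : Sys ζ Φ Ψ Z X) (b : Submodule O A) (hbS : b ≤ LC (Z ⊔ X))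
    (hbJ : b ≤ (⊤ : Submodule O A) * X * ⊤) (hbz : ∀ z ∈ Z, ∀ β ∈ b, z * β - β * z ∈ b)
    (hbx : ∀ x ∈ X, ∀ β ∈ b, x * β = β * x) : Abel_h ζ Φ b 3 ^ 4 = ⊥ := by
  have hZ : ∀ z ∈ Z, ∀ β ∈ Abel_h ζ Φ b 3, z * β = β * z := by
    intro z hz β hβ
    have h1 : Hom ζ Φ 0 (z * β - β * z) :=
      Hom.mod h.prim (by norm_num) ((h.homZ hz).comm hβ.2)
    have h2 := h1.zero h (h.tr _ (hbS (hbz z hz β hβ.1)))
    exact sub_eq_zero.1 h2
  have hR : ∀ β ∈ Abel_h ζ Φ b 3, ∀ r : A, ∃ s, r * β = β * s := by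
    intro β hβ
    let U : Subalgebra O A :=
      { carrier := {r | ∃ s, r * β = β * s}
        mul_mem' := by
          rintro r r' ⟨s, hs⟩ ⟨s', hs'⟩
          exact ⟨s * s', by rw [mul_assoc, hs', ← mul_assoc, hs, mul_assoc]⟩
        add_mem' := by
          rintro r r' ⟨s, hs⟩ ⟨s', hs'⟩
          exact ⟨s + s', by rw [add_mul, mul_add, hs, hs']⟩
        algebraMap_mem' := fun r => ⟨algebraMap O A r, Algebra.commutes r β⟩ }
    intro r
    refine Abel_mem_of_gen h U ?_ ?_ ?_ r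
    · refine ⟨-Φ, ?_⟩
      have := hβ.2
      unfold Hom at this
      rw [this, h.zeta3, neg_smul, one_smul, mul_neg]
    · intro z hz
      exact ⟨z, hZ z hz β hβ⟩
    · intro x hx
      exact ⟨x, hbx x hx β hβ.1⟩
  let K : Submodule O A :=
    { carrier := {a | ∀ β ∈ Abel_h ζ Φ b 3, a * β = 0}
      zero_mem' := fun β _ => zero_mul β
      add_mem' := fun {a c} ha hc β hβ => by rw [add_mul, ha β hβ, hc β hβ, add_zero]
      smul_mem' := fun r a ha β hβ => by rw [smul_mul_assoc, ha β hβ, smul_zero] }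
  have hK1 : ∀ a : A, ∀ k ∈ K, a * k ∈ K := by
    intro a k hk β hβ
    rw [mul_assoc, hk β hβ, mul_zero]
  have hK2 : ∀ a : A, ∀ k ∈ K, k * a ∈ K := by
    intro a k hk β hβ
    obtain ⟨s, hs⟩ := hR β hβ a
    rw [mul_assoc, hs, ← mul_assoc, hk β hβ, zero_mul]
  obtain ⟨B, iB, iA, f, hf, hfK⟩ := exists_quot K hK1 hK2
  have hS := h.map f hf
  have he : ide ζ Φ 3 ∈ K := by
    intro β hβ
    have h1 := hβ.2.ide h 0
    rw [ide_zero h, mul_zero, zero_add] at h1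
    exact h1.symm
  have hsum : ∑ j ∈ Finset.range 6, (-1 : A) ^ j * Φ ^ j ∈ K := by
    have h1 : ∑ j ∈ Finset.range 6, (-1 : A) ^ j * Φ ^ j = (6 : O) • ide ζ Φ 3 := by
      unfold ide
      rw [smul_comm, Idem_inv h.prim]
      refine Finset.sum_congr rfl fun j _ => ?_
      have h2 : ζ ^ (5 * 3 * j) = (-1) ^ j := by
        rw [pow_mul, show 5 * 3 = 3 * 5 by norm_num, pow_mul, h.zeta3]
        norm_num
      rw [h2]
      rcases Nat.even_or_odd j with hj | hj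
      · rw [hj.neg_one_pow, hj.neg_one_pow, one_mul, one_smul]
      · rw [hj.neg_one_pow, hj.neg_one_pow, neg_one_mul, neg_one_smul]
    rw [h1]
    exact K.smul_mem _ he
  have h3 : ∑ j ∈ Finset.range 6, (-1 : B) ^ j * (f Φ) ^ j = 0 := by
    have h1 := (hfK _).2 hsum
    simpa [map_sum, map_mul, map_pow] using h1
  have h4 := twoClass hS h3
  have h5 : ((⊤ : Submodule O A) * X * ⊤) ^ 3 ≤ K := by
    intro a ha
    rw [← hfK]
    have h6 : f.toLinearMap a ∈ (((⊤ : Submodule O A) * X * ⊤) ^ 3).map f.toLinearMap :=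
      Submodule.mem_map_of_mem ha
    rw [Submodule.map_pow, Submodule.map_mul, Submodule.map_mul, Submodule.map_top,
      LinearMap.range_eq_top.2 hf, h4, Submodule.mem_bot] at h6
    exact h6
  rw [eq_bot_iff, pow_succ]
  have h7 : Abel_h ζ Φ b 3 ^ 3 ≤ K :=
    le_trans (pow_le_pow_left' (le_trans (Abel_h_le b 3) hbJ) 3) h5
  rw [Submodule.mul_le]
  intro m hm n hn
  rw [Submodule.mem_bot]
  exact h7 hm n hn

/-- the parts of even degree -/
private theorem Abel_even (h : Sys ζ Φ Ψ Z X) (b : Submodule O A) (hbS : b ≤ LC (Z ⊔ X))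
    (hbz : ∀ z ∈ Z, ∀ β ∈ b, z * β - β * z ∈ b) (hbx : ∀ x ∈ X, ∀ β ∈ b, x * β = β * x)
    (hbb : ∀ β ∈ b, ∀ γ ∈ b, β * γ = γ * β) {d : ℕ} (hd : d = 2 ∨ d = 4) :
    Abel_h ζ Φ b d ^ 4 = ⊥ := by
  have e0 := ide_zero h
  have es : ide ζ Φ 1 + ide ζ Φ 3 + ide ζ Φ 5 + (ide ζ Φ 2 + ide ζ Φ 4) = 1 := by
    have h1 := ide_sum h
    simp only [Finset.sum_range_succ, Finset.sum_range_zero, e0] at h1
    rw [← h1]
    abel
  -- products of two elements of degree `d` kill the even idempotents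
  have hv : ∀ β ∈ Abel_h ζ Φ b d, ∀ γ ∈ Abel_h ζ Φ b d,
      β * γ * (ide ζ Φ 2 + ide ζ Φ 4) = 0 := by
    intro β hβ γ hγ
    rcases hd with hd | hd
    · subst hd
      have h1 : β * γ * ide ζ Φ 2 = 0 := Abel_kill h (hβ.2.mul hγ.2) (by norm_num)
      have h2 : γ * ide ζ Φ 4 = 0 := Abel_kill h hγ.2 (by norm_num)
      rw [mul_add, h1, mul_assoc, h2, mul_zero, add_zero]
    · subst hd
      have h1 : β * γ * ide ζ Φ 4 = 0 := Abel_kill h (hβ.2.mul hγ.2) (by norm_num)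
      have h2 : γ * ide ζ Φ 2 = 0 := Abel_kill h hγ.2 (by norm_num)
      rw [mul_add, h1, mul_assoc, h2, mul_zero, add_zero]
  -- elements of odd degree exchange the odd and the even idempotents
  have c1 : ∀ c : A, Hom ζ Φ 1 c → c * (ide ζ Φ 1 + ide ζ Φ 3 + ide ζ Φ 5) =
      (ide ζ Φ 2 + ide ζ Φ 4) * c := by
    intro c hc
    rw [mul_add, mul_add, hc.ide h, hc.ide h, hc.ide h,
      ide_congr h (i := 5 + 1) (j := 0) (by norm_num), e0, zero_mul, add_zero, add_mul]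
  have c3 : ∀ c : A, Hom ζ Φ 3 c → c * (ide ζ Φ 1 + ide ζ Φ 3 + ide ζ Φ 5) =
      (ide ζ Φ 2 + ide ζ Φ 4) * c := by
    intro c hc
    rw [mul_add, mul_add, hc.ide h, hc.ide h, hc.ide h,
      ide_congr h (i := 3 + 3) (j := 0) (by norm_num),
      ide_congr h (i := 5 + 3) (j := 2) (by norm_num), e0, zero_mul, add_zero, add_mul, add_comm]
  have c5 : ∀ c : A, Hom ζ Φ 5 c → c * (ide ζ Φ 1 + ide ζ Φ 3 + ide ζ Φ 5) =
      (ide ζ Φ 2 + ide ζ Φ 4) * c := by
    intro c hc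
    rw [mul_add, mul_add, hc.ide h, hc.ide h, hc.ide h,
      ide_congr h (i := 1 + 5) (j := 0) (by norm_num),
      ide_congr h (i := 3 + 5) (j := 2) (by norm_num),
      ide_congr h (i := 5 + 5) (j := 4) (by norm_num), e0, zero_mul, zero_add, add_mul]
  have cx : ∀ x ∈ X, x * (ide ζ Φ 1 + ide ζ Φ 3 + ide ζ Φ 5) = (ide ζ Φ 2 + ide ζ Φ 4) * x := by
    intro x hx
    obtain ⟨y, _, w, _, hy, hw, rfl⟩ := h.split hx
    rw [add_mul, c1 y hy, c5 w hw, mul_add]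
  have cb : ∀ z ∈ Z, ∀ β ∈ Abel_h ζ Φ b d, (z * β - β * z) *
      (ide ζ Φ 1 + ide ζ Φ 3 + ide ζ Φ 5) = (ide ζ Φ 2 + ide ζ Φ 4) * (z * β - β * z) := by
    intro z hz β hβ
    have h1 := (h.homZ hz).comm hβ.2
    rcases hd with hd | hd
    · subst hd
      exact c5 _ (Hom.mod h.prim (by norm_num) h1)
    · subst hd
      exact c1 _ (Hom.mod h.prim (by norm_num) h1)
  generalize ide ζ Φ 1 + ide ζ Φ 3 + ide ζ Φ 5 = o at *
  generalize ide ζ Φ 2 + ide ζ Φ 4 = v at *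
  have key : ∀ β₀ ∈ Abel_h ζ Φ b d, ∀ β₁ ∈ Abel_h ζ Φ b d, ∀ β₂ ∈ Abel_h ζ Φ b d,
      ∀ β₃ ∈ Abel_h ζ Φ b d, β₀ * β₁ * β₂ * β₃ = 0 := by
    intro β₀ h₀ β₁ h₁ β₂ h₂ β₃ h₃
    let T : Submodule O A :=
      { carrier := {s | s * (β₁ * β₂ * β₃ * o) = 0}
        zero_mem' := zero_mul _
        add_mem' := fun {a c} ha hc => by
          show (a + c) * (β₁ * β₂ * β₃ * o) = 0
          rw [add_mul, show a * (β₁ * β₂ * β₃ * o) = 0 from ha,
            show c * (β₁ * β₂ * β₃ * o) = 0 from hc, add_zero]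
        smul_mem' := fun r a ha => by
          show (r • a) * (β₁ * β₂ * β₃ * o) = 0
          rw [smul_mul_assoc, show a * (β₁ * β₂ * β₃ * o) = 0 from ha, smul_zero] }
    have hTS : LC (Z ⊔ X) ≤ T := by
      apply LC_le
      · intro a ha c hc
        show (a * c - c * a) * (β₁ * β₂ * β₃ * o) = 0
        have ha' : a * (β₁ * β₂ * β₃ * o) = 0 := ha
        have hc' : c * (β₁ * β₂ * β₃ * o) = 0 := hc
        rw [sub_mul, mul_assoc, hc', mul_zero, mul_assoc, ha', mul_zero, sub_zero]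
      · rw [sup_le_iff]
        constructor
        · intro z hz
          show z * (β₁ * β₂ * β₃ * o) = 0
          have hz3 := c3 z (h.homZ hz)
          have k₁ := cb z hz β₁ h₁
          have k₂ := cb z hz β₂ h₂
          have k₃ := cb z hz β₃ h₃
          have m₁ := hbb _ (hbz z hz β₁ h₁.1) β₂ h₂.1
          have m₁' := hbb _ (hbz z hz β₁ h₁.1) β₃ h₃.1
          have m₂ := hbb _ (hbz z hz β₂ h₂.1) β₃ h₃.1
          have e : z * (β₁ * β₂ * β₃ * o) = β₁ * β₂ * β₃ * (z * o) +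
              β₁ * β₂ * ((z * β₃ - β₃ * z) * o) + β₁ * ((z * β₂ - β₂ * z) * β₃) * o +
              ((z * β₁ - β₁ * z) * β₂) * β₃ * o := by
            noncomm_ring
          have e1 : β₁ * β₂ * β₃ * (z * o) = 0 := by
            rw [hz3]
            have : β₁ * β₂ * β₃ * (v * z) = β₁ * (β₂ * β₃ * v) * z := by noncomm_ring
            rw [this, hv β₂ h₂ β₃ h₃, mul_zero, zero_mul]
          have e2 : β₁ * β₂ * ((z * β₃ - β₃ * z) * o) = 0 := by
            rw [k₃, ← mul_assoc, hv β₁ h₁ β₂ h₂, zero_mul]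
          have e3 : β₁ * ((z * β₂ - β₂ * z) * β₃) * o = 0 := by
            rw [m₂]
            have : β₁ * (β₃ * (z * β₂ - β₂ * z)) * o = β₁ * β₃ * ((z * β₂ - β₂ * z) * o) := by
              simp only [mul_assoc]
            rw [this, k₂, ← mul_assoc, hv β₁ h₁ β₃ h₃, zero_mul]
          have e4 : ((z * β₁ - β₁ * z) * β₂) * β₃ * o = 0 := by
            have : ((z * β₁ - β₁ * z) * β₂) * β₃ = β₂ * β₃ * (z * β₁ - β₁ * z) := by
              rw [m₁, mul_assoc, m₁', mul_assoc]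
            rw [this, mul_assoc (β₂ * β₃), k₁, ← mul_assoc, hv β₂ h₂ β₃ h₃, zero_mul]
          rw [e, e1, e2, e3, e4]
          simp
        · intro x hx
          show x * (β₁ * β₂ * β₃ * o) = 0
          have m₁ := hbx x hx β₁ h₁.1
          have m₂ := hbx x hx β₂ h₂.1
          have m₃ := hbx x hx β₃ h₃.1
          have e : x * (β₁ * β₂ * β₃ * o) = β₁ * (β₂ * β₃ * v) * x := by
            calc x * (β₁ * β₂ * β₃ * o) = (x * β₁) * β₂ * β₃ * o := by simp only [mul_assoc]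
              _ = β₁ * (x * β₂) * β₃ * o := by rw [m₁]; simp only [mul_assoc]
              _ = β₁ * β₂ * (x * β₃) * o := by rw [m₂]; simp only [mul_assoc]
              _ = β₁ * β₂ * β₃ * (x * o) := by rw [m₃]; simp only [mul_assoc]
              _ = β₁ * (β₂ * β₃ * v) * x := by rw [cx x hx]; simp only [mul_assoc]
          rw [e, hv β₂ h₂ β₃ h₃, mul_zero, zero_mul]
    have h4 : β₀ * (β₁ * β₂ * β₃ * o) = 0 := hTS (hbS h₀.1)
    have h5 : β₀ * β₁ * β₂ * β₃ = β₀ * (β₁ * β₂ * β₃ * o) + β₀ * β₁ * (β₂ * β₃ * v) := by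
      have : β₀ * β₁ * β₂ * β₃ = β₀ * β₁ * β₂ * β₃ * (o + v) := by rw [es, mul_one]
      rw [this]
      noncomm_ring
    rw [h5, h4, hv β₂ h₂ β₃ h₃, mul_zero, add_zero]
  rw [eq_bot_iff]
  have e4 : Abel_h ζ Φ b d ^ 4 = Abel_h ζ Φ b d * Abel_h ζ Φ b d * Abel_h ζ Φ b d *
      Abel_h ζ Φ b d := by
    rw [pow_succ, pow_succ, pow_succ, pow_one]
  rw [e4, Submodule.mul_le]
  intro m hm n hn
  rw [Submodule.mem_bot]
  refine Submodule.mul_induction_on hm ?_ ?_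
  · intro m' hm' n' hn'
    refine Submodule.mul_induction_on hm' ?_ ?_
    · intro p hp q hq
      exact key p hp q hq n' hn' n hn
    · intro x y hx hy
      rw [add_mul, add_mul, hx, hy, add_zero]
  · intro x y hx hy
    rw [add_mul, hx, hy, add_zero]

private theorem Abel_sum (h : Sys ζ Φ Ψ Z X) (b : Submodule O A) (hbS : b ≤ LC (Z ⊔ X))
    (hbΦ : ∀ β ∈ b, Φ * β * Ψ ∈ b) : b ≤ Abel_h ζ Φ b 1 + Abel_h ζ Φ b 5 + Abel_h ζ Φ b 2 +
      Abel_h ζ Φ b 4 + Abel_h ζ Φ b 3 := by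
  intro β hβ
  have h1 := cmp_sum h β
  have h0 := cmp_zero (ζ := ζ) (h.tr β (hbS hβ))
  simp only [Finset.sum_range_succ, Finset.sum_range_zero, h0] at h1
  have hm : ∀ i, cmp ζ Φ Ψ i β ∈ Abel_h ζ Φ b i := fun i => ⟨cmp_mem b hbΦ hβ i, cmp_hom h i β⟩
  have h2 : β = cmp ζ Φ Ψ 1 β + cmp ζ Φ Ψ 5 β + cmp ζ Φ Ψ 2 β + cmp ζ Φ Ψ 4 β +
      cmp ζ Φ Ψ 3 β := by
    conv_lhs => rw [← h1]
    abel
  rw [h2]
  exact Submodule.add_mem_sup (Submodule.add_mem_sup (Submodule.add_mem_sup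
    (Submodule.add_mem_sup (hm 1) (hm 5)) (hm 2)) (hm 4)) (hm 3)

private theorem Abel_comm (S T : Submodule O A) (hST : ∀ s ∈ S, ∀ t ∈ T, s * t = t * s) :
    Commute S T := by
  apply le_antisymm
  · rw [Submodule.mul_le]
    intro s hs t ht
    rw [hST s hs t ht]
    exact Submodule.mul_mem_mul ht hs
  · rw [Submodule.mul_le]
    intro t ht s hs
    rw [← hST s hs t ht]
    exact Submodule.mul_mem_mul hs ht

private theorem Abel_top (h : Sys ζ Φ Ψ Z X) (b : Submodule O A)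
    (hbz : ∀ z ∈ Z, ∀ β ∈ b, z * β - β * z ∈ b)
    (hbx : ∀ x ∈ X, ∀ β ∈ b, x * β = β * x) (hbΦ : ∀ β ∈ b, Φ * β * Ψ ∈ b) :
    (⊤ : Submodule O A) * b ≤ b * ⊤ := by
  let U : Subalgebra O A :=
    { carrier := {a | ∀ β ∈ b, a * β ∈ b * ⊤}
      mul_mem' := by
        intro a c ha hc β hβ
        rw [mul_assoc]
        refine Submodule.mul_induction_on (C := fun w => a * w ∈ b * ⊤) (hc β hβ) ?_ ?_
        · intro m hm n hn
          rw [← mul_assoc]
          refine Submodule.mul_induction_on (C := fun w => w * n ∈ b * ⊤) (ha m hm) ?_ ?_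
          · intro m' hm' n' hn'
            rw [mul_assoc]
            exact Submodule.mul_mem_mul hm' (by trivial)
          · intro x y hx hy
            rw [add_mul]
            exact Submodule.add_mem _ hx hy
        · intro x y hx hy
          rw [mul_add]
          exact Submodule.add_mem _ hx hy
      add_mem' := by
        intro a c ha hc β hβ
        rw [add_mul]
        exact Submodule.add_mem _ (ha β hβ) (hc β hβ)
      algebraMap_mem' := by
        intro r β hβ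
        rw [Algebra.commutes]
        exact Submodule.mul_mem_mul hβ (by trivial) }
  have hU := Abel_mem_of_gen h U ?_ ?_ ?_
  · rw [Submodule.mul_le]
    intro a _ β hβ
    exact hU a β hβ
  · intro β hβ
    have e : Φ * β = (Φ * β * Ψ) * Φ := by rw [mul_assoc (Φ * β), h.qp, mul_one]
    rw [e]
    exact Submodule.mul_mem_mul (hbΦ β hβ) (by trivial)
  · intro z hz β hβ
    have e : z * β = β * z + (z * β - β * z) * 1 := by rw [mul_one]; abel
    rw [e]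
    exact Submodule.add_mem _ (Submodule.mul_mem_mul hβ (by trivial))
      (Submodule.mul_mem_mul (hbz z hz β hβ) (by trivial))
  · intro x hx β hβ
    rw [hbx x hx β hβ]
    exact Submodule.mul_mem_mul hβ (by trivial)

private theorem Abel_pow_top (b : Submodule O A) (hb : (⊤ : Submodule O A) * b ≤ b * ⊤) (n : ℕ) :
    (b * ⊤) ^ n ≤ b ^ n * (⊤ : Submodule O A) := by
  induction n with
  | zero =>
    rw [pow_zero, pow_zero, one_mul]
    exact le_top
  | succ n ih =>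
    calc (b * ⊤) ^ (n + 1) = (b * ⊤) ^ n * (b * ⊤) := pow_succ _ _
      _ ≤ (b ^ n * ⊤) * (b * ⊤) := mul_le_mul' ih le_rfl
      _ = b ^ n * (⊤ * b) * ⊤ := by simp only [mul_assoc]
      _ ≤ b ^ n * (b * ⊤) * ⊤ := mul_le_mul' (mul_le_mul' le_rfl hb) le_rfl
      _ = b ^ (n + 1) * (⊤ * ⊤) := by rw [pow_succ]; simp only [mul_assoc]
      _ ≤ b ^ (n + 1) * ⊤ := mul_le_mul' le_rfl le_top

theorem abel (h : Sys ζ Φ Ψ Z X) (b : Submodule O A) (hbS : b ≤ LC (Z ⊔ X))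
    (hbJ : b ≤ (⊤ : Submodule O A) * X * ⊤) (hbz : ∀ z ∈ Z, ∀ β ∈ b, z * β - β * z ∈ b)
    (hbx : ∀ x ∈ X, ∀ β ∈ b, x * β = β * x) (hbΦ : ∀ β ∈ b, Φ * β * Ψ ∈ b)
    (hbb : ∀ β ∈ b, ∀ γ ∈ b, β * γ = γ * β) : ((⊤ : Submodule O A) * b * ⊤) ^ 18 = ⊥ := by
  have hc : ∀ i j, Commute (Abel_h ζ Φ b i) (Abel_h ζ Φ b j) := fun i j =>
    Abel_comm _ _ fun s hs t ht => hbb s hs.1 t ht.1
  have p1 : Abel_h ζ Φ b 1 ^ 5 = 0 := by
    refine Abel_pow h (Abel_h ζ Φ b 1) 1 (fun a ha => ha.2) 5 ?_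
    intro i hi
    interval_cases i
    · exact ⟨0, by norm_num⟩
    · exact ⟨5, by norm_num⟩
    · exact ⟨4, by norm_num⟩
    · exact ⟨3, by norm_num⟩
    · exact ⟨2, by norm_num⟩
    · exact ⟨1, by norm_num⟩
  have p5 : Abel_h ζ Φ b 5 ^ 5 = 0 := by
    refine Abel_pow h (Abel_h ζ Φ b 5) 5 (fun a ha => ha.2) 5 ?_
    intro i hi
    refine ⟨i, by omega, by omega⟩
  have p2 : Abel_h ζ Φ b 2 ^ 4 = 0 := Abel_even h b hbS hbz hbx hbb (Or.inl rfl)
  have p4 : Abel_h ζ Φ b 4 ^ 4 = 0 := Abel_even h b hbS hbz hbx hbb (Or.inr rfl)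
  have p3 : Abel_h ζ Φ b 3 ^ 4 = 0 := Abel_three h b hbS hbJ hbz hbx
  have q1 := (hc 1 5).add_pow_eq_zero_of_add_le_succ_of_pow_eq_zero p1 p5
    (k := 9) (by norm_num)
  have q2 := ((hc 1 2).add_left (hc 5 2)).add_pow_eq_zero_of_add_le_succ_of_pow_eq_zero q1 p2
    (k := 12) (by norm_num)
  have q3 := (((hc 1 4).add_left (hc 5 4)).add_left
    (hc 2 4)).add_pow_eq_zero_of_add_le_succ_of_pow_eq_zero q2 p4 (k := 15) (by norm_num)
  have q4 := ((((hc 1 3).add_left (hc 5 3)).add_left (hc 2 3)).add_left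
    (hc 4 3)).add_pow_eq_zero_of_add_le_succ_of_pow_eq_zero q3 p3 (k := 18) (by norm_num)
  have hb18 : b ^ 18 ≤ ⊥ := by
    refine le_trans (pow_le_pow_left' (Abel_sum h b hbS hbΦ) 18) ?_
    rw [q4]
    exact le_rfl
  have ht := Abel_top h b hbz hbx hbΦ
  rw [eq_bot_iff]
  calc ((⊤ : Submodule O A) * b * ⊤) ^ 18 ≤ (b * ⊤) ^ 18 := by
        apply pow_le_pow_left'
        calc (⊤ : Submodule O A) * b * ⊤ ≤ b * ⊤ * ⊤ := mul_le_mul' ht le_rfl
          _ = b * (⊤ * ⊤) := by rw [mul_assoc]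
          _ ≤ b * ⊤ := mul_le_mul' le_rfl le_top
    _ ≤ b ^ 18 * ⊤ := Abel_pow_top b ht 18
    _ ≤ ⊥ * ⊤ := mul_le_mul' hb18 le_rfl
    _ = ⊥ := Submodule.bot_mul _

end Pool.Agent.OrdS
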