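import Pool.Agent.OrdS.Fil
import Pool.Agent.LgP.Gen

/-!
# From nilpotency to trivial action
-/

set_option autoImplicit false

open scoped commutatorElement

namespace Pool.Agent.OrdS

open Pool.Agent.LgP

section

variable {O E G : Type} [CommRing O] [Ring E] [Algebra O E] [Group G]

private theorem Act_mem (ρ : G →* E) (N : Subgroup G) {n : G} (hn : n ∈ N) :
    ρ n - 1 ∈ augS O ρ N := Submodule.subset_span ⟨n, hn, rfl⟩

private theorem Act_one (ρ : G →* E) (N : Subgroup G) {n : G} (hn : n ∈ N) {x : E}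
    (hx : x ∈ augS O ρ N) : x * ρ n ∈ augS O ρ N := by
  unfold augS at hx
  induction hx using Submodule.span_induction with
  | mem x h =>
    obtain ⟨m, hm, rfl⟩ := h
    have h1 : (ρ m - 1) * ρ n = (ρ (m * n) - 1) - (ρ n - 1) := by
      rw [map_mul]
      noncomm_ring
    rw [h1]
    exact Submodule.sub_mem _ (Act_mem ρ N (N.mul_mem hm hn)) (Act_mem ρ N hn)
  | zero => rw [zero_mul]; exact Submodule.zero_mem _
  | add x y _ _ hx hy => rw [add_mul]; exact Submodule.add_mem _ hx hy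
  | smul a x _ hx => rw [smul_mul_assoc]; exact Submodule.smul_mem _ a hx

private theorem Act_pow (ρ : G →* E) (N : Subgroup G) {n : G} (hn : n ∈ N) (j : ℕ) {x : E}
    (hx : x ∈ (augS O ρ N) ^ (j + 1)) : x * ρ n ∈ (augS O ρ N) ^ (j + 1) := by
  rw [pow_succ] at hx ⊢
  induction hx using Submodule.mul_induction_on' with
  | mem_mul_mem a ha b hb =>
    rw [mul_assoc]
    exact Submodule.mul_mem_mul ha (Act_one ρ N hn hb)
  | add x _ y _ hx hy => rw [add_mul]; exact Submodule.add_mem _ hx hy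

/-- the subgroup of the elements of depth `j + 1` -/
private def Act_sub (O : Type) {E G : Type} [CommRing O] [Ring E] [Algebra O E] [Group G]
    (ρ : G →* E) (N : Subgroup G) (j : ℕ) : Subgroup G where
  carrier := {g | g ∈ N ∧ ρ g - 1 ∈ (augS O ρ N) ^ (j + 1)}
  mul_mem' := by
    rintro g h ⟨hg, hg'⟩ ⟨hh, hh'⟩
    refine ⟨N.mul_mem hg hh, ?_⟩
    have h1 : ρ (g * h) - 1 = (ρ g - 1) * ρ h + (ρ h - 1) := by
      rw [map_mul]
      noncomm_ring
    rw [h1]
    exact Submodule.add_mem _ (Act_pow ρ N hh j hg') hh'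
  one_mem' := by
    refine ⟨N.one_mem, ?_⟩
    rw [map_one, sub_self]
    exact Submodule.zero_mem _
  inv_mem' := by
    rintro g ⟨hg, hg'⟩
    refine ⟨N.inv_mem hg, ?_⟩
    have h1 : ρ g⁻¹ - 1 = -((ρ g - 1) * ρ g⁻¹) := by
      rw [sub_mul, one_mul, ← map_mul, mul_inv_cancel, map_one, neg_sub]
    rw [h1]
    exact Submodule.neg_mem _ (Act_pow ρ N (N.inv_mem hg) j hg')

private theorem Act_der (ρ : G →* E) (N : Subgroup G) (k : ℕ) :
    ∃ j, j + 1 = 2 ^ k ∧ derG k N ≤ Act_sub O ρ N j := by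
  induction k with
  | zero =>
    refine ⟨0, rfl, fun g hg => ⟨hg, ?_⟩⟩
    rw [zero_add, pow_one]
    exact Act_mem ρ N hg
  | succ k ih =>
    obtain ⟨j, hj, hle⟩ := ih
    refine ⟨2 * j + 1, by rw [pow_succ]; omega, ?_⟩
    show ⁅derG k N, derG k N⁆ ≤ _
    rw [Subgroup.commutator_le]
    intro g hg h hh
    obtain ⟨hg1, hg2⟩ := hle hg
    obtain ⟨hh1, hh2⟩ := hle hh
    refine ⟨?_, ?_⟩
    · rw [commutatorElement_def]
      exact N.mul_mem (N.mul_mem (N.mul_mem hg1 hh1) (N.inv_mem hg1)) (N.inv_mem hh1)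
    · have h1 : ρ ⁅g, h⁆ - 1 =
          ((ρ g - 1) * (ρ h - 1) - (ρ h - 1) * (ρ g - 1)) * ρ (g⁻¹ * h⁻¹) := by
        have h2 : (ρ g - 1) * (ρ h - 1) - (ρ h - 1) * (ρ g - 1) = ρ (g * h) - ρ (h * g) := by
          rw [map_mul, map_mul]
          noncomm_ring
        rw [h2, sub_mul, ← map_mul, ← map_mul, commutatorElement_def]
        have h3 : h * g * (g⁻¹ * h⁻¹) = 1 := by group
        rw [h3, map_one]
        congr 2
        group
      rw [h1]
      have h4 : 2 * j + 1 + 1 = (j + 1) + (j + 1) := by ring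
      refine Act_pow ρ N (N.mul_mem (N.inv_mem hg1) (N.inv_mem hh1)) (2 * j + 1) ?_
      rw [h4, pow_add]
      exact Submodule.sub_mem _ (Submodule.mul_mem_mul hg2 hh2) (Submodule.mul_mem_mul hh2 hg2)

end

/-- If products of `2 ^ r` elements `ρ n - 1` vanish then `derG r N` acts trivially. (For `g ∈ derG k N`,
`ρ g - 1 ∈ (augS O ρ N)^(2^k)`: for commutators
`ρ ⁅g, h⁆ - 1 = ((ρ g - 1)(ρ h - 1) - (ρ h - 1)(ρ g - 1)) ρ (g⁻¹ h⁻¹)`, and `I^j ρ(n) ≤ I^j` for
`I = augS O ρ N`, `1 ≤ j`, `n ∈ N`; products and inverses in the same way.) -/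
theorem derG_trivial {O E G : Type} [CommRing O] [Ring E] [Algebra O E] [Group G] (ρ : G →* E)
    (N : Subgroup G) (M r : ℕ) (hr : M ≤ 2 ^ r) (h : (augS O ρ N) ^ M = ⊥) :
    ∀ g ∈ derG r N, ρ g = 1 := by
  intro g hg
  obtain ⟨j, hj, hle⟩ := Act_der (O := O) ρ N r
  obtain ⟨-, h2⟩ := hle hg
  rw [hj] at h2
  have h3 : (augS O ρ N) ^ (2 ^ r) = ⊥ := by
    obtain ⟨m, hm⟩ := Nat.exists_eq_add_of_le hr
    rw [hm, pow_add, h, Submodule.bot_mul]
  rw [h3, Submodule.mem_bot] at h2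
  exact sub_eq_zero.1 h2

end Pool.Agent.OrdS
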