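import Pool.Agent.OrdS.Idem

/-!
# The adjoint module

`P ≤ A` a submodule stable under `ad z` (`z ∈ Z`), `ad x` (`x ∈ X`) and conjugation by `Φ`, with trace zero, such
that `derL d (LC (Z ⊔ X))` commutes with `P`. Let `E = Module.End O P`, `ad z, ad x ∈ E`, `Φ' =` conjugation
by `Φ`, `Ψ'` its inverse (conjugation by `Ψ = Φ^5`), `B` the subalgebra of `E` generated by `Φ'`, `ad Z`, `ad X`.
Then `Sys ζ Φ' Ψ' (ad Z) (ad X)` holds on `B`: `Φ' ad(z) Ψ' = ad (Φ z Ψ)`, `∑ Φ'^j = 0` on `P` by the trace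
hypothesis, `LC (ad Z ⊔ ad X) = ad (LC (Z ⊔ X))`, so its trace is `ad` of the trace. Moreover
`derL d (LC (ad Z ⊔ ad X)) = ad (derL d (LC (Z ⊔ X))) = 0`. By `LieB d M`, `(⊤ * ad X * ⊤)^M = 0` in `B`.
Put `a i =` the span of all `T p` with `T ∈ (⊤ * ad X * ⊤)^i` (submodule of `B`), `p ∈ P` (`a 0 = P`).
(`ad s` for `s ∈ LC (Z ⊔ X)` is defined as an element of `E` because `P` is stable under `LC (Z ⊔ X)`: the set
of all `s` with `[s, P] ≤ P` is Lie closed.)
-/

set_option autoImplicit false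

namespace Pool.Agent.OrdS

open Pool.Agent.LgP

/-- the Lie lemma with exponent `M` for derived length `d` -/
def LieB (d M : ℕ) : Prop :=
  ∀ (O A : Type) [CommRing O] [Ring A] [Algebra O A] (ζ : O) (Φ Ψ : A) (Z X : Submodule O A),
    Sys ζ Φ Ψ Z X → derL d (LC (Z ⊔ X)) = ⊥ → ((⊤ : Submodule O A) * X * ⊤) ^ M = ⊥

/-- conjugation -/
private def AdM_c {O A : Type} [CommRing O] [Ring A] [Algebra O A] (u v : A) : Module.End O A :=
  LinearMap.mulLeft O u * LinearMap.mulRight O v

private theorem AdM_c_apply {O A : Type} [CommRing O] [Ring A] [Algebra O A] (u v a : A) :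
    (AdM_c u v : Module.End O A) a = u * (a * v) := rfl

/-- the adjoint map -/
private def AdM_ad {O A : Type} [CommRing O] [Ring A] [Algebra O A] : A →ₗ[O] Module.End O A :=
  LinearMap.mul O A - (LinearMap.mul O A).flip

private theorem AdM_ad_apply {O A : Type} [CommRing O] [Ring A] [Algebra O A] (s a : A) :
    (AdM_ad s : Module.End O A) a = s * a - a * s := rfl

private theorem AdM_c_pow {O A : Type} [CommRing O] [Ring A] [Algebra O A] (u v : A) (j : ℕ) :
    (AdM_c u v : Module.End O A) ^ j = AdM_c (u ^ j) (v ^ j) := by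
  induction j with
  | zero => ext a; simp [AdM_c_apply]
  | succ j ih =>
    ext a
    rw [pow_succ', Module.End.mul_apply, ih, AdM_c_apply, AdM_c_apply, AdM_c_apply, pow_succ', pow_succ]
    noncomm_ring

private theorem AdM_ad_comm {O A : Type} [CommRing O] [Ring A] [Algebra O A] (s t : A) :
    (AdM_ad (s * t - t * s) : Module.End O A) = AdM_ad s * AdM_ad t - AdM_ad t * AdM_ad s := by
  ext a
  simp only [LinearMap.sub_apply, Module.End.mul_apply, AdM_ad_apply]
  noncomm_ring

private theorem AdM_conj {O A : Type} [CommRing O] [Ring A] [Algebra O A] {u v : A}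
    (h1 : u * v = 1) (s : A) :
    (AdM_c u v * AdM_ad s * AdM_c v u : Module.End O A) = AdM_ad (u * s * v) := by
  ext a
  simp only [Module.End.mul_apply, AdM_ad_apply, AdM_c_apply]
  have e : u * ((s * (v * (a * u)) - v * (a * u) * s) * v) =
      u * s * v * a * (u * v) - (u * v) * a * (u * s * v) := by noncomm_ring
  rw [e, h1]
  noncomm_ring

private theorem AdM_derL_mono {O A : Type} [CommRing O] [Ring A] [Algebra O A] {S T : Submodule O A}
    (h : S ≤ T) (k : ℕ) : derL k S ≤ derL k T := by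
  induction k with
  | zero => exact h
  | succ k ih =>
    apply Submodule.span_mono
    rintro x ⟨a, ha, b, hb, rfl⟩
    exact ⟨a, ih ha, b, ih hb, rfl⟩

theorem adM {d M : ℕ} (IH : LieB d M) {O A : Type} [CommRing O] [Ring A] [Algebra O A] {ζ : O}
    {Φ Ψ : A} {Z X : Submodule O A} (h : Sys ζ Φ Ψ Z X) (P : Submodule O A)
    (hPz : ∀ z ∈ Z, ∀ p ∈ P, z * p - p * z ∈ P) (hPx : ∀ x ∈ X, ∀ p ∈ P, x * p - p * x ∈ P)
    (hPΦ : ∀ p ∈ P, Φ * p * Ψ ∈ P) (hPt : ∀ p ∈ P, ∑ j ∈ Finset.range 6, Φ ^ j * p * Ψ ^ j = 0)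
    (hPd : ∀ s ∈ derL d (LC (Z ⊔ X)), ∀ p ∈ P, s * p = p * s) :
    ∃ a : ℕ → Submodule O A, a 0 = P ∧ a M = ⊥ ∧ (∀ i, a (i + 1) ≤ a i) ∧
      (∀ i, ∀ z ∈ Z, ∀ p ∈ a i, z * p - p * z ∈ a i) ∧
      (∀ i, ∀ x ∈ X, ∀ p ∈ a i, x * p - p * x ∈ a (i + 1)) ∧
      (∀ i, ∀ p ∈ a i, Φ * p * Ψ ∈ a i) := by
  classical
  set F : Module.End O A := AdM_c Φ Ψ with hF
  set G : Module.End O A := AdM_c Ψ Φ with hG
  have hΨ6 : Ψ ^ 6 = 1 := by
    have h1 := h.psi
    rw [h1, ← pow_mul]
    have : 5 * 6 = 6 * 5 := by norm_num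
    rw [this, pow_mul, h.six, one_pow]
  have hΨ5 : Ψ ^ 5 = Φ := by
    calc Ψ ^ 5 = (Φ * Ψ) * Ψ ^ 5 := by rw [h.pq, one_mul]
      _ = Φ * Ψ ^ 6 := by rw [mul_assoc, ← pow_succ']
      _ = Φ := by rw [hΨ6, mul_one]
  have hGF : G = F ^ 5 := by
    rw [hF, hG, AdM_c_pow, hΨ5, ← h.psi]
  have hFG : F * G = 1 := by
    ext a
    rw [Module.End.mul_apply, hF, hG, AdM_c_apply, AdM_c_apply, Module.End.one_apply]
    have : Φ * (Ψ * (a * Φ) * Ψ) = (Φ * Ψ) * a * (Φ * Ψ) := by noncomm_ring
    rw [this, h.pq]; simp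
  have hGF1 : G * F = 1 := by
    ext a
    rw [Module.End.mul_apply, hF, hG, AdM_c_apply, AdM_c_apply, Module.End.one_apply]
    have : Ψ * (Φ * (a * Ψ) * Φ) = (Ψ * Φ) * a * (Ψ * Φ) := by noncomm_ring
    rw [this, h.qp]; simp
  set S : Set (Module.End O A) := {F} ∪ (Z.map AdM_ad : Submodule O (Module.End O A)) ∪
    (X.map AdM_ad : Submodule O (Module.End O A)) with hS
  obtain ⟨B, iB1, iB2, ι, hι, hr⟩ : ∃ (B : Type) (_ : Ring B) (_ : Algebra O B)
      (ι : B →ₐ[O] Module.End O A), Function.Injective ι ∧ ι.range = Algebra.adjoin O S :=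
    ⟨Algebra.adjoin O S, inferInstance, inferInstance, (Algebra.adjoin O S).val,
      Subtype.val_injective, Subalgebra.range_val _⟩
  have hmem : ∀ T ∈ S, ∃ t : B, ι t = T := by
    intro T hT
    have h1 : T ∈ ι.range := by rw [hr]; exact Algebra.subset_adjoin hT
    exact h1
  have hrB : ∀ t : B, ι t ∈ Algebra.adjoin O S := by
    intro t
    rw [← hr]
    exact ⟨t, rfl⟩
  obtain ⟨F0, hF0⟩ := hmem F (Or.inl (Or.inl rfl))
  have hG0 : ι (F0 ^ 5) = G := by rw [map_pow, hF0, hGF]
  set G0 : B := F0 ^ 5 with hG0d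
  -- stability of P
  have hst' : ∀ T ∈ Algebra.adjoin O S, ∀ p ∈ P, T p ∈ P := by
    intro T hT
    refine Algebra.adjoin_induction (p := fun T _ => ∀ p ∈ P, T p ∈ P) ?_ ?_ ?_ ?_ hT
    · rintro T ((rfl | ⟨z, hz, rfl⟩) | ⟨x, hx, rfl⟩) p hp
      · rw [hF, AdM_c_apply, ← mul_assoc]; exact hPΦ p hp
      · exact hPz z hz p hp
      · exact hPx x hx p hp
    · intro r p hp
      rw [Module.algebraMap_end_apply]
      exact P.smul_mem r hp
    · intro T U _ _ hT hU p hp
      exact P.add_mem (hT p hp) (hU p hp)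
    · intro T U _ _ hT hU p hp
      exact hT _ (hU p hp)
  have hst : ∀ T : B, ∀ p ∈ P, (ι T) p ∈ P := fun T p hp => hst' _ (hrB T) p hp
  -- the ideal
  let K : Submodule O B :=
    { carrier := {T | ∀ p ∈ P, (ι T) p = 0}
      add_mem' := by
        intro T U hT hU p hp
        rw [map_add, LinearMap.add_apply, hT p hp, hU p hp, add_zero]
      zero_mem' := fun p _ => by rw [map_zero]; rfl
      smul_mem' := by
        intro r T hT p hp
        rw [map_smul, LinearMap.smul_apply, hT p hp, smul_zero] }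
  have hK1 : ∀ T : B, ∀ k ∈ K, T * k ∈ K := by
    intro T k hk p hp
    rw [map_mul, Module.End.mul_apply, hk p hp, map_zero]
  have hK2 : ∀ T : B, ∀ k ∈ K, k * T ∈ K := by
    intro T k hk p hp
    rw [map_mul, Module.End.mul_apply]
    exact hk _ (hst _ p hp)
  obtain ⟨C, iC1, iC2, f, hf, hfK⟩ := exists_quot K hK1 hK2
  let Z0 : Submodule O B := (Z.map AdM_ad).comap ι.toLinearMap
  let X0 : Submodule O B := (X.map AdM_ad).comap ι.toLinearMap
  have hLC : LC (Z0 ⊔ X0) ≤ ((LC (Z ⊔ X)).map AdM_ad).comap ι.toLinearMap := by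
    apply LC_le
    · rintro a ⟨s, hs, hsa⟩ b ⟨t, ht, htb⟩
      refine ⟨s * t - t * s, LC_lie _ s hs t ht, ?_⟩
      rw [AdM_ad_comm, hsa, htb]
      show ι a * ι b - ι b * ι a = ι (a * b - b * a)
      rw [map_sub, map_mul, map_mul]
    · refine sup_le ?_ ?_
      · exact Submodule.comap_mono (Submodule.map_mono (le_sup_left.trans (le_LC _)))
      · exact Submodule.comap_mono (Submodule.map_mono (le_sup_right.trans (le_LC _)))
  have hder : ∀ k, derL k (LC (Z0 ⊔ X0)) ≤
      ((derL k (LC (Z ⊔ X))).map AdM_ad).comap ι.toLinearMap := by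
    intro k
    induction k with
    | zero => exact hLC
    | succ k ih =>
      refine Submodule.span_le.2 ?_
      rintro _ ⟨a, ha, b, hb, rfl⟩
      obtain ⟨s, hs, hsa⟩ := ih ha
      obtain ⟨t, ht, htb⟩ := ih hb
      refine ⟨s * t - t * s, Submodule.subset_span ⟨s, hs, t, ht, rfl⟩, ?_⟩
      rw [AdM_ad_comm, hsa, htb]
      show ι a * ι b - ι b * ι a = ι (a * b - b * a)
      rw [map_sub, map_mul, map_mul]
  have hFGs : ∀ s : A, F * AdM_ad s * G = AdM_ad (Φ * s * Ψ) := fun s => AdM_conj h.pq s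
  have hFGj : ∀ (j : ℕ) (s : A), F ^ j * AdM_ad s * G ^ j = AdM_ad (Φ ^ j * s * Ψ ^ j) := by
    intro j s
    rw [hF, hG, AdM_c_pow, AdM_c_pow]
    apply AdM_conj
    induction j with
    | zero => simp
    | succ j ih =>
      rw [pow_succ, pow_succ', mul_assoc, ← mul_assoc Φ, h.pq, one_mul, ih]
  have hsys : Sys ζ (f F0) (f G0) (Z0.map f.toLinearMap) (X0.map f.toLinearMap) := by
    refine ⟨h.prim, ?_, ?_, ?_, ?_, ?_, ?_, ?_, ?_⟩
    · rw [← map_mul, ← map_one f]
      congr 1
      apply hι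
      rw [map_mul, hF0, hG0, hFG, map_one]
    · rw [← map_mul, ← map_one f]
      congr 1
      apply hι
      rw [map_mul, hF0, hG0, hGF1, map_one]
    · have : f (∑ j ∈ Finset.range 6, F0 ^ j) = 0 := by
        rw [hfK]
        intro p hp
        have e : ι (∑ j ∈ Finset.range 6, F0 ^ j) = ∑ j ∈ Finset.range 6, F ^ j := by
          rw [map_sum]
          refine Finset.sum_congr rfl fun j _ => ?_
          rw [map_pow, hF0]
        rw [e, LinearMap.sum_apply]
        have := hPt p hp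
        rw [← this]
        refine Finset.sum_congr rfl fun j _ => ?_
        rw [hF, AdM_c_pow, AdM_c_apply, mul_assoc]
      rw [map_sum] at this
      rw [← this]
      refine Finset.sum_congr rfl fun j _ => ?_
      rw [map_pow]
    · rintro _ ⟨z', ⟨z, hz, hzz⟩, rfl⟩
      show f F0 * f z' * f G0 = - f z'
      rw [← map_mul, ← map_mul, ← map_neg]
      congr 1
      apply hι
      have hz' : ι z' = AdM_ad z := hzz.symm
      rw [map_mul, map_mul, map_neg, hF0, hG0, hz', hFGs, h.hz z hz, map_neg]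
    · rintro _ ⟨x', ⟨x, hx, hxx⟩, rfl⟩
      refine ⟨F0 * x' * G0, ⟨Φ * x * Ψ, h.hx x hx, ?_⟩, ?_⟩
      · show AdM_ad (Φ * x * Ψ) = ι (F0 * x' * G0)
        have hx' : ι x' = AdM_ad x := hxx.symm
        rw [map_mul ι, map_mul ι, hF0, hG0, hx', hFGs]
      · show f (F0 * x' * G0) = f F0 * f x' * f G0
        rw [map_mul, map_mul]
    · rintro _ ⟨x', ⟨x, hx, hxx⟩, rfl⟩
      show f F0 * (f F0 * f x' * f G0) * f G0 - f F0 * f x' * f G0 + f x' = 0
      have e : F0 * (F0 * x' * G0) * G0 - F0 * x' * G0 + x' = 0 := by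
        apply hι
        have hx' : ι x' = AdM_ad x := hxx.symm
        simp only [map_add, map_sub, map_mul]
        rw [hF0, hG0, hx', hFGs, hFGs, ← map_sub, ← map_add, h.hx2 x hx, map_zero, map_zero]
      have := congrArg f e
      rw [map_zero] at this
      rw [← this]
      simp only [map_sub, map_add, map_mul]
    · intro a ha
      rw [← Submodule.map_sup, ← LC_map] at ha
      obtain ⟨a', ha', rfl⟩ := ha
      obtain ⟨s, hs, hsa⟩ := hLC ha'
      have e : ∑ j ∈ Finset.range 6, F0 ^ j * a' * G0 ^ j = 0 := by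
        apply hι
        have ha2 : ι a' = AdM_ad s := hsa.symm
        rw [map_sum]
        have e1 : ∀ j, ι (F0 ^ j * a' * G0 ^ j) = AdM_ad (Φ ^ j * s * Ψ ^ j) := by
          intro j
          rw [map_mul, map_mul, map_pow, map_pow, hF0, hG0, ha2, hFGj]
        simp only [e1]
        rw [← map_sum, h.tr s hs, map_zero, map_zero]
      have := congrArg f e
      rw [map_sum, map_zero] at this
      rw [← this]
      refine Finset.sum_congr rfl fun j _ => ?_
      show f F0 ^ j * f a' * f G0 ^ j = _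
      simp only [map_mul, map_pow]
    · have h1 : Algebra.adjoin O (({F0} : Set B) ∪ (Z0 : Set B) ∪ (X0 : Set B)) = ⊤ := by
        have h2 : ι '' (({F0} : Set B) ∪ (Z0 : Set B) ∪ (X0 : Set B)) = S := by
          ext T
          constructor
          · rintro ⟨t, ((hT | hT) | hT), rfl⟩
            · left; left
              rw [Set.mem_singleton_iff] at hT ⊢
              rw [hT, hF0]
            · left; right; exact hT
            · right; exact hT
          · intro hT
            obtain ⟨t, ht⟩ := hmem T hT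
            refine ⟨t, ?_, ht⟩
            rcases hT with (hT | hT) | hT
            · left; left
              rw [Set.mem_singleton_iff] at hT ⊢
              apply hι
              rw [ht, hT, hF0]
            · left; right
              show ι t ∈ Z.map AdM_ad
              rw [ht]; exact hT
            · right
              show ι t ∈ X.map AdM_ad
              rw [ht]; exact hT
        apply Subalgebra.map_injective hι
        rw [AlgHom.map_adjoin, h2, Algebra.map_top, hr]
      have h3 := congrArg (Subalgebra.map f) h1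
      rw [Algebra.map_top, AlgHom.range_eq_top f |>.2 hf, AlgHom.map_adjoin] at h3
      rw [← h3]
      congr 1
      rw [Set.image_union, Set.image_union, Set.image_singleton]
      rfl
  have hd0 : derL d (LC (Z0.map f.toLinearMap ⊔ X0.map f.toLinearMap)) = ⊥ := by
    rw [← Submodule.map_sup, ← LC_map, ← derL_map, eq_bot_iff]
    rintro _ ⟨a, ha, rfl⟩
    rw [Submodule.mem_bot]
    show f a = 0
    rw [hfK]
    intro p hp
    obtain ⟨s, hs, hsa⟩ := hder d ha
    have ha2 : ι a = AdM_ad s := hsa.symm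
    rw [ha2, AdM_ad_apply, hPd s hs p hp, sub_self]
  have hM := IH O C ζ (f F0) (f G0) _ _ hsys hd0
  let I : Submodule O B := ⊤ * X0 * ⊤
  have hIM : ∀ T ∈ I ^ M, T ∈ K := by
    intro T hT
    rw [← hfK]
    have h1 : f T ∈ (I ^ M).map f.toLinearMap := ⟨T, hT, rfl⟩
    rw [Submodule.map_pow, Submodule.map_mul, Submodule.map_mul, Submodule.map_top,
      LinearMap.range_eq_top.2 hf, hM] at h1
    exact h1
  have hXI : X0 ≤ I := by
    intro x hx
    have h1 : (1 : B) * x * 1 ∈ I :=
      Submodule.mul_mem_mul (Submodule.mul_mem_mul Submodule.mem_top hx) Submodule.mem_top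
    simpa using h1
  have hTI : ∀ (i : ℕ) (U T : B), T ∈ I ^ (i + 1) → U * T ∈ I ^ (i + 1) := by
    intro i U T hT
    have h1 : (⊤ : Submodule O B) * I ^ (i + 1) ≤ I ^ (i + 1) := by
      rw [pow_succ', ← mul_assoc]
      refine mul_le_mul_left ?_ _
      show ⊤ * (⊤ * X0 * ⊤) ≤ ⊤ * X0 * ⊤
      rw [← mul_assoc, ← mul_assoc]
      refine mul_le_mul_left ?_ _
      refine mul_le_mul_left ?_ _
      exact le_top
    exact h1 (Submodule.mul_mem_mul Submodule.mem_top hT)
  let a : ℕ → Submodule O A := fun i =>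
    Submodule.span O {y | ∃ T ∈ I ^ i, ∃ p ∈ P, y = (ι T) p}
  have ha0 : a 0 = P := by
    apply le_antisymm
    · refine Submodule.span_le.2 ?_
      rintro _ ⟨T, _, p, hp, rfl⟩
      exact hst T p hp
    · intro p hp
      refine Submodule.subset_span ⟨1, ?_, p, hp, ?_⟩
      · rw [pow_zero]
        exact Submodule.one_le.1 le_rfl
      · rw [map_one]; rfl
  -- general stability
  have hgen : ∀ (i j : ℕ) (U : B), (∀ T ∈ I ^ i, ∀ p ∈ P, (ι U) ((ι T) p) ∈ a j) →
      ∀ y ∈ a i, (ι U) y ∈ a j := by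
    intro i j U hU y hy
    refine Submodule.span_induction (p := fun y _ => (ι U) y ∈ a j) ?_ ?_ ?_ ?_ hy
    · rintro _ ⟨T, hT, p, hp, rfl⟩
      exact hU T hT p hp
    · show (ι U) 0 ∈ a j
      rw [map_zero]; exact (a j).zero_mem
    · intro x y _ _ hx hy
      show (ι U) (x + y) ∈ a j
      rw [map_add]; exact (a j).add_mem hx hy
    · intro r x _ hx
      show (ι U) (r • x) ∈ a j
      rw [map_smul]; exact (a j).smul_mem r hx
  have hstab : ∀ (i : ℕ) (U : B), ∀ y ∈ a i, (ι U) y ∈ a i := by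
    intro i U
    cases i with
    | zero =>
      intro y hy
      rw [ha0] at hy ⊢
      exact hst U y hy
    | succ i =>
      apply hgen
      intro T hT p hp
      exact Submodule.subset_span ⟨U * T, hTI i U T hT, p, hp, by rw [map_mul]; rfl⟩
  refine ⟨a, ha0, ?_, ?_, ?_, ?_, ?_⟩
  · rw [eq_bot_iff]
    refine Submodule.span_le.2 ?_
    rintro _ ⟨T, hT, p, hp, rfl⟩
    exact hIM T hT p hp
  · intro i
    refine Submodule.span_le.2 ?_
    rintro _ ⟨T, hT, p, hp, rfl⟩
    rw [pow_succ] at hT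
    refine Submodule.mul_induction_on (C := fun T => (ι T) p ∈ a i) hT ?_ ?_
    · intro U hU V _
      exact Submodule.subset_span ⟨U, hU, (ι V) p, hst V p hp, by rw [map_mul]; rfl⟩
    · intro U V hU hV
      show (ι (U + V)) p ∈ a i
      rw [map_add]
      exact (a i).add_mem hU hV
  · intro i z hz p hp
    obtain ⟨t, ht⟩ := hmem (AdM_ad z) (Or.inl (Or.inr ⟨z, hz, rfl⟩))
    have := hstab i t p hp
    rw [ht] at this
    exact this
  · intro i x hx p hp
    obtain ⟨t, ht⟩ := hmem (AdM_ad x) (Or.inr ⟨x, hx, rfl⟩)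
    have htX : t ∈ X0 := by
      show ι t ∈ X.map AdM_ad
      rw [ht]
      exact ⟨x, hx, rfl⟩
    have := hgen i (i + 1) t (by
      intro T hT p hp
      refine Submodule.subset_span ⟨t * T, ?_, p, hp, by rw [map_mul]; rfl⟩
      rw [pow_succ']
      exact Submodule.mul_mem_mul (hXI htX) hT) p hp
    rw [ht] at this
    exact this
  · intro i p hp
    have := hstab i F0 p hp
    rw [hF0, hF, AdM_c_apply, ← mul_assoc] at this
    exact this

end Pool.Agent.OrdS
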