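import Pool.Agent.OrdS.Defs

/-!
# Basic facts about `LC`, `Hom`, `Sys`
-/

set_option autoImplicit false

namespace Pool.Agent.OrdS

open Pool.Agent.LgP

section

variable {O A A' : Type} [CommRing O] [Ring A] [Algebra O A] [Ring A'] [Algebra O A']

theorem LC_lie (P : Submodule O A) : IsLie (LC P) := by
  intro a ha b hb
  unfold LC at ha hb ⊢
  rw [Submodule.mem_sInf] at ha hb ⊢
  intro T hT
  exact hT.1 a (ha T hT) b (hb T hT)

theorem le_LC (P : Submodule O A) : P ≤ LC P := by
  unfold LC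
  exact le_sInf fun T hT => hT.2

theorem LC_le {P T : Submodule O A} (hT : IsLie T) (h : P ≤ T) : LC P ≤ T :=
  sInf_le ⟨hT, h⟩

/-- image of the generated Lie algebra -/
theorem LC_map (f : A →ₐ[O] A') (P : Submodule O A) :
    (LC P).map f.toLinearMap = LC (P.map f.toLinearMap) := by
  apply le_antisymm
  · rw [Submodule.map_le_iff_le_comap]
    apply LC_le
    · intro a ha b hb
      rw [Submodule.mem_comap] at ha hb ⊢
      have := LC_lie _ _ ha _ hb
      simpa [map_sub, map_mul] using this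
    · rw [← Submodule.map_le_iff_le_comap]
      exact le_LC _
  · apply LC_le
    · rintro _ ⟨a, ha, rfl⟩ _ ⟨b, hb, rfl⟩
      exact ⟨a * b - b * a, LC_lie _ a ha b hb, by simp⟩
    · exact Submodule.map_mono (le_LC P)

/-- image of the derived series -/
theorem derL_map (f : A →ₐ[O] A') (k : ℕ) (S : Submodule O A) :
    (derL k S).map f.toLinearMap = derL k (S.map f.toLinearMap) := by
  induction k with
  | zero => rfl
  | succ k ih =>
    show (Submodule.span O _).map _ = Submodule.span O _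
    rw [Submodule.map_span]
    congr 1
    ext x
    constructor
    · rintro ⟨_, ⟨a, ha, b, hb, rfl⟩, rfl⟩
      refine ⟨f a, ?_, f b, ?_, by simp⟩
      · rw [← ih]; exact ⟨a, ha, rfl⟩
      · rw [← ih]; exact ⟨b, hb, rfl⟩
    · rintro ⟨a, ha, b, hb, rfl⟩
      rw [← ih] at ha hb
      obtain ⟨a, ha, rfl⟩ := ha
      obtain ⟨b, hb, rfl⟩ := hb
      exact ⟨a * b - b * a, ⟨a, ha, b, hb, rfl⟩, by simp⟩

/-- the data pass to homomorphic images -/
theorem Sys.map {ζ : O} {Φ Ψ : A} {Z X : Submodule O A} (h : Sys ζ Φ Ψ Z X) (f : A →ₐ[O] A')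
    (hf : Function.Surjective f) :
    Sys ζ (f Φ) (f Ψ) (Z.map f.toLinearMap) (X.map f.toLinearMap) := by
  refine ⟨h.prim, ?_, ?_, ?_, ?_, ?_, ?_, ?_, ?_⟩
  · rw [← map_mul, h.pq, map_one]
  · rw [← map_mul, h.qp, map_one]
  · have := congrArg f h.sum
    simpa [map_sum, map_pow] using this
  · rintro _ ⟨z, hz, rfl⟩
    have := congrArg f (h.hz z hz)
    simpa [map_mul] using this
  · rintro _ ⟨x, hx, rfl⟩
    exact ⟨Φ * x * Ψ, h.hx x hx, by simp⟩
  · rintro _ ⟨x, hx, rfl⟩
    have := congrArg f (h.hx2 x hx)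
    simpa [map_mul] using this
  · intro a ha
    rw [← Submodule.map_sup, ← LC_map] at ha
    obtain ⟨a, ha, rfl⟩ := ha
    have := congrArg f (h.tr a ha)
    simpa [map_sum, map_mul, map_pow] using this
  · have h1 := congrArg (Subalgebra.map f) h.gen
    rw [Algebra.map_top, AlgHom.range_eq_top f |>.2 hf, AlgHom.map_adjoin] at h1
    rw [← h1]
    congr 1
    rw [Set.image_union, Set.image_union, Set.image_singleton]
    rfl

/-- quotient by a two-sided ideal -/
theorem exists_quot (K : Submodule O A) (h1 : ∀ a : A, ∀ k ∈ K, a * k ∈ K)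
    (h2 : ∀ a : A, ∀ k ∈ K, k * a ∈ K) :
    ∃ (B : Type) (_ : Ring B) (_ : Algebra O B) (f : A →ₐ[O] B), Function.Surjective f ∧
      ∀ a, f a = 0 ↔ a ∈ K := by
  let c : RingCon A :=
    { r := fun a b => a - b ∈ K
      iseqv :=
        { refl := fun a => by rw [sub_self]; exact K.zero_mem
          symm := fun {a b} h => by
            have := K.neg_mem h
            rwa [neg_sub] at this
          trans := fun {a b d} h1 h2 => by
            have := K.add_mem h1 h2
            rwa [sub_add_sub_cancel] at this }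
      mul' := by
        intro w x y z h3 h4
        have e : w * y - x * z = w * (y - z) + (w - x) * z := by noncomm_ring
        show w * y - x * z ∈ K
        rw [e]
        exact K.add_mem (h1 _ _ h4) (h2 _ _ h3)
      add' := by
        intro w x y z h3 h4
        have e : w + y - (x + z) = (w - x) + (y - z) := by abel
        show w + y - (x + z) ∈ K
        rw [e]
        exact K.add_mem h3 h4 }
  refine ⟨c.Quotient, inferInstance, inferInstance, c.mkₐ O, RingCon.mkₐ_surjective (α := O) c, ?_⟩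
  intro a
  have h3 : c.mkₐ O a = 0 ↔ c a 0 := by
    rw [← RingCon.eq]
    rfl
  rw [h3]
  show a - 0 ∈ K ↔ _
  rw [sub_zero]

section

variable {O A : Type} [CommRing O] [Ring A] [Algebra O A] {ζ : O} {Φ Ψ : A} {Z X : Submodule O A}

theorem Hom.mul {i j : ℕ} {a b : A} (ha : Hom ζ Φ i a) (hb : Hom ζ Φ j b) :
    Hom ζ Φ (i + j) (a * b) := by
  unfold Hom at *
  rw [← mul_assoc, ha, smul_mul_assoc, mul_assoc, hb, mul_smul_comm, smul_smul, ← pow_add,
    mul_assoc]

theorem Hom.add {i : ℕ} {a b : A} (ha : Hom ζ Φ i a) (hb : Hom ζ Φ i b) :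
    Hom ζ Φ i (a + b) := by
  unfold Hom at *
  rw [mul_add, add_mul, smul_add, ha, hb]

theorem Hom.neg {i : ℕ} {a : A} (ha : Hom ζ Φ i a) : Hom ζ Φ i (-a) := by
  unfold Hom at *
  rw [mul_neg, neg_mul, smul_neg, ha]

theorem Hom.sub {i : ℕ} {a b : A} (ha : Hom ζ Φ i a) (hb : Hom ζ Φ i b) :
    Hom ζ Φ i (a - b) := by
  rw [sub_eq_add_neg]
  exact ha.add hb.neg

theorem Hom.smul {i : ℕ} {a : A} (r : O) (ha : Hom ζ Φ i a) : Hom ζ Φ i (r • a) := by
  unfold Hom at *
  rw [mul_smul_comm, ha, smul_mul_assoc, smul_comm]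

theorem Hom.comm {i j : ℕ} {a b : A} (ha : Hom ζ Φ i a) (hb : Hom ζ Φ j b) :
    Hom ζ Φ (i + j) (a * b - b * a) := by
  refine (ha.mul hb).sub ?_
  rw [add_comm]
  exact hb.mul ha

theorem Hom.mod (hP : Prim O 6 ζ) {i j : ℕ} (hij : i % 6 = j % 6) {a : A} (ha : Hom ζ Φ i a) :
    Hom ζ Φ j a := by
  unfold Hom at *
  have h : ∀ k : ℕ, ζ ^ k = ζ ^ (k % 6) := by
    intro k
    conv_lhs => rw [← Nat.mod_add_div k 6, pow_add, pow_mul, hP.pow, one_pow, mul_one]
  rw [ha, h i, h j, hij]

end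

end

end Pool.Agent.OrdS
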