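import Pool.Agent.LgP.Defs

/-!
# OrdS: fixed-point-free automorphisms of order 6, all primes (MP_2cd00b_al)

Associative algebra side. `A` is an `O`-algebra containing an invertible element `Φ` with inverse
`Ψ` such that `1 + Φ + ⋯ + Φ^5 = 0` (so `Φ^6 = 1`), and two submodules `Z`, `X` of letters:
`Φ z Ψ = - z` for `z` in `Z` (degree 3), and `X` is stable under `x ↦ Φ x Ψ` and killed by
`T² - T + 1` (degrees `1` and `-1`). The Lie algebra `LC (Z ⊔ X)` generated by the letters has trace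
zero, and `A` is generated by `Φ`, `Z`, `X`. An element `a` has degree `i` if `Φ * a = ζ^i • (a * Φ)`
(`i : ℕ`, only `i` modulo `6` matters).
-/

set_option autoImplicit false

namespace Pool.Agent.OrdS

open Pool.Agent.LgP

/-- the smallest Lie closed submodule containing `P` -/
def LC {O A : Type} [CommRing O] [Ring A] [Algebra O A] (P : Submodule O A) : Submodule O A :=
  sInf {T | IsLie T ∧ P ≤ T}

/-- The data of the Lie lemma. -/
structure Sys {O A : Type} [CommRing O] [Ring A] [Algebra O A] (ζ : O) (Φ Ψ : A)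
    (Z X : Submodule O A) : Prop where
  prim : Prim O 6 ζ
  pq : Φ * Ψ = 1
  qp : Ψ * Φ = 1
  sum : ∑ j ∈ Finset.range 6, Φ ^ j = 0
  hz : ∀ z ∈ Z, Φ * z * Ψ = -z
  hx : ∀ x ∈ X, Φ * x * Ψ ∈ X
  hx2 : ∀ x ∈ X, Φ * (Φ * x * Ψ) * Ψ - Φ * x * Ψ + x = 0
  tr : ∀ a ∈ LC (Z ⊔ X), ∑ j ∈ Finset.range 6, Φ ^ j * a * Ψ ^ j = 0
  gen : Algebra.adjoin O ({Φ} ∪ (Z : Set A) ∪ (X : Set A)) = ⊤

/-- `a` is homogeneous of degree `i` -/
def Hom {O A : Type} [CommRing O] [Ring A] [Algebra O A] (ζ : O) (Φ : A) (i : ℕ) (a : A) : Prop :=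
  Φ * a = ζ ^ i • (a * Φ)

end Pool.Agent.OrdS
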