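import Pool.Agent.OrdS.Rec

/-!
# The Lie lemma without the generation hypothesis

Let `B` be the subalgebra generated by `Φ`, `Z`, `X` (type `↥(Algebra.adjoin ..)`), `Z'`, `X'` the submodules of
`B` which are the preimages of `Z`, `X` under the inclusion (`Submodule.comap`), `Ψ = Φ^5 ∈ B`
(`Φ^6 = 1` since `(Φ - 1) ∑ Φ^j = 0`). Then `Sys ζ Φ Ψ Z' X'` holds on `B`: the Lie algebra `LC (Z' ⊔ X')` is mapped by the
inclusion into `S` (`LC_map`, `LC_le`), so it has trace zero; `B` is generated by `Φ`, `Z'`, `X'`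
(`Algebra.adjoin` inside a subalgebra). Apply `lieSix` to `B` and map the result to `A`: the image of `⊤` is `UU`, the image of
`X'` is `X`.
-/

set_option autoImplicit false

namespace Pool.Agent.OrdS

open Pool.Agent.LgP

/-- the subalgebra generated by `Φ`, `Z` and `X`, as a submodule -/
def UU (O : Type) {A : Type} [CommRing O] [Ring A] [Algebra O A] (Φ : A) (Z X : Submodule O A) :
    Submodule O A :=
  Subalgebra.toSubmodule (Algebra.adjoin O ({Φ} ∪ (Z : Set A) ∪ (X : Set A)))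

private theorem Words_sup {O A B : Type} [CommRing O] [Ring A] [Algebra O A] [Ring B]
    [Algebra O B] (f : B →ₐ[O] A) (Q : Submodule O A)
    (hQ : ∀ x ∈ Q, ∃ y : B, f y = x) :
    (Q.comap f.toLinearMap).map f.toLinearMap = Q := by
  apply le_antisymm (Submodule.map_comap_le _ _)
  intro x hx
  obtain ⟨y, rfl⟩ := hQ x hx
  exact ⟨y, hx, rfl⟩

/-- the Lie lemma without the hypothesis that `A` is generated by the letters -/
theorem lieSix_words : ∃ M : ℕ, 0 < M ∧ ∀ (O A : Type) [CommRing O] [Ring A] [Algebra O A] (ζ : O)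
    (Φ Ψ : A) (Z X S : Submodule O A), Prim O 6 ζ → Φ * Ψ = 1 → Ψ * Φ = 1 →
    ∑ j ∈ Finset.range 6, Φ ^ j = 0 → (∀ z ∈ Z, Φ * z * Ψ = -z) → (∀ x ∈ X, Φ * x * Ψ ∈ X) →
    (∀ x ∈ X, Φ * (Φ * x * Ψ) * Ψ - Φ * x * Ψ + x = 0) → IsLie S → Z ≤ S → X ≤ S →
    (∀ a ∈ S, ∑ j ∈ Finset.range 6, Φ ^ j * a * Ψ ^ j = 0) →
    (UU O Φ Z X * X * UU O Φ Z X) ^ M = ⊥ := by
  obtain ⟨M, hM, hlie⟩ := lieSix
  refine ⟨M, hM, ?_⟩
  intro O A _ _ _ ζ Φ Ψ Z X S hP hpq hqp hsum hz hx hx2 hS hZS hXS htr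
  obtain ⟨B, hB⟩ : ∃ B : Subalgebra O A,
      B = Algebra.adjoin O ({Φ} ∪ (Z : Set A) ∪ (X : Set A)) := ⟨_, rfl⟩
  have hΦB : Φ ∈ B := by
    rw [hB]
    exact Algebra.subset_adjoin (Or.inl (Or.inl rfl))
  have hZB : ∀ z ∈ Z, z ∈ B := by
    intro z hz
    rw [hB]
    exact Algebra.subset_adjoin (Or.inl (Or.inr hz))
  have hXB : ∀ x ∈ X, x ∈ B := by
    intro x hx
    rw [hB]
    exact Algebra.subset_adjoin (Or.inr hx)
  have h6 : Φ ^ 6 = 1 := by
    have h1 : (Φ - 1) * ∑ j ∈ Finset.range 6, Φ ^ j = Φ ^ 6 - 1 := mul_geom_sum Φ 6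
    rw [hsum, mul_zero] at h1
    exact (sub_eq_zero.mp h1.symm)
  have hΨ : Ψ = Φ ^ 5 := by
    have h1 : Φ ^ 5 * Φ = 1 := by rw [← pow_succ]; exact h6
    calc Ψ = (Φ ^ 5 * Φ) * Ψ := by rw [h1, one_mul]
      _ = Φ ^ 5 := by rw [mul_assoc, hpq, mul_one]
  have hΨB : Ψ ∈ B := by
    rw [hΨ]
    exact pow_mem hΦB 5
  set f : B →ₐ[O] A := B.val with hf
  have hfi : Function.Injective f := Subtype.val_injective
  set Z' : Submodule O B := Z.comap f.toLinearMap with hZ'
  set X' : Submodule O B := X.comap f.toLinearMap with hX'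
  have hZm : Z'.map f.toLinearMap = Z := Words_sup f Z fun x hx => ⟨⟨x, hZB x hx⟩, rfl⟩
  have hXm : X'.map f.toLinearMap = X := Words_sup f X fun x hx => ⟨⟨x, hXB x hx⟩, rfl⟩
  have hsys : Sys ζ (⟨Φ, hΦB⟩ : B) (⟨Ψ, hΨB⟩ : B) Z' X' := by
    refine ⟨hP, ?_, ?_, ?_, ?_, ?_, ?_, ?_, ?_⟩
    · exact Subtype.ext hpq
    · exact Subtype.ext hqp
    · apply hfi
      rw [map_sum, map_zero, ← hsum]
      exact Finset.sum_congr rfl fun j _ => by rw [map_pow]; rfl
    · intro z hz0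
      apply hfi
      rw [map_mul, map_mul, map_neg]
      exact hz (f z) hz0
    · intro x hx0
      show f.toLinearMap _ ∈ X
      have : f.toLinearMap ((⟨Φ, hΦB⟩ : B) * x * (⟨Ψ, hΨB⟩ : B)) = Φ * f x * Ψ := by
        rfl
      rw [this]
      exact hx (f x) hx0
    · intro x hx0
      apply hfi
      rw [map_add, map_sub, map_mul, map_mul, map_mul, map_mul, map_zero]
      exact hx2 (f x) hx0
    · intro a ha
      have h1 : f a ∈ S := by
        have h2 : f a ∈ (LC (Z' ⊔ X')).map f.toLinearMap := ⟨a, ha, rfl⟩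
        rw [LC_map, Submodule.map_sup, hZm, hXm] at h2
        exact LC_le hS (sup_le hZS hXS) h2
      apply hfi
      rw [map_zero, ← htr (f a) h1, map_sum]
      refine Finset.sum_congr rfl fun j _ => ?_
      rw [map_mul, map_mul, map_pow, map_pow]
      rfl
    · have h1 : Subalgebra.map f (Algebra.adjoin O ({(⟨Φ, hΦB⟩ : B)} ∪ (Z' : Set B) ∪
          (X' : Set B))) = Subalgebra.map f ⊤ := by
        rw [AlgHom.map_adjoin, Algebra.map_top]
        have h2 : f.range = B := Subalgebra.range_val B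
        have e1 : (⇑f '' (Z' : Set B)) = (Z : Set A) := by
          rw [← hZm]
          rfl
        have e2 : (⇑f '' (X' : Set B)) = (X : Set A) := by
          rw [← hXm]
          rfl
        have e0 : (⇑f '' ({(⟨Φ, hΦB⟩ : B)} ∪ (Z' : Set B) ∪ (X' : Set B))) =
            {Φ} ∪ (Z : Set A) ∪ (X : Set A) := by
          rw [Set.image_union, Set.image_union, Set.image_singleton, e1, e2]
          rfl
        rw [h2, e0]
        exact hB.symm
      exact Subalgebra.map_injective hfi h1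
  have h1 := hlie O B ζ _ _ Z' X' hsys
  have h2 : ((⊤ : Submodule O B)).map f.toLinearMap = UU O Φ Z X := by
    unfold UU
    rw [← hB]
    ext x
    constructor
    · rintro ⟨y, -, rfl⟩
      exact y.2
    · intro hx
      exact ⟨⟨x, hx⟩, trivial, rfl⟩
  have h3 := congrArg (Submodule.map f.toLinearMap) h1
  have e : ∀ (Q : Submodule O B) (k : ℕ), (Q ^ k).map f.toLinearMap =
      (Q.map f.toLinearMap) ^ k := fun Q k => Submodule.map_pow _ _ _
  rw [e, Submodule.map_mul, Submodule.map_mul, h2, hXm, Submodule.map_bot] at h3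
  exact h3

end Pool.Agent.OrdS
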