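import Pool.Agent.OrdS.GrF
import Pool.Agent.OrdS.Words

/-!
# The visibility principle (two weights)

`E` an `O`-algebra, `Φ Ψ = Ψ Φ = 1`, `ρ : G →* E`, `Φ ρ(g) Ψ = ρ (φ g)`, `N ≤ Y ≤ G` subgroups stable
under `φ`, `(aug O ρ)^K = 0`. `Wd w a b x`: `x` is a product in which `a` factors `ρ y - 1` (`y ∈ Y`), `b`
factors `ρ n - 1` (`n ∈ N`) and any number of factors `Φ`, `Ψ` occur. `Fl w t` is the span of the words with
`a + w b ≥ t`. Facts:
* `Fl` is multiplicative, decreasing, `1, Φ, Ψ ∈ Fl 0`, `ρ y - 1 ∈ Fl 1` (`y ∈ Y`), `ρ n - 1 ∈ Fl w` (`n ∈ N`).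
* a word with `a + b ≥ K` is `0` (`I = aug O ρ` satisfies `Φ I ≤ I Φ`, so a word lies in `I^(a+b) ⊤`).
* if `u ∈ ⁅N, Y⁆` then `ρ u - 1 ∈ Fl (w + 1)` (for generators
  `ρ (g h g⁻¹ h⁻¹) - 1 = ((ρ g - 1)(ρ h - 1) - (ρ h - 1)(ρ g - 1)) ρ (g⁻¹ h⁻¹)`; then products, inverses).
`vis`: let `M` be the number of `lieSix_words`, `w = K + 2`, and apply `grF_exists` to `F = Fl w`, the group `Y`
and the restriction of `ρ`. Letters in the graded algebra `A`: `Z = {cl 1 (ρ y - 1)}` span,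
`X =` span of the `cl w (ρ n - 1)`, `n ∈ N`. `Φ z Ψ = - z` because `φ y * y ∈ N` and
`(ρ (φ y) - 1) + (ρ y - 1) = (ρ (φ y * y) - 1) - (ρ (φ y) - 1)(ρ y - 1) ∈ Fl 2`; in the same way
`Φ² x Ψ² - Φ x Ψ + x = 0` because `φ(φ n) (φ n)⁻¹ n ∈ ⁅N, Y⁆`. By `lieSix_words` all products of letters
`Φ, Ψ = Φ^5, Z, X` with at least `M` letters `X` vanish in `A`. So a word with `b ≥ M` and `a + w b = t` lies in
`Fl (t+1)`. If `t ≥ M w` then all nonzero words with `a + w b ≥ t` have `a < K ≤ w`, so `b ≥ M`. Hence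
`Fl t ≤ Fl (t+1)` for all `t ≥ M w`, and `Fl t = 0` for large `t`; so `Fl (M w) = 0`, which contains the products
of `M` elements `ρ n - 1`.
-/

set_option autoImplicit false

open scoped commutatorElement

namespace Pool.Agent.OrdS

open Pool.Agent.LgP

/-- the span of the elements `ρ n - 1`, `n ∈ N` -/
def augS (O : Type) {E G : Type} [CommRing O] [Ring E] [Algebra O E] [Group G] (ρ : G →* E)
    (N : Subgroup G) : Submodule O E :=
  Submodule.span O {u | ∃ n ∈ N, u = ρ n - 1}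

section Words

variable {E G : Type} [Ring E] [Group G]

/-- words with `a` letters `ρ y - 1`, `b` letters `ρ n - 1` and any number of letters `Φ` -/
inductive FilWd (Φ : E) (ρ : G →* E) (Y N : Subgroup G) : ℕ → ℕ → E → Prop
  | one : FilWd Φ ρ Y N 0 0 1
  | phi {a b : ℕ} {x : E} : FilWd Φ ρ Y N a b x → FilWd Φ ρ Y N a b (Φ * x)
  | ylet {a b : ℕ} {x : E} (y : G) : y ∈ Y → FilWd Φ ρ Y N a b x →
      FilWd Φ ρ Y N (a + 1) b ((ρ y - 1) * x)
  | nlet {a b : ℕ} {x : E} (n : G) : n ∈ N → FilWd Φ ρ Y N a b x →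
      FilWd Φ ρ Y N a (b + 1) ((ρ n - 1) * x)

private theorem Fil_Wd_mul {Φ : E} {ρ : G →* E} {Y N : Subgroup G} {a b : ℕ} {x : E}
    (h : FilWd Φ ρ Y N a b x) {a' b' : ℕ} {x' : E} (h' : FilWd Φ ρ Y N a' b' x') :
    FilWd Φ ρ Y N (a + a') (b + b') (x * x') := by
  induction h with
  | one => rw [zero_add, zero_add, one_mul]; exact h'
  | phi _ ih => rw [mul_assoc]; exact ih.phi
  | ylet y hy _ ih =>
    rw [mul_assoc, Nat.add_right_comm]
    exact ih.ylet y hy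
  | nlet n hn _ ih =>
    rw [mul_assoc, Nat.add_right_comm _ 1 b']
    exact ih.nlet n hn

end Words

section Fl

variable {O E G : Type} [CommRing O] [Ring E] [Algebra O E] [Group G]

/-- the filtration by weighted word length -/
def FilF (O : Type) {E G : Type} [CommRing O] [Ring E] [Algebra O E] [Group G] (Φ : E)
    (ρ : G →* E) (Y N : Subgroup G) (w t : ℕ) : Submodule O E :=
  Submodule.span O {x | ∃ a b : ℕ, FilWd Φ ρ Y N a b x ∧ t ≤ a + w * b}

variable {Φ Ψ : E} {ρ : G →* E} {Y N : Subgroup G} {w : ℕ}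

private theorem Fil_mem {t a b : ℕ} {x : E} (h : FilWd Φ ρ Y N a b x) (ht : t ≤ a + w * b) :
    x ∈ FilF O Φ ρ Y N w t := Submodule.subset_span ⟨a, b, h, ht⟩

private theorem Fil_mul (i j : ℕ) :
    FilF O Φ ρ Y N w i * FilF O Φ ρ Y N w j ≤ FilF O Φ ρ Y N w (i + j) := by
  unfold FilF
  rw [Submodule.span_mul_span]
  apply Submodule.span_le.2
  rintro _ ⟨x, ⟨a, b, hx, hi⟩, y, ⟨a', b', hy, hj⟩, rfl⟩
  refine Submodule.subset_span ⟨a + a', b + b', Fil_Wd_mul hx hy, ?_⟩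
  rw [mul_add]
  omega

private theorem Fil_mul_mem {i j : ℕ} {x y : E} (hx : x ∈ FilF O Φ ρ Y N w i)
    (hy : y ∈ FilF O Φ ρ Y N w j) : x * y ∈ FilF O Φ ρ Y N w (i + j) :=
  Fil_mul i j (Submodule.mul_mem_mul hx hy)

private theorem Fil_anti {i j : ℕ} (h : i ≤ j) : FilF O Φ ρ Y N w j ≤ FilF O Φ ρ Y N w i := by
  apply Submodule.span_mono
  rintro x ⟨a, b, hx, hj⟩
  exact ⟨a, b, hx, h.trans hj⟩

private theorem Fil_one : (1 : E) ∈ FilF O Φ ρ Y N w 0 := Fil_mem FilWd.one (Nat.zero_le _)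

private theorem Fil_phi : Φ ∈ FilF O Φ ρ Y N w 0 := by
  have h : FilWd Φ ρ Y N 0 0 (Φ * 1) := FilWd.one.phi
  rw [mul_one] at h
  exact Fil_mem h (Nat.zero_le _)

private theorem Fil_phi_pow (j : ℕ) : Φ ^ j ∈ FilF O Φ ρ Y N w 0 := by
  induction j with
  | zero => rw [pow_zero]; exact Fil_one
  | succ j ih => rw [pow_succ]; exact Fil_mul_mem (i := 0) (j := 0) ih Fil_phi

private theorem Fil_y {y : G} (hy : y ∈ Y) : ρ y - 1 ∈ FilF O Φ ρ Y N w 1 := by
  have h : FilWd Φ ρ Y N (0 + 1) 0 ((ρ y - 1) * 1) := FilWd.one.ylet y hy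
  rw [mul_one] at h
  exact Fil_mem h (by omega)

private theorem Fil_n {n : G} (hn : n ∈ N) : ρ n - 1 ∈ FilF O Φ ρ Y N w w := by
  have h : FilWd Φ ρ Y N 0 (0 + 1) ((ρ n - 1) * 1) := FilWd.one.nlet n hn
  rw [mul_one] at h
  exact Fil_mem h (by omega)

private theorem Fil_y0 {y : G} (hy : y ∈ Y) : ρ y ∈ FilF O Φ ρ Y N w 0 := by
  have h := Submodule.add_mem _ (Fil_anti (Nat.zero_le 1) (Fil_y (O := O) (Φ := Φ) (ρ := ρ)
    (N := N) (w := w) hy)) Fil_one
  rwa [sub_add_cancel] at h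

private theorem Fil_comm (hNY : N ≤ Y) {u : G} (hu : u ∈ ⁅N, Y⁆) :
    u ∈ Y ∧ ρ u - 1 ∈ FilF O Φ ρ Y N w (w + 1) := by
  rw [Subgroup.commutator_def] at hu
  induction hu using Subgroup.closure_induction with
  | mem u hu =>
    obtain ⟨g, hg, h, hh, rfl⟩ := hu
    have hgY := hNY hg
    refine ⟨?_, ?_⟩
    · rw [commutatorElement_def]
      exact Y.mul_mem (Y.mul_mem (Y.mul_mem hgY hh) (Y.inv_mem hgY)) (Y.inv_mem hh)
    · have e : ρ ⁅g, h⁆ - 1 = ((ρ g - 1) * (ρ h - 1) - (ρ h - 1) * (ρ g - 1)) *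
          ρ (g⁻¹ * h⁻¹) := by
        have e1 : ρ h * ρ g * ρ (g⁻¹ * h⁻¹) = 1 := by
          rw [← map_mul, ← map_mul]
          have : h * g * (g⁻¹ * h⁻¹) = 1 := by group
          rw [this, map_one]
        have e2 : ρ g * ρ h * ρ (g⁻¹ * h⁻¹) = ρ ⁅g, h⁆ := by
          rw [← map_mul, ← map_mul, commutatorElement_def]
          congr 1
          group
        have e3 : (ρ g - 1) * (ρ h - 1) - (ρ h - 1) * (ρ g - 1) = ρ g * ρ h - ρ h * ρ g := by
          noncomm_ring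
        rw [e3, sub_mul, e1, e2]
      rw [e]
      have h1 := Fil_mul_mem (O := O) (Φ := Φ) (ρ := ρ) (Y := Y) (N := N) (w := w)
        (Fil_n hg) (Fil_y hh)
      have h2 := Fil_mul_mem (O := O) (Φ := Φ) (ρ := ρ) (Y := Y) (N := N) (w := w)
        (Fil_y hh) (Fil_n hg)
      rw [add_comm 1 w] at h2
      have h3 := Fil_mul_mem (i := w + 1) (j := 0) (Submodule.sub_mem _ h1 h2)
        (Fil_y0 (O := O) (Φ := Φ) (ρ := ρ) (N := N) (w := w)
          (Y.mul_mem (Y.inv_mem hgY) (Y.inv_mem hh)))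
      exact h3
  | one =>
    refine ⟨Y.one_mem, ?_⟩
    rw [map_one, sub_self]
    exact Submodule.zero_mem _
  | mul x y _ _ hx hy =>
    refine ⟨Y.mul_mem hx.1 hy.1, ?_⟩
    have e : ρ (x * y) - 1 = (ρ x - 1) * ρ y + (ρ y - 1) := by
      rw [map_mul]
      noncomm_ring
    rw [e]
    have h3 := Fil_mul_mem (i := w + 1) (j := 0) hx.2
      (Fil_y0 (O := O) (Φ := Φ) (ρ := ρ) (N := N) (w := w) hy.1)
    exact Submodule.add_mem _ h3 hy.2
  | inv x _ hx =>
    refine ⟨Y.inv_mem hx.1, ?_⟩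
    have e : ρ x⁻¹ - 1 = -((ρ x - 1) * ρ x⁻¹) := by
      have : ρ x * ρ x⁻¹ = 1 := by rw [← map_mul, mul_inv_cancel, map_one]
      rw [sub_mul, this, one_mul]
      abel
    rw [e]
    have h3 := Fil_mul_mem (i := w + 1) (j := 0) hx.2
      (Fil_y0 (O := O) (Φ := Φ) (ρ := ρ) (N := N) (w := w) (Y.inv_mem hx.1))
    exact Submodule.neg_mem _ h3

/-- `φ^6 = 1` -/
private theorem Fil_phi6 {φ : G →* G} (h : Split 6 φ) (g : G) : (⇑φ)^[6] g = g := by
  have h1 := h g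
  have h2 := h (φ g)
  have e : ∀ g : G, ((List.range 6).map fun j => (⇑φ)^[j] g).prod =
      g * (φ g * (φ (φ g) * (φ (φ (φ g)) * (φ (φ (φ (φ g))) * φ (φ (φ (φ (φ g)))))))) := by
    intro g
    have : List.range 6 = [0, 1, 2, 3, 4, 5] := rfl
    rw [this]
    simp [Function.iterate_succ_apply']
  rw [e] at h1 h2
  have h3 : g * (φ g * (φ (φ g) * (φ (φ (φ g)) * (φ (φ (φ (φ g))) * φ (φ (φ (φ (φ g)))))))) =
      φ g * (φ (φ g) * (φ (φ (φ g)) * (φ (φ (φ (φ g))) * (φ (φ (φ (φ (φ g)))) *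
        φ (φ (φ (φ (φ (φ g))))))))) := by rw [h1, h2]
  have h4 : (⇑φ)^[6] g = φ (φ (φ (φ (φ (φ g))))) := rfl
  rw [h4]
  generalize φ (φ (φ (φ (φ (φ g))))) = s at h3 h2 ⊢
  have h5 : φ g * (φ (φ g) * (φ (φ (φ g)) * (φ (φ (φ (φ g))) * φ (φ (φ (φ (φ g))))))) = g⁻¹ :=
    (inv_eq_of_mul_eq_one_right h1).symm
  have h6 : (φ g * (φ (φ g) * (φ (φ (φ g)) * (φ (φ (φ (φ g))) * φ (φ (φ (φ (φ g)))))))) * s =
      1 := by
    simp only [mul_assoc]
    exact h2
  rw [h5] at h6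
  exact (inv_mul_eq_one.1 h6).symm

private theorem Fil_N {φ : G →* G} (h : ∀ y ∈ Y, φ y * y ∈ N) (hNY : N ≤ Y) {n : G}
    (hn : n ∈ N) : φ n ∈ N := by
  have := N.mul_mem (h n (hNY hn)) (N.inv_mem hn)
  rwa [mul_inv_cancel_right] at this

/-- words with many letters vanish -/
private theorem Fil_word_zero (hpq : Φ * Ψ = 1) (hqp : Ψ * Φ = 1) {φ : G →* G}
    (hρ : ∀ g, Φ * ρ g * Ψ = ρ (φ g)) {K : ℕ} (hK : (aug O ρ) ^ K = ⊥) {a b : ℕ} {x : E}
    (h : FilWd Φ ρ Y N a b x) (hab : K ≤ a + b) : x = 0 := by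
  set I : Submodule O E := aug O ρ with hI
  have hmem : ∀ g : G, ρ g - 1 ∈ I := fun g => Submodule.subset_span ⟨g, rfl⟩
  -- conjugation
  let c : E →ₐ[O] E :=
    { toFun := fun u => Φ * u * Ψ
      map_one' := by rw [mul_one, hpq]
      map_mul' := by
        intro u v
        have : Φ * u * Ψ * (Φ * v * Ψ) = Φ * u * (Ψ * Φ) * v * Ψ := by simp only [mul_assoc]
        rw [this, hqp, mul_one]
        simp only [mul_assoc]
      map_zero' := by rw [mul_zero, zero_mul]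
      map_add' := by
        intro u v
        rw [mul_add, add_mul]
      commutes' := by
        intro r
        rw [← Algebra.commutes, mul_assoc, hpq, mul_one] }
  have hc : I.map c.toLinearMap ≤ I := by
    rw [hI, aug, Submodule.map_span, Submodule.span_le]
    rintro _ ⟨_, ⟨g, rfl⟩, rfl⟩
    have : c.toLinearMap (ρ g - 1) = ρ (φ g) - 1 := by
      change Φ * (ρ g - 1) * Ψ = _
      rw [mul_sub, sub_mul, hρ, mul_one, hpq]
    rw [this]
    exact Submodule.subset_span ⟨φ g, rfl⟩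
  have hck : ∀ k : ℕ, ∀ u ∈ I ^ k, Φ * u * Ψ ∈ I ^ k := by
    intro k u hu
    have h1 : (I ^ k).map c.toLinearMap ≤ I ^ k := by
      have e : (I ^ k).map c.toLinearMap = (I.map c.toLinearMap) ^ k := Submodule.map_pow _ _ _
      rw [e]
      exact pow_le_pow_left' hc k
    exact h1 ⟨u, hu, rfl⟩
  have key : x ∈ I ^ (a + b) * (⊤ : Submodule O E) := by
    clear hab
    induction h with
    | one =>
      rw [← mul_one (1 : E)]
      refine Submodule.mul_mem_mul ?_ Submodule.mem_top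
      rw [Nat.add_zero, pow_zero]
      exact Submodule.one_le.1 le_rfl
    | @phi a b x _ ih =>
      refine Submodule.mul_induction_on ih (fun u hu v _ => ?_) (fun u v hu hv => ?_)
      · have e : Φ * (u * v) = (Φ * u * Ψ) * (Φ * v) := by
          have : (Φ * u * Ψ) * (Φ * v) = Φ * u * (Ψ * Φ) * v := by simp only [mul_assoc]
          rw [this, hqp, mul_one, mul_assoc]
        rw [e]
        exact Submodule.mul_mem_mul (hck _ _ hu) Submodule.mem_top
      · rw [mul_add]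
        exact Submodule.add_mem _ hu hv
    | @ylet a b x y _ _ ih =>
      have e : a + 1 + b = (a + b) + 1 := by omega
      rw [e, pow_succ', mul_assoc]
      exact Submodule.mul_mem_mul (hmem y) ih
    | @nlet a b x n _ _ ih =>
      have e : a + (b + 1) = (a + b) + 1 := by omega
      rw [e, pow_succ', mul_assoc]
      exact Submodule.mul_mem_mul (hmem n) ih
  have h0 : I ^ (a + b) = ⊥ := by
    obtain ⟨d, hd⟩ := Nat.exists_eq_add_of_le hab
    rw [hd, pow_add, hK, Submodule.bot_mul]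
  rw [h0, Submodule.bot_mul, Submodule.mem_bot] at key
  exact key

end Fl

/-- products with `b` letters in `X` -/
private def FilQ {O A : Type} [CommRing O] [Ring A] [Algebra O A] (U X : Submodule O A) :
    ℕ → Submodule O A
  | 0 => U
  | b + 1 => U * X * FilQ U X b

private theorem FilQ_le {O A : Type} [CommRing O] [Ring A] [Algebra O A] {U X : Submodule O A}
    (h1 : (1 : A) ∈ U) (b : ℕ) : FilQ U X b ≤ (U * X * U) ^ b * U := by
  induction b with
  | zero => rw [pow_zero, one_mul]; exact le_rfl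
  | succ b ih =>
    have h2 : U * X * FilQ U X b ≤ U * X * ((U * X * U) ^ b * U) := mul_le_mul' le_rfl ih
    refine h2.trans ?_
    rw [pow_succ', ← mul_assoc]
    refine mul_le_mul' (mul_le_mul' ?_ le_rfl) le_rfl
    have h3 : U * X * 1 ≤ U * X * U := mul_le_mul' le_rfl (Submodule.one_le.2 h1)
    rwa [mul_one] at h3

private theorem FilQ_left {O A : Type} [CommRing O] [Ring A] [Algebra O A] {U X : Submodule O A}
    (hU : U * U ≤ U) {u x : A} (hu : u ∈ U) {b : ℕ} (hx : x ∈ FilQ U X b) :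
    u * x ∈ FilQ U X b := by
  cases b with
  | zero => exact hU (Submodule.mul_mem_mul hu hx)
  | succ b =>
    have h1 : U * (U * X * FilQ U X b) ≤ U * X * FilQ U X b := by
      rw [← mul_assoc, ← mul_assoc]
      exact mul_le_mul' (mul_le_mul' hU le_rfl) le_rfl
    exact h1 (Submodule.mul_mem_mul hu hx)

private theorem FilQ_succ {O A : Type} [CommRing O] [Ring A] [Algebra O A] {U X : Submodule O A}
    (h1 : (1 : A) ∈ U) {u x : A} (hu : u ∈ X) {b : ℕ} (hx : x ∈ FilQ U X b) :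
    u * x ∈ FilQ U X (b + 1) := by
  have h2 : u ∈ U * X := by
    have := Submodule.mul_mem_mul h1 hu
    rwa [one_mul] at this
  exact Submodule.mul_mem_mul h2 hx

theorem vis : ∃ M : ℕ, 0 < M ∧ ∀ (O E G : Type) [CommRing O] [Ring E] [Algebra O E] [Group G]
    (ζ : O) (Φ Ψ : E) (ρ : G →* E) (φ : G →* G), Prim O 6 ζ → Φ * Ψ = 1 → Ψ * Φ = 1 →
    ∑ j ∈ Finset.range 6, Φ ^ j = 0 → (∀ g, Φ * ρ g * Ψ = ρ (φ g)) → Split 6 φ →
    (∃ K : ℕ, (aug O ρ) ^ K = ⊥) → ∀ Y N : Subgroup G, N ≤ Y → (∀ y ∈ Y, φ y ∈ Y) →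
    (∀ y ∈ Y, φ y * y ∈ N) → (∀ n ∈ N, φ (φ n) * (φ n)⁻¹ * n ∈ ⁅N, Y⁆) →
    (augS O ρ N) ^ M = ⊥ := by
  obtain ⟨M, hM, hlie⟩ := lieSix_words
  refine ⟨M, hM, ?_⟩
  intro O E G _ _ _ _ ζ Φ Ψ ρ φ hP hpq hqp hsum hρ hφ hex Y N hNY hYφ hYN hNN
  obtain ⟨K, hK⟩ := hex
  obtain ⟨w', hw'⟩ : ∃ w', w' = K + 1 := ⟨_, rfl⟩
  obtain ⟨w, hw⟩ : ∃ w, w = w' + 1 := ⟨_, rfl⟩
  set F : ℕ → Submodule O E := FilF O Φ ρ Y N w with hF
  have h1 : (1 : E) ∈ F 0 := Fil_one
  have hmul : ∀ i j, F i * F j ≤ F (i + j) := Fil_mul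
  have hmm : ∀ {i j : ℕ} {x y : E}, x ∈ F i → y ∈ F j → x * y ∈ F (i + j) :=
    fun hx hy => Fil_mul_mem hx hy
  have hanti' : ∀ {i j : ℕ}, i ≤ j → F j ≤ F i := fun h => Fil_anti h
  have hanti : ∀ i, F (i + 1) ≤ F i := fun i => Fil_anti (Nat.le_succ i)
  have h6 : Φ ^ 6 = 1 := by
    have h2 : (Φ - 1) * ∑ j ∈ Finset.range 6, Φ ^ j = Φ ^ 6 - 1 := mul_geom_sum Φ 6
    rw [hsum, mul_zero] at h2
    exact sub_eq_zero.mp h2.symm
  have hΨ5 : Ψ = Φ ^ 5 := by
    have h2 : Φ ^ 5 * Φ = 1 := by rw [← pow_succ]; exact h6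
    calc Ψ = (Φ ^ 5 * Φ) * Ψ := by rw [h2, one_mul]
      _ = Φ ^ 5 := by rw [mul_assoc, hpq, mul_one]
  have hΦ : Φ ∈ F 0 := Fil_phi
  have hΨ : Ψ ∈ F 0 := by rw [hΨ5]; exact Fil_phi_pow 5
  have hY : ∀ y ∈ Y, ρ y - 1 ∈ F 1 := fun y hy => Fil_y hy
  have hN : ∀ n ∈ N, ρ n - 1 ∈ F w := fun n hn => Fil_n hn
  have hNφ : ∀ n ∈ N, φ n ∈ N := fun n hn => Fil_N hYN hNY hn
  -- the restriction to `Y`
  let φY : Y →* Y := (φ.comp Y.subtype).codRestrict Y fun y => hYφ y y.2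
  let ρY : Y →* E := ρ.comp Y.subtype
  have hsplit : Split 6 φY := by
    intro g
    apply Subtype.ext
    have h2 : ∀ j : ℕ, (((⇑φY)^[j] g : Y) : G) = (⇑φ)^[j] (g : G) := by
      intro j
      induction j with
      | zero => rfl
      | succ j ih =>
        rw [Function.iterate_succ_apply', Function.iterate_succ_apply', ← ih]
        rfl
    have h3 := hφ (g : G)
    have h4 : ((((List.range 6).map fun j => (⇑φY)^[j] g).prod : Y) : G) =
        ((List.range 6).map fun j => (⇑φ)^[j] (g : G)).prod := by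
      have := map_list_prod Y.subtype ((List.range 6).map fun j => (⇑φY)^[j] g)
      rw [List.map_map] at this
      rw [show ((((List.range 6).map fun j => (⇑φY)^[j] g).prod : Y) : G) =
        Y.subtype ((List.range 6).map fun j => (⇑φY)^[j] g).prod from rfl, this]
      refine congrArg List.prod (List.map_congr_left fun j _ => ?_)
      exact h2 j
    rw [h4, h3]
    rfl
  obtain ⟨A, _, _, cl, S, hcl0, hclm, hcl1, hS, hSm, hStr⟩ := grF_exists (X := Y) 6 F h1 hmul hanti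
    Φ Ψ hΦ hΨ hpq hqp φY ρY (fun x => hY x x.2) (fun x => hρ x) hsplit
  -- congruence of classes
  have hcle : ∀ (k : ℕ) (u v : E) (hu : u ∈ F k) (hv : v ∈ F k), u - v ∈ F (k + 1) →
      cl k ⟨u, hu⟩ = cl k ⟨v, hv⟩ := by
    intro k u v hu hv huv
    rw [← sub_eq_zero, ← map_sub]
    exact (hcl0 k _).2 huv
  have hclm' : ∀ (k l t : ℕ) (u v : E) (hu : u ∈ F k) (hv : v ∈ F l) (x : E) (hx : x ∈ F t),
      k + l = t → x = u * v → cl t ⟨x, hx⟩ = cl k ⟨u, hu⟩ * cl l ⟨v, hv⟩ := by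
    intro k l t u v hu hv x hx ht hxe
    subst ht
    exact (hclm k l ⟨u, hu⟩ ⟨v, hv⟩ ⟨x, hx⟩ hxe).symm
  set Φ' : A := cl 0 ⟨Φ, hΦ⟩ with hΦ'
  set Ψ' : A := cl 0 ⟨Ψ, hΨ⟩ with hΨ'
  have hpq' : Φ' * Ψ' = 1 := by
    rw [← hcl1]
    exact (hclm' 0 0 0 _ _ hΦ hΨ _ h1 rfl hpq.symm).symm
  have hqp' : Ψ' * Φ' = 1 := by
    rw [← hcl1]
    exact (hclm' 0 0 0 _ _ hΨ hΦ _ h1 rfl hqp.symm).symm
  have hpow : ∀ j : ℕ, ∀ h : Φ ^ j ∈ F 0, cl 0 ⟨Φ ^ j, h⟩ = Φ' ^ j := by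
    intro j
    induction j with
    | zero =>
      intro h
      have h2 := hcle 0 (Φ ^ 0) 1 h h1 (by rw [pow_zero, sub_self]; exact Submodule.zero_mem _)
      rw [h2, hcl1, pow_zero]
    | succ j ih =>
      intro h
      rw [pow_succ Φ' j, ← ih (Fil_phi_pow j)]
      exact hclm' 0 0 0 _ _ (Fil_phi_pow j) hΦ _ h rfl (pow_succ Φ j)
  have hsum' : ∑ j ∈ Finset.range 6, Φ' ^ j = 0 := by
    have h2 : ∑ j ∈ Finset.range 6, Φ' ^ j =
        cl 0 (∑ j ∈ Finset.range 6, ⟨Φ ^ j, Fil_phi_pow j⟩) := by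
      rw [map_sum]
      exact Finset.sum_congr rfl fun j _ => (hpow j _).symm
    rw [h2, hcl0]
    have h3 : ((∑ j ∈ Finset.range 6, (⟨Φ ^ j, Fil_phi_pow j⟩ : F 0) : F 0) : E) =
        ∑ j ∈ Finset.range 6, Φ ^ j := by
      rw [Submodule.coe_sum]
    rw [h3, hsum]
    exact Submodule.zero_mem _
  -- conjugation of classes
  have hconj : ∀ (k : ℕ) (g : G) (hg : ρ g - 1 ∈ F k) (hg' : ρ (φ g) - 1 ∈ F k),
      Φ' * cl k ⟨ρ g - 1, hg⟩ * Ψ' = cl k ⟨ρ (φ g) - 1, hg'⟩ := by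
    intro k g hg hg'
    have ha : Φ * (ρ g - 1) ∈ F k := by
      have := hmm hΦ hg
      rwa [zero_add] at this
    rw [← hclm' 0 k k Φ (ρ g - 1) hΦ hg (Φ * (ρ g - 1)) ha (zero_add k) rfl]
    refine (hclm' k 0 k _ Ψ ha hΨ _ hg' (add_zero k) ?_).symm
    rw [mul_sub, sub_mul, hρ, mul_one, hpq]
  let Z : Submodule O A := Submodule.span O {z | ∃ (y : G) (hy : y ∈ Y), z = cl 1 ⟨ρ y - 1, hY y hy⟩}
  let X : Submodule O A := Submodule.span O {z | ∃ (n : G) (hn : n ∈ N), z = cl w ⟨ρ n - 1, hN n hn⟩}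
  have hZS : Z ≤ S := by
    apply Submodule.span_le.2
    rintro _ ⟨y, hy, rfl⟩
    exact hSm 0 ⟨y, hy⟩ (hY y hy)
  have hXS : X ≤ S := by
    apply Submodule.span_le.2
    rintro _ ⟨n, hn, rfl⟩
    have h2 : ρ n - 1 ∈ F (w' + 1) := by
      have := hN n hn
      rwa [hw] at this
    have h3 := hSm w' ⟨n, hNY hn⟩ h2
    have h4 : cl w ⟨ρ n - 1, hN n hn⟩ = cl (w' + 1) ⟨ρ n - 1, h2⟩ := by
      clear h3
      revert h2
      rw [← hw]
      intro h2
      rfl
    rw [h4]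
    exact h3
  have hz : ∀ z ∈ Z, Φ' * z * Ψ' = -z := by
    intro z hz
    induction hz using Submodule.span_induction with
    | mem z hz =>
      obtain ⟨y, hy, rfl⟩ := hz
      rw [hconj 1 y (hY y hy) (hY _ (hYφ y hy)), ← sub_eq_zero, sub_neg_eq_add, ← map_add]
      refine (hcl0 1 _).2 ?_
      change (ρ (φ y) - 1) + (ρ y - 1) ∈ F (1 + 1)
      have e : (ρ (φ y) - 1) + (ρ y - 1) = (ρ (φ y * y) - 1) - (ρ (φ y) - 1) * (ρ y - 1) := by
        rw [map_mul]
        noncomm_ring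
      rw [e]
      refine Submodule.sub_mem _ ?_ (hmm (hY _ (hYφ y hy)) (hY y hy))
      exact hanti' (by omega) (hN _ (hYN y hy))
    | zero => rw [mul_zero, zero_mul, neg_zero]
    | add a b _ _ ha hb => rw [mul_add, add_mul, ha, hb, neg_add]
    | smul r a _ ha => rw [mul_smul_comm, smul_mul_assoc, ha, smul_neg]
  have hx : ∀ x ∈ X, Φ' * x * Ψ' ∈ X := by
    intro x hx
    induction hx using Submodule.span_induction with
    | mem x hx =>
      obtain ⟨n, hn, rfl⟩ := hx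
      rw [hconj w n (hN n hn) (hN _ (hNφ n hn))]
      exact Submodule.subset_span ⟨φ n, hNφ n hn, rfl⟩
    | zero => rw [mul_zero, zero_mul]; exact Submodule.zero_mem _
    | add a b _ _ ha hb => rw [mul_add, add_mul]; exact Submodule.add_mem _ ha hb
    | smul r a _ ha => rw [mul_smul_comm, smul_mul_assoc]; exact Submodule.smul_mem _ _ ha
  have hx2 : ∀ x ∈ X, Φ' * (Φ' * x * Ψ') * Ψ' - Φ' * x * Ψ' + x = 0 := by
    intro x hx
    induction hx using Submodule.span_induction with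
    | mem x hx =>
      obtain ⟨n, hn, rfl⟩ := hx
      rw [hconj w n (hN n hn) (hN _ (hNφ n hn)), hconj w _ (hN _ (hNφ n hn))
        (hN _ (hNφ _ (hNφ n hn))), ← map_sub, ← map_add]
      refine (hcl0 w _).2 ?_
      change (ρ (φ (φ n)) - 1) - (ρ (φ n) - 1) + (ρ n - 1) ∈ F (w + 1)
      have hu := (Fil_comm (O := O) (Φ := Φ) (ρ := ρ) (w := w) hNY (hNN n hn)).2
      set a := φ (φ n) with ha
      set b := φ n with hb
      have haN : a ∈ N := hNφ _ (hNφ n hn)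
      have hbN : b ∈ N := hNφ n hn
      have e : (ρ a - 1) - (ρ b - 1) + (ρ n - 1) = (ρ (a * b⁻¹ * n) - 1) -
          ((ρ a - 1) * (ρ b⁻¹ - 1) + (ρ (a * b⁻¹) - 1) * (ρ n - 1) - (ρ b - 1) * (ρ b⁻¹ - 1)) := by
        have e1 : ρ b * ρ b⁻¹ = 1 := by rw [← map_mul, mul_inv_cancel, map_one]
        have e2 : (ρ b - 1) * (ρ b⁻¹ - 1) = (1 - ρ b⁻¹) - (ρ b - 1) := by
          rw [sub_mul, mul_sub, e1]
          noncomm_ring
        rw [e2, map_mul, map_mul]
        noncomm_ring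
      rw [e]
      have hww : ∀ {x y : G}, x ∈ N → y ∈ N → (ρ x - 1) * (ρ y - 1) ∈ F (w + 1) := by
        intro x y hx hy
        exact hanti' (by omega) (hmm (hN x hx) (hN y hy))
      refine Submodule.sub_mem _ hu (Submodule.sub_mem _ (Submodule.add_mem _ ?_ ?_) ?_)
      · exact hww haN (N.inv_mem hbN)
      · exact hww (N.mul_mem haN (N.inv_mem hbN)) hn
      · exact hww hbN (N.inv_mem hbN)
    | zero => simp
    | add a b _ _ ha hb =>
      have e : Φ' * (Φ' * (a + b) * Ψ') * Ψ' - Φ' * (a + b) * Ψ' + (a + b) =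
          (Φ' * (Φ' * a * Ψ') * Ψ' - Φ' * a * Ψ' + a) +
          (Φ' * (Φ' * b * Ψ') * Ψ' - Φ' * b * Ψ' + b) := by noncomm_ring
      rw [e, ha, hb, add_zero]
    | smul r a _ ha =>
      have e : Φ' * (Φ' * (r • a) * Ψ') * Ψ' - Φ' * (r • a) * Ψ' + (r • a) =
          r • (Φ' * (Φ' * a * Ψ') * Ψ' - Φ' * a * Ψ' + a) := by
        simp only [mul_smul_comm, smul_mul_assoc, smul_sub, smul_add]
      rw [e, ha, smul_zero]
  have hnil := hlie O A ζ Φ' Ψ' Z X S hP hpq' hqp' hsum' hz hx hx2 hS hZS hXS hStr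
  set U : Submodule O A := UU O Φ' Z X with hU
  have hU1 : (1 : A) ∈ U := by
    rw [hU]
    exact Subalgebra.one_mem (Algebra.adjoin O ({Φ'} ∪ (Z : Set A) ∪ (X : Set A)))
  have hUU : U * U ≤ U := by
    rw [hU, Submodule.mul_le]
    intro a ha b hb
    exact Subalgebra.mul_mem (Algebra.adjoin O ({Φ'} ∪ (Z : Set A) ∪ (X : Set A))) ha hb
  have hUΦ : Φ' ∈ U := by
    rw [hU]
    exact (Algebra.subset_adjoin (Or.inl (Or.inl rfl)) :
      Φ' ∈ Algebra.adjoin O ({Φ'} ∪ (Z : Set A) ∪ (X : Set A)))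
  have hUZ : ∀ z ∈ Z, z ∈ U := by
    intro z hz
    rw [hU]
    exact (Algebra.subset_adjoin (Or.inl (Or.inr hz)) :
      z ∈ Algebra.adjoin O ({Φ'} ∪ (Z : Set A) ∪ (X : Set A)))
  -- classes of words
  have hword : ∀ (a b : ℕ) (x : E), FilWd Φ ρ Y N a b x → ∀ (t : ℕ) (hx : x ∈ F t),
      t = a + w * b → cl t ⟨x, hx⟩ ∈ FilQ U X b := by
    intro a b x h
    induction h with
    | one =>
      intro t hx ht
      have ht0 : t = 0 := by omega
      subst ht0
      have h2 : cl 0 ⟨1, hx⟩ = 1 := hcl1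
      rw [h2]
      exact hU1
    | @phi a b x hw1 ih =>
      intro t hx ht
      have hx0 : x ∈ F t := by rw [ht]; exact Fil_mem hw1 le_rfl
      rw [hclm' 0 t t Φ x hΦ hx0 _ hx (zero_add t) rfl]
      exact FilQ_left hUU hUΦ (ih t hx0 ht)
    | @ylet a b x y hy hw1 ih =>
      intro t hx ht
      have hx0 : x ∈ F (a + w * b) := Fil_mem hw1 le_rfl
      rw [hclm' 1 (a + w * b) t (ρ y - 1) x (hY y hy) hx0 _ hx (by omega) rfl]
      refine FilQ_left hUU (hUZ _ ?_) (ih _ hx0 rfl)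
      exact Submodule.subset_span ⟨y, hy, rfl⟩
    | @nlet a b x n hn hw1 ih =>
      intro t hx ht
      have hx0 : x ∈ F (a + w * b) := Fil_mem hw1 le_rfl
      have e : w + (a + w * b) = t := by rw [ht, mul_add]; omega
      rw [hclm' w (a + w * b) t (ρ n - 1) x (hN n hn) hx0 _ hx e rfl]
      refine FilQ_succ hU1 ?_ (ih _ hx0 rfl)
      exact Submodule.subset_span ⟨n, hn, rfl⟩
  have hQ0 : ∀ b, M ≤ b → FilQ U X b = ⊥ := by
    intro b hb
    have h2 := FilQ_le (X := X) hU1 b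
    obtain ⟨d, hd⟩ := Nat.exists_eq_add_of_le hb
    have h3 : (U * X * U) ^ b = ⊥ := by
      rw [hd, pow_add, hnil, Submodule.bot_mul]
    rw [h3, Submodule.bot_mul] at h2
    exact le_bot_iff.1 h2
  -- `Fl t ≤ Fl (t + 1)` for `t ≥ M w`
  have hstep : ∀ t, M * w ≤ t → F t ≤ F (t + 1) := by
    intro t ht
    apply Submodule.span_le.2
    rintro x ⟨a, b, hx, hab⟩
    rcases Nat.lt_or_ge t (a + w * b) with h | h
    · exact Fil_mem hx h
    · have hte : t = a + w * b := le_antisymm hab h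
      rcases Nat.lt_or_ge a K with haK | haK
      · have hb : M ≤ b := by
          by_contra hb
          push Not at hb
          have h2 : w * (b + 1) ≤ w * M := Nat.mul_le_mul_left w hb
          rw [mul_comm M w] at ht
          rw [mul_add] at h2
          omega
        have hxt : x ∈ F t := Submodule.subset_span ⟨a, b, hx, hab⟩
        have h2 := hword a b x hx t hxt hte
        rw [hQ0 b hb, Submodule.mem_bot] at h2
        exact (hcl0 t ⟨x, hxt⟩).1 h2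
      · have h2 : x = 0 := Fil_word_zero hpq hqp hρ hK hx (by omega)
        rw [h2]
        exact Submodule.zero_mem _
  have hall : ∀ d : ℕ, F (M * w) ≤ F (M * w + d) := by
    intro d
    induction d with
    | zero => exact le_rfl
    | succ d ih => exact ih.trans (hstep _ (by omega))
  have hzero : F (M * w + w * K) = ⊥ := by
    rw [← le_bot_iff]
    apply Submodule.span_le.2
    rintro x ⟨a, b, hx, hab⟩
    have hKab : K ≤ a + b := by
      by_contra hlt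
      push Not at hlt
      have h2 : w * (a + b) ≤ w * K := Nat.mul_le_mul_left w hlt.le
      have h3 : a ≤ w * a := Nat.le_mul_of_pos_left a (by omega)
      have h4 : 0 < M * w := Nat.mul_pos hM (by omega)
      rw [mul_add] at h2
      omega
    have h2 : x = 0 := Fil_word_zero hpq hqp hρ hK hx hKab
    rw [h2]
    exact Submodule.zero_mem _
  have hFM : F (M * w) = ⊥ := by
    rw [← le_bot_iff, ← hzero]
    exact hall _
  have haug : augS O ρ N ≤ F w := by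
    apply Submodule.span_le.2
    rintro _ ⟨n, hn, rfl⟩
    exact hN n hn
  have hpowF : ∀ m : ℕ, (F w) ^ m ≤ F (m * w) := by
    intro m
    induction m with
    | zero =>
      rw [pow_zero, zero_mul, Submodule.one_le]
      exact h1
    | succ m ih =>
      rw [pow_succ, add_mul, one_mul]
      exact (mul_le_mul' ih le_rfl).trans (hmul _ _)
  rw [← le_bot_iff, ← hFM]
  exact (pow_le_pow_left' haug M).trans (hpowF M)

end Pool.Agent.OrdS
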