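import Pool.Agent.OrdS.GrF

/-!
# Order 3

`F t =` span of all products with at least `t` factors `ρ g - 1` and any number of factors `Φ`, `Ψ`; in the graded algebra let `S` be as in
`grF_exists`; with `e_i` the eigenprojections of `Φ` (`e_0 = 0`), `S = S_1 + S_2`, and the product of two elements of
`S` is zero: `s t e_i` with `s, t` homogeneous: degrees `(1,1)`: `t e_1 = e_2 t`, `s e_2 = e_0 s = 0`,
`t e_2 = e_0 t = 0`; degrees `(1,2)`: `s t = t s`, and `t e_1 = e_0 t = 0`, `s e_2 = 0`, so `s t e_2 = t s e_2 = 0`. So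
`Fl 2 ≤ Fl 3`, in fact `Fl t ≤ Fl (t+1)` for `t ≥ 2`, so `Fl 2 = 0`.
-/

set_option linter.all false

namespace Pool.Agent.OrdS

open Pool.Agent.LgP

section vis3aux

variable {O E G : Type} [CommRing O] [Ring E] [Algebra O E] [Group G]

theorem Fil3mr {M N P : Submodule O E} (h : N ≤ P) : M * N ≤ M * P :=
  Submodule.mul_le.mpr fun _ hm _ hn => Submodule.mul_mem_mul hm (h hn)

theorem Fil3ml {M N P : Submodule O E} (h : N ≤ P) : N * M ≤ P * M :=
  Submodule.mul_le.mpr fun _ hm _ hn => Submodule.mul_mem_mul (h hm) hn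

/-- the subalgebra generated by `Φ` and the `ρ g`, as a submodule -/
def Fil3W (O : Type) {E G : Type} [CommRing O] [Ring E] [Algebra O E] [Group G] (Φ : E)
    (ρ : G →* E) : Submodule O E :=
  Subalgebra.toSubmodule (Algebra.adjoin O ({Φ} ∪ Set.range fun g => ρ g))

theorem Fil3W_one (Φ : E) (ρ : G →* E) : (1 : E) ∈ Fil3W O Φ ρ :=
  Subalgebra.one_mem (Algebra.adjoin O ({Φ} ∪ Set.range fun g => ρ g))

theorem Fil3W_phi (Φ : E) (ρ : G →* E) : Φ ∈ Fil3W O Φ ρ :=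
  Algebra.subset_adjoin (Or.inl rfl)

theorem Fil3W_mul {Φ : E} {ρ : G →* E} {a b : E} (ha : a ∈ Fil3W O Φ ρ) (hb : b ∈ Fil3W O Φ ρ) :
    a * b ∈ Fil3W O Φ ρ :=
  Subalgebra.mul_mem (Algebra.adjoin O ({Φ} ∪ Set.range fun g => ρ g)) ha hb

theorem Fil3W_WW (Φ : E) (ρ : G →* E) : Fil3W O Φ ρ * Fil3W O Φ ρ ≤ Fil3W O Φ ρ := by
  rw [Submodule.mul_le]
  intro a ha b hb
  exact Fil3W_mul ha hb

theorem Fil3W_IW (Φ : E) (ρ : G →* E) : aug O ρ ≤ Fil3W O Φ ρ := by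
  unfold aug
  rw [Submodule.span_le]
  rintro _ ⟨g, rfl⟩
  exact Subalgebra.sub_mem (Algebra.adjoin O ({Φ} ∪ Set.range fun g => ρ g))
    (Algebra.subset_adjoin (Or.inr ⟨g, rfl⟩)) (Subalgebra.one_mem _)

theorem Fil3W_le (Φ : E) (ρ : G →* E) (P : Submodule O E) : P ≤ P * Fil3W O Φ ρ := by
  intro u hu
  have := Submodule.mul_mem_mul hu (Fil3W_one (O := O) Φ ρ)
  rwa [mul_one] at this

theorem Fil3W_WI (Φ Ψ : E) (ρ : G →* E) (φ : G →* G) (h2 : Ψ * Φ = 1)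
    (h4 : ∀ g, Φ * ρ g * Ψ = ρ (φ g)) :
    Fil3W O Φ ρ * aug O ρ ≤ aug O ρ * Fil3W O Φ ρ := by
  rw [Submodule.mul_le]
  intro w hw
  change w ∈ Algebra.adjoin O ({Φ} ∪ Set.range fun g => ρ g) at hw
  induction hw using Algebra.adjoin_induction with
  | mem x hx =>
    intro u hu
    unfold aug at hu
    induction hu using Submodule.span_induction with
    | mem u hu =>
      obtain ⟨g, rfl⟩ := hu
      rcases hx with hx | ⟨h, rfl⟩
      · rw [Set.mem_singleton_iff] at hx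
        subst hx
        have e : x * (ρ g - 1) = (ρ (φ g) - 1) * x := by
          rw [← h4 g, mul_sub, sub_mul, mul_assoc (x * ρ g), h2, mul_one, mul_one, one_mul]
        show x * (ρ g - 1) ∈ _
        rw [e]
        exact Submodule.mul_mem_mul (Submodule.subset_span ⟨φ g, rfl⟩) (Fil3W_phi x ρ)
      · apply Fil3W_le
        have e : ρ h * (ρ g - 1) = (ρ (h * g) - 1) - (ρ h - 1) := by
          rw [map_mul, mul_sub, mul_one]
          abel
        show ρ h * (ρ g - 1) ∈ _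
        rw [e]
        exact Submodule.sub_mem _ (Submodule.subset_span ⟨h * g, rfl⟩)
          (Submodule.subset_span ⟨h, rfl⟩)
    | zero => rw [mul_zero]; exact Submodule.zero_mem _
    | add a b _ _ ha hb => rw [mul_add]; exact Submodule.add_mem _ ha hb
    | smul r a _ ha => rw [mul_smul_comm]; exact Submodule.smul_mem _ r ha
  | algebraMap r =>
    intro u hu
    rw [← Algebra.smul_def]
    exact Submodule.smul_mem _ r (Fil3W_le Φ ρ _ hu)
  | add x y _ _ hx hy =>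
    intro u hu
    rw [add_mul]
    exact Submodule.add_mem _ (hx u hu) (hy u hu)
  | mul x y hx' hy' hx hy =>
    intro u hu
    rw [mul_assoc]
    have h5 := hy u hu
    have h6 : ∀ v ∈ aug O ρ * Fil3W O Φ ρ, x * v ∈ aug O ρ * Fil3W O Φ ρ := by
      intro v hv
      induction hv using Submodule.mul_induction_on' with
      | mem_mul_mem a ha b hb =>
        rw [← mul_assoc]
        have h7 := hx a ha
        have h8 := Submodule.mul_mem_mul h7 hb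
        rw [mul_assoc (aug O ρ)] at h8
        exact Fil3mr (Fil3W_WW Φ ρ) h8
      | add a _ b _ ha hb => rw [mul_add]; exact Submodule.add_mem _ ha hb
    exact h6 _ h5

theorem Fil3W_WIj (Φ Ψ : E) (ρ : G →* E) (φ : G →* G) (h2 : Ψ * Φ = 1)
    (h4 : ∀ g, Φ * ρ g * Ψ = ρ (φ g)) (j : ℕ) :
    Fil3W O Φ ρ * aug O ρ ^ j ≤ aug O ρ ^ j * Fil3W O Φ ρ := by
  induction j with
  | zero => rw [pow_zero, mul_one, one_mul]
  | succ j ih =>
    calc Fil3W O Φ ρ * aug O ρ ^ (j + 1) = (Fil3W O Φ ρ * aug O ρ ^ j) * aug O ρ := by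
          rw [pow_succ, mul_assoc]
      _ ≤ (aug O ρ ^ j * Fil3W O Φ ρ) * aug O ρ := Fil3ml ih
      _ = aug O ρ ^ j * (Fil3W O Φ ρ * aug O ρ) := by rw [mul_assoc]
      _ ≤ aug O ρ ^ j * (aug O ρ * Fil3W O Φ ρ) := Fil3mr (Fil3W_WI Φ Ψ ρ φ h2 h4)
      _ = aug O ρ ^ (j + 1) * Fil3W O Φ ρ := by rw [pow_succ, mul_assoc]

/-- the algebraic core: two letters of an algebra with an automorphism of order three -/
theorem Fil3W_core {A : Type} [Ring A] [Algebra O A] {ζ : O} (hP : Prim O 3 ζ) {P Q : A}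
    (hPQ : P * Q = 1) (hQP : Q * P = 1) (hsum : ∑ j ∈ Finset.range 3, P ^ j = 0)
    (S : Submodule O A) (hS : IsLie S)
    (htr : ∀ a ∈ S, ∑ j ∈ Finset.range 3, P ^ j * a * Q ^ j = 0)
    {s s' t t' : A} (hs : s ∈ S) (hs' : s' ∈ S) (ht : t ∈ S) (ht' : t' ∈ S)
    (es : P * s * Q = s') (et : P * t * Q = t') : s * t = 0 := by
  have z1 : 1 + ζ + ζ ^ 2 = 0 := by
    have h := hP.sum 1 (by norm_num)
    simp only [Finset.sum_range_succ, Finset.sum_range_zero] at h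
    linear_combination h
  have z3 : ζ ^ 3 = 1 := hP.pow
  obtain ⟨r, hr⟩ : ∃ r : O, r * 3 = 1 := by
    have h := hP.unit
    obtain ⟨r, hr⟩ := h.exists_left_inv
    exact ⟨r, by simpa using hr⟩
  -- the inverse of `ζ - ζ^2`
  set q : O := -r * (ζ - ζ ^ 2) with hq
  have hq1 : q * (ζ - ζ ^ 2) = 1 := by
    rw [hq]
    linear_combination hr - r * z1 + (2 * r - r * ζ) * z3
  have hcan : ∀ a : A, (ζ - ζ ^ 2) • a = 0 → a = 0 := by
    intro a ha
    have : q • (ζ - ζ ^ 2) • a = 0 := by rw [ha, smul_zero]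
    rwa [smul_smul, hq1, one_smul] at this
  have hP1 : 1 + P + P * P = 0 := by
    have := hsum
    simp only [Finset.sum_range_succ, Finset.sum_range_zero, pow_two] at this
    simpa using this
  have z3' : ∀ x : A, (ζ ^ 3) • x = x := by
    intro x
    rw [z3, one_smul]
  have hL : ∀ a : A, a + P * a + P * (P * a) = 0 := by
    intro a
    have : a + P * a + P * (P * a) = (1 + P + P * P) * a := by noncomm_ring
    rw [this, hP1, zero_mul]
  have hR : ∀ a : A, a + a * P + a * P * P = 0 := by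
    intro a
    have : a + a * P + a * P * P = a * (1 + P + P * P) := by noncomm_ring
    rw [this, hP1, mul_zero]
  have d1 : ∀ a : A, P * a * Q = ζ • a → a * P = ζ • a ∧ P * a = ζ ^ 2 • a := by
    intro a ha
    have e1 : P * a = ζ • (a * P) := by
      have : P * a = P * a * Q * P := by rw [mul_assoc (P * a), hQP, mul_one]
      rw [this, ha, smul_mul_assoc]
    have e4 : P * (P * a) = ζ ^ 2 • (a * P * P) := by
      rw [e1, mul_smul_comm, ← mul_assoc, e1, smul_mul_assoc, smul_smul]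
      ring_nf
    have e2 := hL a
    rw [e4, e1] at e2
    have e3 := hR a
    have e5 : (ζ - ζ ^ 2) • (a * P - ζ • a) = 0 := by
      calc (ζ - ζ ^ 2) • (a * P - ζ • a) = (a + ζ • (a * P) + ζ ^ 2 • (a * P * P)) -
            ζ ^ 2 • (a + a * P + a * P * P) + (ζ ^ 3 • a - a) := by module
        _ = 0 := by rw [e2, e3, z3', sub_self, smul_zero, sub_zero, add_zero]
    have e6 := sub_eq_zero.mp (hcan _ e5)
    refine ⟨e6, ?_⟩
    rw [e1, e6, smul_smul, pow_two]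
  have d2 : ∀ b : A, P * b * Q = ζ ^ 2 • b → b * P = ζ ^ 2 • b ∧ P * b = ζ • b := by
    intro b hb
    have e1 : P * b = ζ ^ 2 • (b * P) := by
      have : P * b = P * b * Q * P := by rw [mul_assoc (P * b), hQP, mul_one]
      rw [this, hb, smul_mul_assoc]
    have e4 : P * (P * b) = ζ • (b * P * P) := by
      rw [e1, mul_smul_comm, ← mul_assoc, e1, smul_mul_assoc, smul_smul]
      have : ζ ^ 2 * ζ ^ 2 = ζ := by
        have : ζ ^ 2 * ζ ^ 2 = ζ ^ 3 * ζ := by ring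
        rw [this, z3, one_mul]
      rw [this]
    have e2 := hL b
    rw [e4, e1] at e2
    have e3 := hR b
    have e5 : (ζ - ζ ^ 2) • (b * P - ζ ^ 2 • b) = 0 := by
      calc (ζ - ζ ^ 2) • (b * P - ζ ^ 2 • b) = -(b + ζ ^ 2 • (b * P) + ζ • (b * P * P)) +
            ζ • (b + b * P + b * P * P) + (b - ζ ^ 3 • b) - (ζ • b - ζ ^ 3 • (ζ • b)) := by module
        _ = 0 := by rw [e2, e3, z3', z3', sub_self, sub_self, smul_zero]; simp
    have e6 := sub_eq_zero.mp (hcan _ e5)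
    refine ⟨e6, ?_⟩
    rw [e1, e6, smul_smul]
    have : ζ ^ 2 * ζ ^ 2 = ζ := by
      have : ζ ^ 2 * ζ ^ 2 = ζ ^ 3 * ζ := by ring
      rw [this, z3, one_mul]
    rw [this]
  -- products of two elements of the same degree
  have p11 : ∀ a a' : A, P * a * Q = ζ • a → P * a' * Q = ζ • a' → a * a' = 0 := by
    intro a a' ha ha'
    apply hcan
    have e1 : a * P * a' = ζ • (a * a') := by rw [(d1 a ha).1, smul_mul_assoc]
    have e2 : a * P * a' = ζ ^ 2 • (a * a') := by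
      rw [mul_assoc, (d1 a' ha').2, mul_smul_comm]
    rw [sub_smul, ← e1, ← e2, sub_self]
  have p22 : ∀ b b' : A, P * b * Q = ζ ^ 2 • b → P * b' * Q = ζ ^ 2 • b' → b * b' = 0 := by
    intro b b' hb hb'
    apply hcan
    have e1 : b * P * b' = ζ ^ 2 • (b * b') := by rw [(d2 b hb).1, smul_mul_assoc]
    have e2 : b * P * b' = ζ • (b * b') := by
      rw [mul_assoc, (d2 b' hb').2, mul_smul_comm]
    rw [sub_smul, ← e1, ← e2, sub_self]
  have p12 : ∀ a ∈ S, ∀ b ∈ S, P * a * Q = ζ • a → P * b * Q = ζ ^ 2 • b →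
      a * b = 0 ∧ b * a = 0 := by
    intro a haS b hbS ha hb
    have hc := htr _ (hS a haS b hbS)
    have hconj : ∀ u v : A, P * (u * v) * Q = (P * u * Q) * (P * v * Q) := by
      intro u v
      calc P * (u * v) * Q = P * u * 1 * v * Q := by rw [mul_one]; simp only [mul_assoc]
        _ = P * u * (Q * P) * v * Q := by rw [hQP]
        _ = (P * u * Q) * (P * v * Q) := by simp only [mul_assoc]
    have e1 : P * (a * b - b * a) * Q = a * b - b * a := by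
      rw [mul_sub, sub_mul, hconj, hconj, ha, hb, smul_mul_smul_comm, smul_mul_smul_comm]
      have : ζ * ζ ^ 2 = 1 := by rw [← z3]; ring
      rw [this]
      have : ζ ^ 2 * ζ = 1 := by rw [← z3]; ring
      rw [this, one_smul, one_smul]
    have e2 : ∑ j ∈ Finset.range 3, P ^ j * (a * b - b * a) * Q ^ j =
        (3 : O) • (a * b - b * a) := by
      have e3 : P ^ 2 * (a * b - b * a) * Q ^ 2 = a * b - b * a := by
        have : P ^ 2 * (a * b - b * a) * Q ^ 2 = P * (P * (a * b - b * a) * Q) * Q := by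
          rw [pow_two, pow_two]; simp only [mul_assoc]
        rw [this, e1, e1]
      simp only [Finset.sum_range_succ, Finset.sum_range_zero]
      rw [e3, pow_one, pow_one, e1, pow_zero, pow_zero, one_mul, mul_one]
      module
    rw [e2] at hc
    have hc2 : a * b - b * a = 0 := by
      have : r • (3 : O) • (a * b - b * a) = 0 := by rw [hc, smul_zero]
      rwa [smul_smul, hr, one_smul] at this
    have hab := sub_eq_zero.mp hc2
    have e5 : P * (a * b) = ζ ^ 2 • (a * b) := by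
      rw [← mul_assoc, (d1 a ha).2, smul_mul_assoc]
    have e6 : P * (a * b) = ζ • (a * b) := by
      rw [hab, ← mul_assoc, (d2 b hb).2, smul_mul_assoc]
    have e7 : a * b = 0 := by
      apply hcan
      rw [sub_smul, ← e5, ← e6, sub_self]
    exact ⟨e7, by rw [← hab]; exact e7⟩
  -- homogeneous components
  have hT : ∀ u u' : A, u ∈ S → P * u * Q = u' → P * u' * Q = -u - u' := by
    intro u u' hu eu
    have h := htr u hu
    simp only [Finset.sum_range_succ, Finset.sum_range_zero, pow_zero, pow_one, one_mul, mul_one,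
      zero_add] at h
    have e : P ^ 2 * u * Q ^ 2 = P * u' * Q := by
      rw [← eu, pow_two, pow_two]
      simp only [mul_assoc]
    rw [eu, e] at h
    have : P * u' * Q = (u + u' + P * u' * Q) - u - u' := by abel
    rw [this, h, zero_sub]
  have c1 : ∀ u u' : A, u ∈ S → P * u * Q = u' →
      P * (u' - ζ ^ 2 • u) * Q = ζ • (u' - ζ ^ 2 • u) := by
    intro u u' hu eu
    have e1 := hT u u' hu eu
    have e2 : P * (u' - ζ ^ 2 • u) * Q = P * u' * Q - ζ ^ 2 • (P * u * Q) := by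
      rw [mul_sub, sub_mul, mul_smul_comm, smul_mul_assoc]
    rw [e2, e1, eu]
    have : -u - u' - ζ ^ 2 • u' = ζ • (u' - ζ ^ 2 • u) - (1 + ζ + ζ ^ 2) • u' +
      (ζ ^ 3 • u - u) := by module
    rw [this, z1, z3', zero_smul, sub_self, sub_zero, add_zero]
  have c2 : ∀ u u' : A, u ∈ S → P * u * Q = u' →
      P * (u' - ζ • u) * Q = ζ ^ 2 • (u' - ζ • u) := by
    intro u u' hu eu
    have e1 := hT u u' hu eu
    have e2 : P * (u' - ζ • u) * Q = P * u' * Q - ζ • (P * u * Q) := by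
      rw [mul_sub, sub_mul, mul_smul_comm, smul_mul_assoc]
    rw [e2, e1, eu]
    have : -u - u' - ζ • u' = ζ ^ 2 • (u' - ζ • u) - (1 + ζ + ζ ^ 2) • u' +
      (ζ ^ 3 • u - u) := by module
    rw [this, z1, z3', zero_smul, sub_self, sub_zero, add_zero]
  have m1 : ∀ u u' : A, u ∈ S → u' ∈ S → ∀ x : O, u' - x • u ∈ S := by
    intro u u' hu hu' x
    exact S.sub_mem hu' (S.smul_mem x hu)
  apply hcan
  apply hcan
  have e : (ζ - ζ ^ 2) • (ζ - ζ ^ 2) • (s * t) =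
      ((s' - ζ ^ 2 • s) - (s' - ζ • s)) * ((t' - ζ ^ 2 • t) - (t' - ζ • t)) := by
    have e1 : (s' - ζ ^ 2 • s) - (s' - ζ • s) = (ζ - ζ ^ 2) • s := by module
    have e2 : (t' - ζ ^ 2 • t) - (t' - ζ • t) = (ζ - ζ ^ 2) • t := by module
    rw [e1, e2, smul_mul_smul_comm, smul_smul]
  have e0 : ∀ a b c d : A, (a - b) * (c - d) = a * c - a * d - (b * c - b * d) := by
    intro a b c d
    noncomm_ring
  rw [e, e0, p11 _ _ (c1 s s' hs es) (c1 t t' ht et),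
    p22 _ _ (c2 s s' hs es) (c2 t t' ht et),
    (p12 _ (m1 s s' hs hs' _) _ (m1 t t' ht ht' _) (c1 s s' hs es) (c2 t t' ht et)).1,
    (p12 _ (m1 t t' ht ht' _) _ (m1 s s' hs hs' _) (c1 t t' ht et) (c2 s s' hs es)).2]
  simp

end vis3aux

theorem vis3 (O E G : Type) [CommRing O] [Ring E] [Algebra O E] [Group G] (ζ : O) (Φ Ψ : E)
    (ρ : G →* E) (φ : G →* G) (hP : Prim O 3 ζ) (h1 : Φ * Ψ = 1) (h2 : Ψ * Φ = 1)
    (h3 : ∑ j ∈ Finset.range 3, Φ ^ j = 0) (h4 : ∀ g, Φ * ρ g * Ψ = ρ (φ g)) (h5 : Split 3 φ)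
    (h6 : ∃ K : ℕ, (aug O ρ) ^ K = ⊥) : (aug O ρ) ^ 2 = ⊥ := by
  set I := aug O ρ with hI
  set W := Fil3W O Φ ρ with hW
  have hWW : W * W ≤ W := Fil3W_WW Φ ρ
  have hmul : ∀ i j : ℕ, (I ^ i * W) * (I ^ j * W) ≤ I ^ (i + j) * W := by
    intro i j
    calc (I ^ i * W) * (I ^ j * W) = I ^ i * (W * I ^ j) * W := by simp only [mul_assoc]
      _ ≤ I ^ i * (I ^ j * W) * W :=
          Fil3ml (Fil3mr (Fil3W_WIj Φ Ψ ρ φ h2 h4 j))
      _ = I ^ (i + j) * (W * W) := by rw [pow_add]; simp only [mul_assoc]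
      _ ≤ I ^ (i + j) * W := Fil3mr hWW
  have hanti : ∀ i : ℕ, I ^ (i + 1) * W ≤ I ^ i * W := by
    intro i
    calc I ^ (i + 1) * W = I ^ i * (I * W) := by rw [pow_succ, mul_assoc]
      _ ≤ I ^ i * (W * W) := Fil3mr (Fil3ml (Fil3W_IW Φ ρ))
      _ ≤ I ^ i * W := Fil3mr hWW
  have hW0 : ∀ w ∈ W, w ∈ I ^ 0 * W := by
    intro w hw
    rw [pow_zero, one_mul]
    exact hw
  have hΦ3 : Φ ^ 3 = 1 := by
    have h7 : (Φ - 1) * ∑ j ∈ Finset.range 3, Φ ^ j = Φ ^ 3 - 1 := mul_geom_sum Φ 3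
    rw [h3, mul_zero] at h7
    exact sub_eq_zero.mp h7.symm
  have hΨΦ : Ψ = Φ * Φ := by
    have h7 : Φ * Φ * Φ = 1 := by rw [← hΦ3]; noncomm_ring
    calc Ψ = (Φ * Φ * Φ) * Ψ := by rw [h7, one_mul]
      _ = Φ * Φ := by rw [mul_assoc, h1, mul_one]
  have hρ1 : ∀ x, ρ x - 1 ∈ I ^ 1 * W := by
    intro x
    apply Fil3W_le
    rw [pow_one]
    exact Submodule.subset_span ⟨x, rfl⟩
  obtain ⟨A, _, _, cl, S, c1, c2, c3, c4, c5, c6⟩ := grF_exists 3 (fun t => I ^ t * W)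
    (hW0 1 (Fil3W_one Φ ρ)) hmul hanti Φ Ψ (hW0 Φ (Fil3W_phi Φ ρ))
    (hW0 Ψ (by rw [hΨΦ]; exact Fil3W_mul (Fil3W_phi Φ ρ) (Fil3W_phi Φ ρ))) h1 h2 φ ρ hρ1 h4 h5
  have hΦ0 : Φ ∈ I ^ 0 * W := hW0 Φ (Fil3W_phi Φ ρ)
  have hΨ0 : Ψ ∈ I ^ 0 * W := hW0 Ψ (by rw [hΨΦ]; exact Fil3W_mul (Fil3W_phi Φ ρ) (Fil3W_phi Φ ρ))
  have h10 : (1 : E) ∈ I ^ 0 * W := hW0 1 (Fil3W_one Φ ρ)
  set P : A := cl 0 ⟨Φ, hΦ0⟩ with hPdef
  set Q : A := cl 0 ⟨Ψ, hΨ0⟩ with hQdef
  have hPQ : P * Q = 1 := by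
    rw [hPdef, hQdef, c2 0 0 ⟨Φ, hΦ0⟩ ⟨Ψ, hΨ0⟩ ⟨1, h10⟩ h1.symm]
    exact c3
  have hQP : Q * P = 1 := by
    rw [hPdef, hQdef, c2 0 0 ⟨Ψ, hΨ0⟩ ⟨Φ, hΦ0⟩ ⟨1, h10⟩ h2.symm]
    exact c3
  have hPP : P * P = Q := by
    rw [hPdef, hQdef, c2 0 0 ⟨Φ, hΦ0⟩ ⟨Φ, hΦ0⟩ ⟨Ψ, hΨ0⟩ hΨΦ]
  have hsum : ∑ j ∈ Finset.range 3, P ^ j = 0 := by
    have e1 : ∑ j ∈ Finset.range 3, P ^ j = 1 + P + Q := by
      rw [← hPP]
      simp only [Finset.sum_range_succ, Finset.sum_range_zero]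
      rw [pow_zero, pow_one, pow_two, zero_add]
    have e3 : (1 : E) + Φ + Ψ = 0 := by
      rw [hΨΦ, ← h3]
      simp only [Finset.sum_range_succ, Finset.sum_range_zero]
      rw [pow_zero, pow_one, pow_two, zero_add]
    have e2 : (1 : A) + P + Q = cl 0 (⟨1, h10⟩ + ⟨Φ, hΦ0⟩ + ⟨Ψ, hΨ0⟩) := by
      rw [map_add, map_add]
      rw [← c3]
    have e4 : ((⟨1, h10⟩ + ⟨Φ, hΦ0⟩ + ⟨Ψ, hΨ0⟩ : ↥(I ^ 0 * W))) = 0 := Subtype.ext e3
    rw [e1, e2, e4, map_zero]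
  have hconj : ∀ x : G, P * cl 1 ⟨ρ x - 1, hρ1 x⟩ * Q = cl 1 ⟨ρ (φ x) - 1, hρ1 (φ x)⟩ := by
    intro x
    have m0 : Φ * (ρ x - 1) ∈ I ^ (0 + 1) * W := hmul 0 1 (Submodule.mul_mem_mul hΦ0 (hρ1 x))
    have e1 := c2 0 1 ⟨Φ, hΦ0⟩ ⟨ρ x - 1, hρ1 x⟩ ⟨Φ * (ρ x - 1), m0⟩ rfl
    have e2 := c2 (0 + 1) 0 ⟨Φ * (ρ x - 1), m0⟩ ⟨Ψ, hΨ0⟩ ⟨ρ (φ x) - 1, hρ1 (φ x)⟩ (by
      show ρ (φ x) - 1 = Φ * (ρ x - 1) * Ψ
      rw [mul_sub, sub_mul, h4, mul_one, h1])
    rw [hPdef, hQdef, e1]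
    exact e2
  have hmem : ∀ x : G, cl 1 ⟨ρ x - 1, hρ1 x⟩ ∈ S := fun x => c5 0 x (hρ1 x)
  have key : ∀ g h : G, (ρ g - 1) * (ρ h - 1) ∈ I ^ 3 * W := by
    intro g h
    have e1 := Fil3W_core hP hPQ hQP hsum S c4 c6 (hmem g) (hmem (φ g)) (hmem h) (hmem (φ h))
      (hconj g) (hconj h)
    have m0 : (ρ g - 1) * (ρ h - 1) ∈ I ^ (1 + 1) * W :=
      hmul 1 1 (Submodule.mul_mem_mul (hρ1 g) (hρ1 h))
    have e2 := c2 1 1 ⟨ρ g - 1, hρ1 g⟩ ⟨ρ h - 1, hρ1 h⟩ ⟨(ρ g - 1) * (ρ h - 1), m0⟩ rfl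
    rw [e1] at e2
    exact (c1 (1 + 1) ⟨(ρ g - 1) * (ρ h - 1), m0⟩).mp e2.symm
  have hII : I ^ 2 ≤ I ^ 3 * W := by
    rw [pow_two]
    rw [hI]
    unfold aug
    rw [Submodule.span_mul_span, Submodule.span_le]
    rintro _ ⟨_, ⟨g, rfl⟩, _, ⟨h, rfl⟩, rfl⟩
    exact key g h
  have hstep : ∀ t : ℕ, I ^ 2 ≤ I ^ (t + 2) * W := by
    intro t
    induction t with
    | zero => exact Fil3W_le Φ ρ _
    | succ t ih =>
      calc I ^ 2 ≤ I ^ (t + 2) * W := ih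
        _ = I ^ t * I ^ 2 * W := by rw [pow_add]
        _ ≤ I ^ t * (I ^ 3 * W) * W := Fil3ml (Fil3mr hII)
        _ = I ^ (t + 1 + 2) * (W * W) := by
            rw [show t + 1 + 2 = t + 3 by ring, pow_add]; simp only [mul_assoc]
        _ ≤ I ^ (t + 1 + 2) * W := Fil3mr hWW
  obtain ⟨K, hK⟩ := h6
  have h7 := hstep K
  rw [pow_add, hK, Submodule.bot_mul, Submodule.bot_mul] at h7
  exact le_bot_iff.mp h7

end Pool.Agent.OrdS
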