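import Pool.Agent.LgP.Gen

/-!
# The subgroups `Y` and `N`

`G` finite of order prime to 6, `φ^6 = 1`, `Split 6 φ` (`g φ(g) ⋯ φ^5(g) = 1`).
`Y =` subgroup generated by all `g⁻¹ φ³(g)`, `N =` subgroup generated by all `y⁻¹ φ²(y)`, `y ∈ Y`.
(1) `Y` is normal: `h⁻¹ (g⁻¹ φ³(g)) h = ((g h)⁻¹ φ³(g h)) (h⁻¹ φ³(h))⁻¹`. `φ(Y) ≤ Y`.
(2) in the same way `N ≤ Y` is normalised by `Y`, and `φ(N) ≤ N`.
(3) `φ(y) y ∈ N` for `y ∈ Y`: in `Q = Y / N` the induced `φ` satisfies `φ² = 1`, so the splitting identity says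
`(y φ(y))^3 = 1`; the order of `Q` is prime to 3, so `y φ(y) = 1`.
(4) `φ²(n) φ(n)⁻¹ n ∈ ⁅N, Y⁆` for `n ∈ N`: work in `R = Y / ⁅N, Y⁆`. The image of `N` is central and `R / N` is
abelian (inversion `φ` is a homomorphism on it). For `a, b ∈ R`, `φ(a) = a⁻¹ c`, `φ(b) = b⁻¹ d` with `c, d` central, so
`φ ⁅a, b⁆ = ⁅a⁻¹, b⁻¹⁆ = ⁅a, b⁆` (class two). So `⁅a, b⁆^6 = 1` by the splitting identity, `⁅a, b⁆ = 1`: `R` is
abelian. For the generators `s = g⁻¹ φ³(g)` of `Y`, `φ³(s) = s⁻¹`, so `φ³(a) = a⁻¹` on `R`. For the generators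
`q = y⁻¹ φ²(y)` of `N`, `q φ²(q) φ⁴(q) = 1` (telescoping), so this holds for all `n` in the image of `N`
(`R` is abelian). As `φ⁴(n) = φ (φ³(n)) = φ(n)⁻¹`, `n φ²(n) φ(n)⁻¹ = 1` in `R`.
(5) `g φ(g) φ²(g) ∈ Y`: in `G / Y`, `φ³ = 1`, `(g φ(g) φ²(g))^2 = 1`, and the order is odd.
-/

set_option autoImplicit false

open scoped commutatorElement

namespace Pool.Agent.OrdS

open Pool.Agent.LgP

/-- the splitting identity, written out -/
private def Grp_S {G : Type} [Group G] (φ : G →* G) : Prop :=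
  ∀ g : G, g * φ g * φ (φ g) * φ (φ (φ g)) * φ (φ (φ (φ g))) * φ (φ (φ (φ (φ g)))) = 1

private theorem Grp_split {G : Type} [Group G] {φ : G →* G} (h : Split 6 φ) : Grp_S φ := by
  intro g
  have h1 := h g
  simpa [List.range_succ, mul_assoc] using h1

private theorem Grp_pow {Q : Type} [Group Q] {k : ℕ} (hk : Nat.Coprime k (Nat.card Q)) {x : Q}
    (hx : x ^ k = 1) : x = 1 := by
  have h1 : orderOf x ∣ k := orderOf_dvd_of_pow_eq_one hx
  have h2 : orderOf x ∣ Nat.card Q := orderOf_dvd_natCard x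
  exact orderOf_eq_one_iff.1 (Nat.eq_one_of_dvd_coprimes hk h1 h2)

/-- an involution satisfying the splitting identity is inversion -/
private theorem Grp_two {Q : Type} [Group Q] (hk : Nat.Coprime 3 (Nat.card Q)) (ψ : Q →* Q)
    (h2 : ∀ q, ψ (ψ q) = q) (hS : Grp_S ψ) (q : Q) : ψ q * q = 1 := by
  have h1 := hS q
  simp only [h2] at h1
  have h3 : (q * ψ q) ^ 3 = 1 := by
    rw [← h1]
    simp only [pow_succ, pow_zero, one_mul, mul_assoc]
  have h4 := Grp_pow hk h3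
  rw [mul_eq_one_iff_inv_eq] at h4
  rw [← h4, inv_mul_cancel]

private theorem Grp_three {Q : Type} [Group Q] (hk : Nat.Coprime 2 (Nat.card Q)) (ψ : Q →* Q)
    (h3 : ∀ q, ψ (ψ (ψ q)) = q) (hS : Grp_S ψ) (q : Q) : q * ψ q * ψ (ψ q) = 1 := by
  have h1 := hS q
  simp only [h3] at h1
  have h4 : (q * ψ q * ψ (ψ q)) ^ 2 = 1 := by
    rw [← h1]
    simp only [pow_succ, pow_zero, one_mul, mul_assoc]
  exact Grp_pow hk h4

/-- the relation on a central subgroup with abelian quotient inverted by `ψ` -/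
private theorem Grp_central {R : Type} [Group R] (hk : Nat.Coprime 6 (Nat.card R)) (ψ : R →* R)
    (hS : Grp_S ψ) (M : Subgroup R) (hM : ∀ m ∈ M, ∀ a : R, m * a = a * m)
    (hb : ∀ a : R, ψ a * a ∈ M)
    (hc : Subgroup.closure {s : R | ψ (ψ (ψ s)) = s⁻¹} = ⊤)
    (T : Set R) (hMT : M = Subgroup.closure T)
    (hd : ∀ q ∈ T, q * ψ (ψ q) * ψ (ψ (ψ (ψ q))) = 1) :
    ∀ m ∈ M, ψ (ψ m) * (ψ m)⁻¹ * m = 1 := by
  -- commutators lie in `M`
  have h1 : ∀ a b : R, ⁅a, b⁆ ∈ M := by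
    have h2 : ∀ a b : R, ⁅a⁻¹, b⁻¹⁆ ∈ M := by
      intro a b
      have ha := hb a
      have hb' := hb b
      have hab := hb (a * b)
      have e1 : ψ a * a * a⁻¹ = ψ a := by group
      have e2 : ψ b * b * b⁻¹ = ψ b := by group
      have hcb := hM _ hb' a⁻¹
      -- `ψ (a b) = (ψ a a) (ψ b b) a⁻¹ b⁻¹`
      have e3 : ψ (a * b) = (ψ a * a) * (ψ b * b) * (a⁻¹ * b⁻¹) := by
        calc ψ (a * b) = (ψ a * a) * (a⁻¹ * (ψ b * b)) * b⁻¹ := by rw [map_mul]; group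
          _ = (ψ a * a) * ((ψ b * b) * a⁻¹) * b⁻¹ := by rw [hcb]
          _ = _ := by group
      have e4 : ⁅a⁻¹, b⁻¹⁆ = ((ψ a * a) * (ψ b * b))⁻¹ * (ψ (a * b) * (a * b)) := by
        rw [e3, commutatorElement_def]
        group
      rw [e4]
      exact M.mul_mem (M.inv_mem (M.mul_mem ha hb')) hab
    intro a b
    have h3 := h2 a⁻¹ b⁻¹
    rwa [inv_inv, inv_inv] at h3
  -- commutators are fixed by `ψ`
  have hz : ∀ c d a b : R, c ∈ M → d ∈ M → ⁅c * a, d * b⁆ = ⁅a, b⁆ := by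
    intro c d a b hc' hd'
    rw [commutatorElement_def, commutatorElement_def]
    have e1 := hM c hc'
    have e2 := hM d hd'
    calc c * a * (d * b) * (c * a)⁻¹ * (d * b)⁻¹
        = c * (a * d) * b * a⁻¹ * c⁻¹ * b⁻¹ * d⁻¹ := by group
      _ = c * (d * a) * b * a⁻¹ * c⁻¹ * b⁻¹ * d⁻¹ := by rw [e2 a]
      _ = c * d * (a * b * a⁻¹ * c⁻¹ * b⁻¹) * d⁻¹ := by group
      _ = c * (a * b * a⁻¹ * c⁻¹ * b⁻¹ * d) * d⁻¹ := by
          rw [mul_assoc c d, e2 (a * b * a⁻¹ * c⁻¹ * b⁻¹)]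
      _ = c * (a * b * a⁻¹) * c⁻¹ * b⁻¹ := by group
      _ = (a * b * a⁻¹) * c * c⁻¹ * b⁻¹ := by rw [e1 (a * b * a⁻¹)]
      _ = a * b * a⁻¹ * b⁻¹ := by group
  have hfix : ∀ a b : R, ψ ⁅a, b⁆ = ⁅a⁻¹, b⁻¹⁆ := by
    intro a b
    rw [map_commutatorElement]
    have e1 : ψ a = ψ a * a * a⁻¹ := by group
    have e2 : ψ b = ψ b * b * b⁻¹ := by group
    rw [e1, e2]
    exact hz _ _ _ _ (hb a) (hb b)
  have hinv : ∀ a b : R, ⁅a⁻¹, b⁻¹⁆ = ⁅a, b⁆ := by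
    intro a b
    have e1 := hM _ (h1 a⁻¹ b⁻¹)
    -- `⁅a⁻¹, b⁻¹⁆ = a⁻¹ b⁻¹ a b`; conjugate by `b a`
    have e2 : (b * a) * ⁅a⁻¹, b⁻¹⁆ * (b * a)⁻¹ = ⁅a, b⁆ := by
      rw [commutatorElement_def, commutatorElement_def]
      group
    rw [← e2, ← e1 (b * a)]
    group
  have hab : ∀ a b : R, ⁅a, b⁆ = 1 := by
    intro a b
    have e1 : ψ ⁅a, b⁆ = ⁅a, b⁆ := (hfix a b).trans (hinv a b)
    have e2 := hS ⁅a, b⁆
    simp only [e1] at e2
    apply Grp_pow hk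
    rw [← e2]
    simp only [pow_succ, pow_zero, one_mul]
  have hcomm : ∀ a b : R, a * b = b * a := fun a b => commutatorElement_eq_one_iff_mul_comm.1 (hab a b)
  -- `ψ³` is inversion
  have h3 : ∀ a : R, ψ (ψ (ψ a)) = a⁻¹ := by
    intro a
    have ha : a ∈ Subgroup.closure {s : R | ψ (ψ (ψ s)) = s⁻¹} := by
      rw [hc]
      exact Subgroup.mem_top a
    induction ha using Subgroup.closure_induction with
    | mem x hx => exact hx
    | one => simp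
    | mul x y _ _ hx hy =>
      simp only [map_mul, hx, hy, mul_inv_rev]
      exact hcomm _ _
    | inv x _ hx =>
      simp only [map_inv, hx]
  -- `m ψ²(m) ψ⁴(m) = 1`
  have h4 : ∀ m ∈ M, m * ψ (ψ m) * ψ (ψ (ψ (ψ m))) = 1 := by
    intro m hm
    rw [hMT] at hm
    induction hm using Subgroup.closure_induction with
    | mem x hx => exact hd x hx
    | one => simp
    | mul x y _ _ hx hy =>
      simp only [map_mul]
      have e1 : x * y * (ψ (ψ x) * ψ (ψ y)) * (ψ (ψ (ψ (ψ x))) * ψ (ψ (ψ (ψ y)))) =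
          (x * ψ (ψ x) * ψ (ψ (ψ (ψ x)))) * (y * ψ (ψ y) * ψ (ψ (ψ (ψ y)))) := by
        have : ∀ p q r p' q' r' : R, p * p' * (q * q') * (r * r') = (p * q * r) * (p' * q' * r') := by
          intro p q r p' q' r'
          simp only [mul_assoc]
          congr 1
          rw [hcomm p' (q * _)]
          simp only [mul_assoc]
          congr 1
          rw [← mul_assoc q' r, hcomm q' r]
          simp only [mul_assoc]
          congr 1
          rw [← mul_assoc q', ← mul_assoc p', hcomm (q' * r') p']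
          simp only [mul_assoc]
        exact this _ _ _ _ _ _
      rw [e1, hx, hy, one_mul]
    | inv x _ hx =>
      simp only [map_inv]
      rw [hcomm x⁻¹ (ψ (ψ x))⁻¹, ← mul_inv_rev, hcomm _ (ψ (ψ (ψ (ψ x))))⁻¹, ← mul_inv_rev, hx,
        inv_one]
  intro m hm
  have e1 := h4 m hm
  rw [h3 (ψ m)] at e1
  rw [hcomm (ψ (ψ m)) _, mul_assoc, hcomm (ψ (ψ m)) m, hcomm _ (m * ψ (ψ m))]
  exact e1

private theorem Grp_closure_conj {G : Type} [Group G] (X : Set G)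
    (hX : ∀ x ∈ X, ∀ g : G, g * x * g⁻¹ ∈ Subgroup.closure X) :
    ∀ x ∈ Subgroup.closure X, ∀ g : G, g * x * g⁻¹ ∈ Subgroup.closure X := by
  intro x hx g
  induction hx using Subgroup.closure_induction with
  | mem x hx => exact hX x hx g
  | one => simp
  | mul x y _ _ h1 h2 =>
    have h3 := Subgroup.mul_mem _ h1 h2
    have h4 : g * x * g⁻¹ * (g * y * g⁻¹) = g * (x * y) * g⁻¹ := by group
    rwa [h4] at h3
  | inv x _ h1 =>
    have h3 := Subgroup.inv_mem _ h1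
    have h4 : (g * x * g⁻¹)⁻¹ = g * x⁻¹ * g⁻¹ := by group
    rwa [h4] at h3

/-- the subgroup generated by all `g⁻¹ θ(g)` is normal -/
private theorem Grp_normal {G : Type} [Group G] (θ : G →* G) :
    (Subgroup.closure (Set.range fun g : G => g⁻¹ * θ g)).Normal := by
  refine ⟨Grp_closure_conj _ ?_⟩
  rintro _ ⟨g, rfl⟩ h
  have e : h * (g⁻¹ * θ g) * h⁻¹ =
      ((g * h⁻¹)⁻¹ * θ (g * h⁻¹)) * (h⁻¹⁻¹ * θ h⁻¹)⁻¹ := by
    simp only [map_mul, map_inv]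
    group
  change h * (g⁻¹ * θ g) * h⁻¹ ∈ _
  rw [e]
  exact Subgroup.mul_mem _ (Subgroup.subset_closure ⟨_, rfl⟩)
    (Subgroup.inv_mem _ (Subgroup.subset_closure ⟨_, rfl⟩))

private theorem Grp_stable {G : Type} [Group G] (θ φ : G →* G) (hc : ∀ g, φ (θ g) = θ (φ g)) :
    ∀ y ∈ Subgroup.closure (Set.range fun g : G => g⁻¹ * θ g),
      φ y ∈ Subgroup.closure (Set.range fun g : G => g⁻¹ * θ g) := by
  intro y hy
  induction hy using Subgroup.closure_induction with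
  | mem x hx =>
    obtain ⟨g, rfl⟩ := hx
    refine Subgroup.subset_closure ⟨φ g, ?_⟩
    simp only [map_mul, map_inv, hc]
  | one => simp
  | mul x y _ _ h1 h2 =>
    rw [map_mul]
    exact Subgroup.mul_mem _ h1 h2
  | inv x _ h1 =>
    rw [map_inv]
    exact Subgroup.inv_mem _ h1

/-- the splitting identity passes to quotients -/
private theorem Grp_S_quot {H Q : Type} [Group H] [Group Q] {ψ : H →* H} {χ : Q →* Q}
    (hS : Grp_S ψ) (π : H →* Q) (hπ : Function.Surjective π) (h : ∀ x, χ (π x) = π (ψ x)) :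
    Grp_S χ := by
  intro q
  obtain ⟨x, rfl⟩ := hπ q
  simp only [h, ← map_mul]
  rw [hS x, map_one]

/-- the group `Y` -/
private theorem Grp_inner {H : Type} [Group H] [Finite H] (hco : Nat.Coprime 6 (Nat.card H))
    (ψ : H →* H) (h6 : ∀ g, ψ (ψ (ψ (ψ (ψ (ψ g))))) = g) (hS : Grp_S ψ)
    (hgen : Subgroup.closure {s : H | ψ (ψ (ψ s)) = s⁻¹} = ⊤) :
    ∃ N : Subgroup H, N.Normal ∧ (∀ y, ψ y * y ∈ N) ∧
      ∀ n ∈ N, ψ (ψ n) * (ψ n)⁻¹ * n ∈ ⁅N, (⊤ : Subgroup H)⁆ := by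
  obtain ⟨N, hN⟩ : ∃ N : Subgroup H,
      N = Subgroup.closure (Set.range fun g : H => g⁻¹ * (ψ.comp ψ) g) := ⟨_, rfl⟩
  have hNn : N.Normal := by
    rw [hN]
    exact Grp_normal _
  have hNs : ∀ y ∈ N, ψ y ∈ N := by
    rw [hN]
    exact Grp_stable (ψ.comp ψ) ψ (fun g => rfl)
  have hNg : ∀ g : H, g⁻¹ * ψ (ψ g) ∈ N := by
    intro g
    rw [hN]
    exact Subgroup.subset_closure ⟨g, rfl⟩
  have hco3 : ∀ K : Subgroup H, Nat.Coprime 6 (Nat.card (H ⧸ K)) := fun K =>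
    Nat.Coprime.of_dvd_right K.card_quotient_dvd_card hco
  -- inversion modulo `N`
  have h1 : ∀ y, ψ y * y ∈ N := by
    intro y
    let χ : H ⧸ N →* H ⧸ N := QuotientGroup.map N N ψ hNs
    have hχ : ∀ x, χ (QuotientGroup.mk' N x) = QuotientGroup.mk' N (ψ x) := fun x => rfl
    have hSχ : Grp_S χ := Grp_S_quot hS (QuotientGroup.mk' N) (QuotientGroup.mk'_surjective N) hχ
    have h2 : ∀ q, χ (χ q) = q := by
      intro q
      obtain ⟨x, rfl⟩ := QuotientGroup.mk'_surjective N q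
      rw [hχ, hχ]
      exact (QuotientGroup.eq.2 (hNg x)).symm
    have h3 := Grp_two (Nat.Coprime.of_dvd_left (by norm_num) (hco3 N)) χ h2 hSχ
      (QuotientGroup.mk' N y)
    rw [hχ, ← map_mul] at h3
    exact (QuotientGroup.eq_one_iff _).1 h3
  refine ⟨N, hNn, h1, ?_⟩
  obtain ⟨L, hL⟩ : ∃ L : Subgroup H, L = ⁅N, (⊤ : Subgroup H)⁆ := ⟨_, rfl⟩
  have hLn : L.Normal := by
    rw [hL]
    infer_instance
  have hLs : ∀ y ∈ L, ψ y ∈ L := by
    have h2 : L.map ψ ≤ L := by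
      rw [hL, Subgroup.map_commutator]
      apply Subgroup.commutator_mono
      · rintro _ ⟨x, hx, rfl⟩
        exact hNs x hx
      · exact le_top
    intro y hy
    exact h2 (Subgroup.mem_map_of_mem ψ hy)
  let χ : H ⧸ L →* H ⧸ L := QuotientGroup.map L L ψ hLs
  have hχ : ∀ x, χ (QuotientGroup.mk' L x) = QuotientGroup.mk' L (ψ x) := fun x => rfl
  have hSχ : Grp_S χ := Grp_S_quot hS (QuotientGroup.mk' L) (QuotientGroup.mk'_surjective L) hχ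
  have key := Grp_central (hco3 L) χ hSχ (N.map (QuotientGroup.mk' L)) ?_ ?_ ?_
    ((QuotientGroup.mk' L) '' (Set.range fun g : H => g⁻¹ * (ψ.comp ψ) g)) ?_ ?_
  · intro n hn
    have h2 := key _ (Subgroup.mem_map_of_mem (QuotientGroup.mk' L) hn)
    rw [hχ, hχ, ← map_inv, ← map_mul, ← map_mul] at h2
    rw [← hL]
    exact (QuotientGroup.eq_one_iff _).1 h2
  · rintro _ ⟨m, hm, rfl⟩ a
    obtain ⟨x, rfl⟩ := QuotientGroup.mk'_surjective L a
    rw [← map_mul, ← map_mul]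
    apply QuotientGroup.eq.2
    have h2 : ⁅m⁻¹, x⁻¹⁆ ∈ L := by
      rw [hL]
      exact Subgroup.commutator_mem_commutator (N.inv_mem hm) (Subgroup.mem_top _)
    have e2 : (m * x)⁻¹ * (x * m) = ⁅x⁻¹, m⁻¹⁆ := by
      rw [commutatorElement_def]
      group
    rw [e2, ← commutatorElement_inv]
    exact L.inv_mem h2
  · intro a
    obtain ⟨x, rfl⟩ := QuotientGroup.mk'_surjective L a
    rw [hχ, ← map_mul]
    exact Subgroup.mem_map_of_mem _ (h1 x)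
  · rw [eq_top_iff]
    have h2 : (⊤ : Subgroup (H ⧸ L)) = (⊤ : Subgroup H).map (QuotientGroup.mk' L) := by
      rw [← MonoidHom.range_eq_map]
      exact (MonoidHom.range_eq_top.2 (QuotientGroup.mk'_surjective L)).symm
    rw [h2, ← hgen, MonoidHom.map_closure]
    apply Subgroup.closure_mono
    rintro _ ⟨s, hs, rfl⟩
    have hs' : ψ (ψ (ψ s)) = s⁻¹ := hs
    change χ (χ (χ (QuotientGroup.mk' L s))) = (QuotientGroup.mk' L s)⁻¹
    rw [hχ, hχ, hχ, hs', map_inv]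
  · rw [hN, MonoidHom.map_closure]
  · rintro _ ⟨_, ⟨g, rfl⟩, rfl⟩
    rw [hχ, hχ, hχ, hχ, ← map_mul, ← map_mul]
    have e : g⁻¹ * (ψ.comp ψ) g * ψ (ψ (g⁻¹ * (ψ.comp ψ) g)) *
        ψ (ψ (ψ (ψ (g⁻¹ * (ψ.comp ψ) g)))) = 1 := by
      have e1 : (ψ.comp ψ) g = ψ (ψ g) := rfl
      rw [e1]
      simp only [map_mul, map_inv]
      rw [h6 g]
      group
    change QuotientGroup.mk' L (g⁻¹ * (ψ.comp ψ) g * ψ (ψ (g⁻¹ * (ψ.comp ψ) g)) *
        ψ (ψ (ψ (ψ (g⁻¹ * (ψ.comp ψ) g))))) = 1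
    rw [e, map_one]

theorem exists_YN {G : Type} [Group G] [Finite G] (hco : Nat.Coprime 6 (Nat.card G)) (φ : G →* G)
    (hφ : ∀ g, (⇑φ)^[6] g = g) (hS : Split 6 φ) :
    ∃ Y N : Subgroup G, Y.Normal ∧ N ≤ Y ∧ (∀ y ∈ Y, φ y ∈ Y) ∧ (∀ g, g⁻¹ * (⇑φ)^[3] g ∈ Y) ∧
      (∀ g, g * φ g * φ (φ g) ∈ Y) ∧ (∀ y ∈ Y, φ y * y ∈ N) ∧
      (∀ y ∈ Y, ∀ n ∈ N, y * n * y⁻¹ ∈ N) ∧
      (∀ n ∈ N, φ (φ n) * (φ n)⁻¹ * n ∈ ⁅N, Y⁆) := by
  have h6 : ∀ g, φ (φ (φ (φ (φ (φ g))))) = g := hφ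
  have hSG : Grp_S φ := Grp_split hS
  obtain ⟨θ, hθ⟩ : ∃ θ : G →* G, θ = φ.comp (φ.comp φ) := ⟨_, rfl⟩
  have hθ' : ∀ g, θ g = φ (φ (φ g)) := by
    intro g
    rw [hθ]
    rfl
  obtain ⟨Y, hY⟩ : ∃ Y : Subgroup G, Y = Subgroup.closure (Set.range fun g : G => g⁻¹ * θ g) :=
    ⟨_, rfl⟩
  have hYn : Y.Normal := by
    rw [hY]
    exact Grp_normal _
  have hYs : ∀ y ∈ Y, φ y ∈ Y := by
    rw [hY]
    exact Grp_stable θ φ (fun g => by rw [hθ', hθ'])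
  have hYg : ∀ g : G, g⁻¹ * φ (φ (φ g)) ∈ Y := by
    intro g
    rw [hY, ← hθ']
    exact Subgroup.subset_closure ⟨g, rfl⟩
  -- the restriction to `Y`
  let ψ : Y →* Y := (φ.comp Y.subtype).codRestrict Y (fun y => hYs y y.2)
  have hψ : ∀ y : Y, ((ψ y : Y) : G) = φ (y : G) := fun y => rfl
  have hSψ : Grp_S ψ := by
    intro y
    apply Subtype.ext
    push_cast
    simp only [hψ]
    exact hSG y
  have h6ψ : ∀ y, ψ (ψ (ψ (ψ (ψ (ψ y))))) = y := by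
    intro y
    apply Subtype.ext
    simp only [hψ]
    exact h6 y
  have hgen : Subgroup.closure {s : Y | ψ (ψ (ψ s)) = s⁻¹} = ⊤ := by
    rw [eq_top_iff]
    intro y _
    have h1 : Y ≤ (Subgroup.closure {s : Y | ψ (ψ (ψ s)) = s⁻¹}).map Y.subtype := by
      conv_lhs => rw [hY]
      rw [Subgroup.closure_le]
      rintro _ ⟨g, rfl⟩
      have hg : g⁻¹ * θ g ∈ Y := by
        rw [hθ']
        exact hYg g
      refine ⟨⟨_, hg⟩, Subgroup.subset_closure ?_, rfl⟩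
      apply Subtype.ext
      push_cast
      simp only [hψ, hθ', map_mul, map_inv, mul_inv_rev, inv_inv]
      rw [h6 g]
    obtain ⟨z, hz, hzy⟩ := h1 y.2
    have : z = y := Subtype.ext hzy
    rw [← this]
    exact hz
  have hcoY : Nat.Coprime 6 (Nat.card Y) := Nat.Coprime.of_dvd_right Y.card_subgroup_dvd_card hco
  obtain ⟨N, hN1, hN2, hN3⟩ := Grp_inner hcoY ψ h6ψ hSψ hgen
  refine ⟨Y, N.map Y.subtype, hYn, Subgroup.map_subtype_le N, hYs, hYg, ?_, ?_, ?_, ?_⟩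
  · intro g
    let χ : G ⧸ Y →* G ⧸ Y := QuotientGroup.map Y Y φ hYs
    have hχ : ∀ x, χ (QuotientGroup.mk' Y x) = QuotientGroup.mk' Y (φ x) := fun x => rfl
    have hSχ : Grp_S χ := Grp_S_quot hSG (QuotientGroup.mk' Y) (QuotientGroup.mk'_surjective Y) hχ
    have h2 : ∀ q, χ (χ (χ q)) = q := by
      intro q
      obtain ⟨x, rfl⟩ := QuotientGroup.mk'_surjective Y q
      rw [hχ, hχ, hχ]
      exact (QuotientGroup.eq.2 (hYg x)).symm
    have hcoQ : Nat.Coprime 6 (Nat.card (G ⧸ Y)) :=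
      Nat.Coprime.of_dvd_right Y.card_quotient_dvd_card hco
    have h3 := Grp_three (Nat.Coprime.of_dvd_left (by norm_num) hcoQ) χ h2 hSχ
      (QuotientGroup.mk' Y g)
    rw [hχ, hχ, ← map_mul, ← map_mul] at h3
    exact (QuotientGroup.eq_one_iff _).1 h3
  · intro y hy
    exact ⟨ψ ⟨y, hy⟩ * ⟨y, hy⟩, hN2 ⟨y, hy⟩, rfl⟩
  · rintro y hy _ ⟨n, hn, rfl⟩
    exact ⟨⟨y, hy⟩ * n * ⟨y, hy⟩⁻¹, hN1.conj_mem n hn ⟨y, hy⟩, rfl⟩
  · rintro _ ⟨n, hn, rfl⟩
    have h1 := hN3 n hn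
    have h2 : ⁅N.map Y.subtype, Y⁆ = (⁅N, (⊤ : Subgroup Y)⁆).map Y.subtype := by
      rw [Subgroup.map_commutator]
      congr 1
      rw [← MonoidHom.range_eq_map, Subgroup.range_subtype]
    rw [h2]
    exact ⟨_, h1, rfl⟩

end Pool.Agent.OrdS
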