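import Pool.Agent.OrdS.Basic

/-!
# Idempotents and homogeneous components
-/

set_option autoImplicit false

namespace Pool.Agent.OrdS

open Pool.Agent.LgP

variable {O A : Type} [CommRing O] [Ring A] [Algebra O A] {ζ : O} {Φ Ψ : A} {Z X : Submodule O A}

theorem Idem_pow (hP : Prim O 6 ζ) (k : ℕ) : ζ ^ k = ζ ^ (k % 6) := by
  conv_lhs => rw [← Nat.mod_add_div k 6, pow_add, pow_mul, hP.pow, one_pow, mul_one]

theorem Idem_congr (hP : Prim O 6 ζ) {k l : ℕ} (h : k % 6 = l % 6) : ζ ^ k = ζ ^ l := by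
  rw [Idem_pow hP k, Idem_pow hP l, h]

theorem Idem_inv (hP : Prim O 6 ζ) (a : A) : Ring.inverse (6 : O) • (6 : O) • a = a := by
  have h6 : IsUnit (6 : O) := by
    have := hP.unit
    simpa using this
  rw [smul_smul, Ring.inverse_mul_cancel _ h6, one_smul]

theorem Sys.six (h : Sys ζ Φ Ψ Z X) : Φ ^ 6 = 1 := by
  have h1 : (Φ - 1) * ∑ j ∈ Finset.range 6, Φ ^ j = Φ ^ 6 - 1 := mul_geom_sum Φ 6
  rw [h.sum, mul_zero] at h1
  exact (sub_eq_zero.mp h1.symm)

theorem Sys.psi (h : Sys ζ Φ Ψ Z X) : Ψ = Φ ^ 5 := by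
  have h1 : Φ ^ 5 * Φ = 1 := by rw [← pow_succ]; exact h.six
  calc Ψ = (Φ ^ 5 * Φ) * Ψ := by rw [h1, one_mul]
    _ = Φ ^ 5 := by rw [mul_assoc, h.pq, mul_one]

/-- the projection to the eigenspace of `Φ` -/
noncomputable def ide (ζ : O) (Φ : A) (i : ℕ) : A :=
  Ring.inverse (6 : O) • ∑ j ∈ Finset.range 6, ζ ^ (5 * i * j) • Φ ^ j

theorem ide_zero (h : Sys ζ Φ Ψ Z X) : ide ζ Φ 0 = 0 := by
  unfold ide
  simp [h.sum]

theorem ide_congr (h : Sys ζ Φ Ψ Z X) {i j : ℕ} (hij : i % 6 = j % 6) : ide ζ Φ i = ide ζ Φ j := by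
  unfold ide
  congr 1
  refine Finset.sum_congr rfl fun k _ => ?_
  congr 1
  apply Idem_congr h.prim
  have : (5 * i * k) ≡ (5 * j * k) [MOD 6] := by
    apply Nat.ModEq.mul_right
    exact Nat.ModEq.mul_left _ hij
  exact this

theorem ide_phi (h : Sys ζ Φ Ψ Z X) (i : ℕ) : Φ * ide ζ Φ i = ζ ^ i • ide ζ Φ i := by
  have key : Φ * ∑ j ∈ Finset.range 6, ζ ^ (5 * i * j) • Φ ^ j =
      ζ ^ i • ∑ j ∈ Finset.range 6, ζ ^ (5 * i * j) • Φ ^ j := by
    rw [Finset.mul_sum, Finset.smul_sum]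
    have h1 : ∀ j, Φ * ζ ^ (5 * i * j) • Φ ^ j = ζ ^ (5 * i * j) • Φ ^ (j + 1) := by
      intro j
      rw [mul_smul_comm, pow_succ']
    have h2 : ∀ j, ζ ^ i • ζ ^ (5 * i * j) • Φ ^ j = ζ ^ (i + 5 * i * j) • Φ ^ j := by
      intro j
      rw [smul_smul, ← pow_add]
    simp only [h1, h2]
    rw [Finset.sum_range_succ, Finset.sum_range_succ' (fun j => ζ ^ (i + 5 * i * j) • Φ ^ j)]
    congr 1
    · refine Finset.sum_congr rfl fun k _ => ?_
      congr 1
      apply Idem_congr h.prim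
      have : i + 5 * i * (k + 1) = 5 * i * k + 6 * i := by ring
      rw [this, Nat.add_mul_mod_self_left]
    · have e : Φ ^ (5 + 1) = 1 := h.six
      rw [e, pow_zero]
      congr 1
      apply Idem_congr h.prim
      have : 5 * i * 5 = (i + 5 * i * 0) + 6 * (4 * i) := by ring
      rw [this, Nat.add_mul_mod_self_left]
  unfold ide
  rw [mul_smul_comm, key, smul_comm]

theorem ide_phi_pow (h : Sys ζ Φ Ψ Z X) (i k : ℕ) : Φ ^ k * ide ζ Φ i = ζ ^ (i * k) • ide ζ Φ i := by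
  induction k with
  | zero => simp
  | succ k ih => rw [pow_succ', mul_assoc, ih, mul_smul_comm, ide_phi h, smul_smul, ← pow_add]; ring_nf

theorem ide_mul (h : Sys ζ Φ Ψ Z X) (i j : ℕ) :
    ide ζ Φ i * ide ζ Φ j = if i % 6 = j % 6 then ide ζ Φ i else 0 := by
  have h1 : ide ζ Φ i * ide ζ Φ j = Ring.inverse (6 : O) •
      (∑ k ∈ Finset.range 6, ζ ^ ((5 * i + j) * k)) • ide ζ Φ j := by
    conv_lhs => rw [ide]
    rw [smul_mul_assoc, Finset.sum_mul, Finset.sum_smul]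
    congr 1
    refine Finset.sum_congr rfl fun k _ => ?_
    rw [smul_mul_assoc, ide_phi_pow h, smul_smul, ← pow_add]
    congr 2
    ring
  rw [h1]
  split_ifs with hij
  · have h2 : ∀ k, ζ ^ ((5 * i + j) * k) = 1 := by
      intro k
      have : ζ ^ ((5 * i + j) * k) = ζ ^ (6 * (i * k)) := by
        apply Idem_congr h.prim
        have h3 : (5 * i + j) * k ≡ (5 * i + i) * k [MOD 6] :=
          Nat.ModEq.mul_right _ (Nat.ModEq.add_left _ hij.symm)
        have h4 : (5 * i + i) * k = 6 * (i * k) := by ring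
        rw [h4] at h3
        exact h3
      rw [this, pow_mul, h.prim.pow, one_pow]
    simp only [h2]
    rw [Finset.sum_const, Finset.card_range, nsmul_eq_mul, mul_one]
    have := Idem_inv h.prim (ide ζ Φ j)
    rw [ide_congr h hij]
    simpa using this
  · have h3 : ¬ 6 ∣ (5 * i + j) := by
      intro h4
      apply hij
      omega
    rw [h.prim.sum _ h3, zero_smul, smul_zero]

theorem ide_sum (h : Sys ζ Φ Ψ Z X) : ∑ i ∈ Finset.range 6, ide ζ Φ i = 1 := by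
  unfold ide
  rw [← Finset.smul_sum, Finset.sum_comm]
  have h1 : ∀ j ∈ Finset.range 6, ∑ i ∈ Finset.range 6, ζ ^ (5 * i * j) • Φ ^ j =
      if j = 0 then (6 : O) • (1 : A) else 0 := by
    intro j hj
    rw [← Finset.sum_smul]
    have e : ∀ i, ζ ^ (5 * i * j) = ζ ^ ((5 * j) * i) := fun i => by congr 1; ring
    simp only [e]
    split_ifs with h0
    · subst h0
      simp
    · rw [h.prim.sum, zero_smul]
      rw [Finset.mem_range] at hj
      omega
  rw [Finset.sum_congr rfl h1, Finset.sum_ite_eq']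
  rw [if_pos (by simp)]
  exact Idem_inv h.prim 1

theorem Hom.pow_phi (h : Sys ζ Φ Ψ Z X) {d : ℕ} {a : A} (ha : Hom ζ Φ d a) (j : ℕ) :
    a * Φ ^ j = ζ ^ (5 * d * j) • (Φ ^ j * a) := by
  have h1 : a * Φ = ζ ^ (5 * d) • (Φ * a) := by
    unfold Hom at ha
    rw [ha, smul_smul, ← pow_add]
    have : 5 * d + d = 6 * d := by ring
    rw [this, pow_mul, h.prim.pow, one_pow, one_smul]
  induction j with
  | zero => simp
  | succ j ih =>
    rw [pow_succ, ← mul_assoc, ih, smul_mul_assoc, mul_assoc (Φ ^ j) a Φ, h1, mul_smul_comm,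
      smul_smul, ← pow_add, ← mul_assoc]
    congr 2

theorem Hom.ide (h : Sys ζ Φ Ψ Z X) {d : ℕ} {a : A} (ha : Hom ζ Φ d a) (i : ℕ) :
    a * ide ζ Φ i = OrdS.ide ζ Φ (i + d) * a := by
  unfold OrdS.ide
  rw [mul_smul_comm, smul_mul_assoc, Finset.mul_sum, Finset.sum_mul]
  congr 1
  refine Finset.sum_congr rfl fun j _ => ?_
  rw [mul_smul_comm, ha.pow_phi h, smul_smul, ← pow_add, smul_mul_assoc]
  congr 2
  ring

/-- the homogeneous component of degree `i` -/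
noncomputable def cmp (ζ : O) (Φ Ψ : A) (i : ℕ) (a : A) : A :=
  Ring.inverse (6 : O) • ∑ j ∈ Finset.range 6, ζ ^ (5 * i * j) • (Φ ^ j * a * Ψ ^ j)

theorem Sys.iter_mem (T : Submodule O A) (hT : ∀ a ∈ T, Φ * a * Ψ ∈ T)
    {a : A} (ha : a ∈ T) (j : ℕ) : Φ ^ j * a * Ψ ^ j ∈ T := by
  induction j with
  | zero => simpa using ha
  | succ j ih =>
    have := hT _ ih
    have e : Φ ^ (j + 1) * a * Ψ ^ (j + 1) = Φ * (Φ ^ j * a * Ψ ^ j) * Ψ := by
      rw [pow_succ', pow_succ]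
      simp only [mul_assoc]
    rw [e]
    exact this

theorem cmp_mem (T : Submodule O A) (hT : ∀ a ∈ T, Φ * a * Ψ ∈ T)
    {a : A} (ha : a ∈ T) (i : ℕ) : cmp ζ Φ Ψ i a ∈ T := by
  unfold cmp
  refine T.smul_mem _ (T.sum_mem fun j _ => T.smul_mem _ ?_)
  exact Sys.iter_mem T hT ha j

theorem cmp_hom (h : Sys ζ Φ Ψ Z X) (i : ℕ) (a : A) : Hom ζ Φ i (cmp ζ Φ Ψ i a) := by
  have key : Φ * ∑ j ∈ Finset.range 6, ζ ^ (5 * i * j) • (Φ ^ j * a * Ψ ^ j) =
      ζ ^ i • ((∑ j ∈ Finset.range 6, ζ ^ (5 * i * j) • (Φ ^ j * a * Ψ ^ j)) * Φ) := by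
    rw [Finset.mul_sum, Finset.sum_mul, Finset.smul_sum]
    have h1 : ∀ j, Φ * ζ ^ (5 * i * j) • (Φ ^ j * a * Ψ ^ j) =
        ζ ^ (5 * i * j) • (Φ ^ (j + 1) * a * Ψ ^ j) := by
      intro j
      rw [mul_smul_comm, pow_succ']
      simp only [mul_assoc]
    have hp : ∀ j, Ψ ^ (j + 1) * Φ = Ψ ^ j := by
      intro j
      rw [pow_succ, mul_assoc, h.qp, mul_one]
    have h2 : ∀ j, ζ ^ i • ((ζ ^ (5 * i * j) • (Φ ^ j * a * Ψ ^ j)) * Φ) =
        ζ ^ (i + 5 * i * j) • (Φ ^ j * a * (Ψ ^ j * Φ)) := by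
      intro j
      rw [smul_mul_assoc, smul_smul, ← pow_add]
      simp only [mul_assoc]
    simp only [h1, h2]
    rw [Finset.sum_range_succ, Finset.sum_range_succ'
      (fun j => ζ ^ (i + 5 * i * j) • (Φ ^ j * a * (Ψ ^ j * Φ)))]
    congr 1
    · refine Finset.sum_congr rfl fun k _ => ?_
      rw [hp]
      congr 1
      apply Idem_congr h.prim
      have : i + 5 * i * (k + 1) = 5 * i * k + 6 * i := by ring
      rw [this, Nat.add_mul_mod_self_left]
    · have e : Φ ^ (5 + 1) = 1 := h.six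
      rw [e, pow_zero, pow_zero, one_mul, one_mul]
      have e2 : Ψ ^ 5 = Φ := by
        have h6 : Ψ ^ 6 = 1 := by
          rw [h.psi, ← pow_mul, show 5 * 6 = 6 * 5 by norm_num, pow_mul, h.six, one_pow]
        calc Ψ ^ 5 = Ψ ^ 5 * (Ψ * Φ) := by rw [h.qp, mul_one]
          _ = Ψ ^ 6 * Φ := by rw [← mul_assoc, ← pow_succ]
          _ = Φ := by rw [h6, one_mul]
      rw [e2]
      congr 1
      apply Idem_congr h.prim
      have : 5 * i * 5 = (i + 5 * i * 0) + 6 * (4 * i) := by ring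
      rw [this, Nat.add_mul_mod_self_left]
  unfold Hom cmp
  rw [mul_smul_comm, key, smul_mul_assoc, smul_comm]

theorem cmp_sum (h : Sys ζ Φ Ψ Z X) (a : A) : ∑ i ∈ Finset.range 6, cmp ζ Φ Ψ i a = a := by
  unfold cmp
  rw [← Finset.smul_sum, Finset.sum_comm]
  have h1 : ∀ j ∈ Finset.range 6, ∑ i ∈ Finset.range 6, ζ ^ (5 * i * j) • (Φ ^ j * a * Ψ ^ j) =
      if j = 0 then (6 : O) • a else 0 := by
    intro j hj
    rw [← Finset.sum_smul]
    have e : ∀ i, ζ ^ (5 * i * j) = ζ ^ ((5 * j) * i) := fun i => by congr 1; ring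
    simp only [e]
    split_ifs with h0
    · subst h0
      simp
    · rw [h.prim.sum, zero_smul]
      rw [Finset.mem_range] at hj
      omega
  rw [Finset.sum_congr rfl h1, Finset.sum_ite_eq', if_pos (by simp)]
  exact Idem_inv h.prim a

theorem cmp_zero {a : A} (ha : ∑ j ∈ Finset.range 6, Φ ^ j * a * Ψ ^ j = 0) :
    cmp ζ Φ Ψ 0 a = 0 := by
  unfold cmp
  simp [ha]

/-- an element of degree `0` with trace zero vanishes -/
theorem Hom.zero (h : Sys ζ Φ Ψ Z X) {a : A} (ha : Hom ζ Φ 0 a)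
    (hT : ∑ j ∈ Finset.range 6, Φ ^ j * a * Ψ ^ j = 0) : a = 0 := by
  have h1 : ∀ j : ℕ, Φ ^ j * a * Ψ ^ j = a := by
    intro j
    induction j with
    | zero => simp
    | succ j ih =>
      have e : Φ ^ (j + 1) * a * Ψ ^ (j + 1) = Φ ^ j * (Φ * a * Ψ) * Ψ ^ j := by
        rw [pow_succ, pow_succ']
        simp only [mul_assoc]
      have e2 : Φ * a * Ψ = a := by
        unfold Hom at ha
        rw [ha, pow_zero, one_smul, mul_assoc, h.pq, mul_one]
      rw [e, e2, ih]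
  simp only [h1] at hT
  rw [Finset.sum_const, Finset.card_range, nsmul_eq_mul] at hT
  have h2 := Idem_inv h.prim a
  rw [← h2]
  have h3 : (6 : O) • a = 0 := by
    rw [Algebra.smul_def, map_ofNat]
    simpa using hT
  rw [h3, smul_zero]

/-- `LC (Z ⊔ X)` is stable under conjugation by `Φ` -/
theorem Sys.lc_stab (h : Sys ζ Φ Ψ Z X) : ∀ a ∈ LC (Z ⊔ X), Φ * a * Ψ ∈ LC (Z ⊔ X) := by
  have hm : ∀ a b : A, Φ * (a * b) * Ψ = (Φ * a * Ψ) * (Φ * b * Ψ) := by
    intro a b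
    have : (Φ * a * Ψ) * (Φ * b * Ψ) = Φ * a * (Ψ * Φ) * b * Ψ := by simp only [mul_assoc]
    rw [this, h.qp, mul_one]
    simp only [mul_assoc]
  let T : Submodule O A :=
    { carrier := {a | Φ * a * Ψ ∈ LC (Z ⊔ X)}
      add_mem' := by
        intro a b ha hb
        show Φ * (a + b) * Ψ ∈ LC (Z ⊔ X)
        rw [mul_add, add_mul]
        exact Submodule.add_mem _ ha hb
      zero_mem' := by
        show Φ * 0 * Ψ ∈ LC (Z ⊔ X)
        rw [mul_zero, zero_mul]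
        exact Submodule.zero_mem _
      smul_mem' := by
        intro r a ha
        show Φ * (r • a) * Ψ ∈ LC (Z ⊔ X)
        rw [mul_smul_comm, smul_mul_assoc]
        exact Submodule.smul_mem _ _ ha }
  have hT : LC (Z ⊔ X) ≤ T := by
    apply LC_le
    · intro a ha b hb
      show Φ * (a * b - b * a) * Ψ ∈ LC (Z ⊔ X)
      rw [mul_sub, sub_mul, hm, hm]
      exact LC_lie _ _ ha _ hb
    · rw [sup_le_iff]
      constructor
      · intro z hz
        show Φ * z * Ψ ∈ LC (Z ⊔ X)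
        rw [h.hz z hz]
        exact Submodule.neg_mem _ (le_LC _ (Submodule.mem_sup_left hz))
      · intro x hx
        exact le_LC _ (Submodule.mem_sup_right (h.hx x hx))
  exact hT

theorem Sys.unit3 (h : Sys ζ Φ Ψ Z X) : IsUnit (3 : O) := by
  have h6 : IsUnit ((6 : ℕ) : O) := h.prim.unit
  have : ((6 : ℕ) : O) = 3 * 2 := by norm_num
  rw [this] at h6
  exact isUnit_of_mul_isUnit_left h6

theorem Sys.zeta3 (h : Sys ζ Φ Ψ Z X) : ζ ^ 3 = -1 := by
  have h1 := h.prim.sum 3 (by norm_num)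
  have hz := h.prim.pow
  have h2 : ∑ j ∈ Finset.range 6, ζ ^ (3 * j) = 3 * (1 + ζ ^ 3) := by
    simp only [Finset.sum_range_succ, Finset.sum_range_zero]
    have e1 : ζ ^ (3 * 2) = 1 := by rw [← hz]
    have e2 : ζ ^ (3 * 3) = ζ ^ 3 := by
      rw [show 3 * 3 = 6 + 3 by norm_num, pow_add, hz, one_mul]
    have e3 : ζ ^ (3 * 4) = 1 := by
      rw [show 3 * 4 = 6 * 2 by norm_num, pow_mul, hz, one_pow]
    have e4 : ζ ^ (3 * 5) = ζ ^ 3 := by
      rw [show 3 * 5 = 6 * 2 + 3 by norm_num, pow_add, pow_mul, hz, one_pow, one_mul]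
    rw [e1, e2, e3, e4]
    ring
  rw [h2] at h1
  have h3 := (h.unit3.mul_right_eq_zero).1 h1
  linear_combination h3

theorem Sys.zeta2 (h : Sys ζ Φ Ψ Z X) : ζ ^ 2 = ζ - 1 := by
  have h1 := h.prim.sum 2 (by norm_num)
  have hz := h.prim.pow
  have h3 := h.zeta3
  have h2 : ∑ j ∈ Finset.range 6, ζ ^ (2 * j) = 2 * (1 + ζ ^ 2 - ζ) := by
    simp only [Finset.sum_range_succ, Finset.sum_range_zero]
    have e1 : ζ ^ (2 * 2) = -ζ := by
      rw [show 2 * 2 = 3 + 1 by norm_num, pow_add, h3]; ring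
    have e2 : ζ ^ (2 * 3) = 1 := by rw [← hz]
    have e3 : ζ ^ (2 * 4) = ζ ^ 2 := by
      rw [show 2 * 4 = 6 + 2 by norm_num, pow_add, hz, one_mul]
    have e4 : ζ ^ (2 * 5) = -ζ := by
      rw [show 2 * 5 = 6 + 3 + 1 by norm_num, pow_add, pow_add, hz, h3]; ring
    rw [e1, e2, e3, e4]
    ring
  rw [h2] at h1
  have h6 : IsUnit ((6 : ℕ) : O) := h.prim.unit
  have hu : IsUnit (2 : O) := by
    have : ((6 : ℕ) : O) = 2 * 3 := by norm_num
    rw [this] at h6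
    exact isUnit_of_mul_isUnit_left h6
  have h4 := (hu.mul_right_eq_zero).1 h1
  linear_combination h4

/-- the letters `X` split into degrees `1` and `5` -/
theorem Sys.split (h : Sys ζ Φ Ψ Z X) {x : A} (hx : x ∈ X) :
    ∃ y ∈ X, ∃ w ∈ X, Hom ζ Φ 1 y ∧ Hom ζ Φ 5 w ∧ x = y + w := by
  have h2 := h.zeta2
  have h3 := h.zeta3
  obtain ⟨t, ht⟩ := h.unit3.exists_left_inv
  have h5 : ζ ^ 5 = 1 - ζ := by
    have : ζ ^ 5 = ζ ^ 3 * ζ ^ 2 := by ring
    rw [this, h3, h2]; ring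
  set s := Φ * x * Ψ with hs
  have hsX : s ∈ X := h.hx x hx
  have hs2 : Φ * s * Ψ = s - x := by
    have := h.hx2 x hx
    rw [← hs] at this
    have e : Φ * s * Ψ = (Φ * s * Ψ - s + x) + (s - x) := by abel
    rw [e, this, zero_add]
  have hs1 : Φ * x = s * Φ := by rw [hs, mul_assoc, h.qp, mul_one]
  have hs3 : Φ * s = (s - x) * Φ := by rw [← hs2, mul_assoc, h.qp, mul_one]
  refine ⟨(-t * (ζ - ζ ^ 5)) • (s - ζ ^ 5 • x), ?_, (-t * (ζ - ζ ^ 5)) • (ζ • x - s), ?_, ?_, ?_, ?_⟩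
  · exact X.smul_mem _ (X.sub_mem hsX (X.smul_mem _ hx))
  · exact X.smul_mem _ (X.sub_mem (X.smul_mem _ hx) hsX)
  · apply Hom.smul
    unfold Hom
    rw [mul_sub, mul_smul_comm, hs1, hs3, sub_mul, sub_mul, smul_sub, pow_one, h5, smul_mul_assoc,
      smul_smul]
    have e : ζ * (1 - ζ) = 1 := by
      have : ζ * (1 - ζ) = ζ - ζ ^ 2 := by ring
      rw [this, h2]; ring
    rw [e, one_smul, sub_smul, one_smul]
    abel
  · apply Hom.smul
    unfold Hom
    rw [mul_sub, mul_smul_comm, hs1, hs3, sub_mul, sub_mul, smul_sub, h5, smul_mul_assoc,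
      smul_smul]
    have e : (1 - ζ) * ζ = 1 := by
      have : (1 - ζ) * ζ = ζ - ζ ^ 2 := by ring
      rw [this, h2]; ring
    rw [e, one_smul, sub_smul, one_smul]
    abel
  · rw [← smul_add]
    have e1 : s - ζ ^ 5 • x + (ζ • x - s) = (ζ - ζ ^ 5) • x := by
      rw [sub_smul]; abel
    rw [e1, smul_smul]
    have e2 : -t * (ζ - ζ ^ 5) * (ζ - ζ ^ 5) = 1 := by
      rw [h5]
      have : -t * (ζ - (1 - ζ)) * (ζ - (1 - ζ)) = -t * (4 * ζ ^ 2 - 4 * ζ + 1) := by ring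
      rw [this, h2]
      linear_combination ht
    rw [e2, one_smul]

theorem Sys.homZ (h : Sys ζ Φ Ψ Z X) {z : A} (hz : z ∈ Z) : Hom ζ Φ 3 z := by
  unfold Hom
  have h1 : Φ * z = -z * Φ := by
    rw [← h.hz z hz, mul_assoc, h.qp, mul_one]
  rw [h1, h.zeta3, neg_smul, one_smul, neg_mul]

end Pool.Agent.OrdS
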