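import Pool.Agent.OrdS.Act
import Pool.Agent.LgP.Key
import Pool.Agent.LgP.Main

/-!
# Deep elements of `N` act trivially on abelian sections

`rep_exists` (`LgP/Rep.lean`, `n = 6`) for `H`; `∑ Φ^j = 0` comes from its last item with
`f = ∑_(j<6) T^j` and `Split 6 φ` (compare `lev_start`, `pw` in `LgP/Pw.lean`); then `vis` and `derG_trivial` with
`r = M` (`M ≤ 2^M`).
-/

set_option autoImplicit false

open scoped commutatorElement

namespace Pool.Agent.OrdS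

open Pool.Agent.LgP

/-- the action of deep elements of `N` on the abelianisations of normal invariant subgroups -/
theorem key6 : ∃ r : ℕ, ∀ (G : Type) [Group G] [Finite G] [Group.IsNilpotent G],
    Nat.Coprime 6 (Nat.card G) → ∀ (φ : G →* G), (∀ g, (⇑φ)^[6] g = g) → Split 6 φ →
    ∀ Y N : Subgroup G, N ≤ Y → (∀ y ∈ Y, φ y ∈ Y) → (∀ y ∈ Y, φ y * y ∈ N) →
    (∀ n ∈ N, φ (φ n) * (φ n)⁻¹ * n ∈ ⁅N, Y⁆) →
    ∀ H : Subgroup G, H.Normal → (∀ h ∈ H, φ h ∈ H) →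
    ∀ g ∈ derG r N, ∀ h ∈ H, ⁅g, h⁆ ∈ ⁅H, H⁆ := by
  obtain ⟨M, _, hvis⟩ := vis
  refine ⟨M, ?_⟩
  intro G _ _ _ hco φ hφ hS Y N hNY hY hYN hN H hHn hH g hg
  obtain ⟨O, V, _, _, _, ζ, ρ, Φ, Ψ, hP, _, _, h1, h2, _, hρ, htriv, hK, hpoly⟩ :=
    rep_exists 6 (by norm_num) hco φ hφ H hHn hH
  have hsum : ∑ j ∈ Finset.range 6, Φ ^ j = 0 := by
    have h3 := hpoly _ (lev_start 6 (by norm_num) φ hS H hHn hH)
    rw [fk_self 6 (by norm_num), map_sum] at h3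
    simpa only [map_pow, Polynomial.aeval_X] using h3
  have h4 := hvis O (Module.End O V) G ζ Φ Ψ ρ φ hP h1 h2 hsum (fun g => (hρ g).symm) hS hK Y N
    hNY hY hYN hN
  exact htriv g (derG_trivial ρ N M M Nat.lt_two_pow_self.le h4 g hg)

end Pool.Agent.OrdS
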