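import Pool.Agent.OrdS.Abel
import Pool.Agent.OrdS.AdM
import Pool.Agent.LgP.Krek

/-!
# The Lie lemma: recursion over the derived length

`S = LC (Z ⊔ X)`, `J = ⊤ X ⊤`.
`lieB_zero`: `S = 0`, so `X = 0`.
`lieB_one`: the elements of `S` commute. `X ≤ X_1 + X_5` (homogeneous parts, `Sys.split`), `X_1^5 = 0 = X_5^5`
(`t_1 ⋯ t_5 e_i = 0` for `t_j` of degree 1 because the path `i, i+1, ...` meets `e_6 = e_0 = 0`; `e_i = ide ζ Φ i`,
`∑ e_i = 1`), these two submodules commute, so `X^9 = 0`; `X` commutes with `Z` and `Φ X = X Φ` as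
submodules, so `⊤ X ≤ X ⊤` and `J^9 ≤ X^9 ⊤ = 0`.
`lieB_succ`: let `derL (d+1) S = 0`, `P = derL d S` (commuting elements, stable under `ad S` and conjugation by `Φ`,
trace zero as `P ≤ S`). `adM` gives `a 0 = P, ..., a M = 0`. As `d ≥ 1`, `P ≤ derL 1 S ≤ J` (`Z + J` is Lie
closed: elements of `Z` commute, their commutator has degree 6 and trace zero, `Hom.zero`; so `S ≤ Z + J`, and commutators of
elements of `Z + J` lie in `J`). Claim: `(⊤ (a j) ⊤)^(18^(M-j)) = 0` for `j ≤ M`, by descending induction: in the quotient of `A`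
by the ideal `⊤ (a (j+1)) ⊤` (`exists_quot`, `Sys.map`, `LC_map`) the image `b` of `a j` satisfies the hypotheses of
`abel`, so `(⊤ (a j) ⊤)^18 ≤ ⊤ (a (j+1)) ⊤`. Finally in the quotient by `⊤ P ⊤` the derived length is `≤ d`
(`derL_map`), so `J^M ≤ ⊤ P ⊤` and `J^(M * 18^M) = 0`.
`lieSix`: `derL 31 S = 0` by `kreknin` (`n = 6`, `σ a = Φ a Ψ` as an algebra homomorphism; trace zero on `S`), so
`LieB 31 M` suffices; iterate `lieB_succ` from `lieB_one`.
-/

set_option autoImplicit false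

namespace Pool.Agent.OrdS

open Pool.Agent.LgP

variable {O A : Type} [CommRing O] [Ring A] [Algebra O A] {ζ : O} {Φ Ψ : A} {Z X : Submodule O A}

private theorem Rec_top_mul_top : (⊤ : Submodule O A) * ⊤ = ⊤ := by
  apply le_antisymm le_top
  intro a _
  have : a = a * 1 := (mul_one a).symm
  rw [this]
  exact Submodule.mul_mem_mul trivial trivial

private theorem Rec_le_ideal (b : Submodule O A) : b ≤ (⊤ : Submodule O A) * b * ⊤ := by
  intro a ha
  have : a = 1 * a * 1 := by rw [one_mul, mul_one]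
  rw [this]
  exact Submodule.mul_mem_mul (Submodule.mul_mem_mul trivial ha) trivial

private theorem Rec_norm (h : Sys ζ Φ Ψ Z X) (b : Submodule O A)
    (hΦ : ∀ β ∈ b, Φ * β ∈ b * (⊤ : Submodule O A)) (hZ : ∀ z ∈ Z, ∀ β ∈ b, z * β ∈ b * (⊤ : Submodule O A))
    (hX : ∀ x ∈ X, ∀ β ∈ b, x * β ∈ b * (⊤ : Submodule O A)) :
    (⊤ : Submodule O A) * b ≤ b * ⊤ := by
  let T : Subalgebra O A :=
    { carrier := {a | ∀ β ∈ b, a * β ∈ b * (⊤ : Submodule O A)}
      mul_mem' := by
        intro a a' ha ha' β hβ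
        have h1 : a * a' * β = a * (a' * β) := mul_assoc _ _ _
        rw [h1]
        have h2 := ha' β hβ
        refine Submodule.mul_induction_on h2 ?_ ?_
        · intro γ hγ c _
          rw [← mul_assoc]
          have h3 : a * γ * c ∈ b * (⊤ : Submodule O A) * ⊤ := Submodule.mul_mem_mul (ha γ hγ) trivial
          rwa [mul_assoc b, Rec_top_mul_top] at h3
        · intro u v hu hv
          rw [mul_add]
          exact Submodule.add_mem _ hu hv
      add_mem' := by
        intro a a' ha ha' β hβ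
        rw [add_mul]
        exact Submodule.add_mem _ (ha β hβ) (ha' β hβ)
      algebraMap_mem' := by
        intro r β hβ
        have h1 : algebraMap O A r * β = β * algebraMap O A r := Algebra.commutes r β
        rw [h1]
        exact Submodule.mul_mem_mul hβ trivial }
  have hT : T = ⊤ := by
    rw [eq_top_iff, ← h.gen, Algebra.adjoin_le_iff]
    rintro a ((ha | ha) | ha)
    · rw [Set.mem_singleton_iff.1 ha]
      exact hΦ
    · exact hZ a ha
    · exact hX a ha
  rw [Submodule.mul_le]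
  intro a _ β hβ
  have h1 : a ∈ T := by rw [hT]; trivial
  exact h1 β hβ

private theorem Rec_ideal_pow (b : Submodule O A) (hb : (⊤ : Submodule O A) * b ≤ b * ⊤) (k : ℕ) :
    ((⊤ : Submodule O A) * b * ⊤) ^ k ≤ b ^ k * ⊤ := by
  have h0 : (⊤ : Submodule O A) * b * ⊤ ≤ b * ⊤ := by
    calc (⊤ : Submodule O A) * b * ⊤ ≤ b * ⊤ * ⊤ := mul_le_mul' hb le_rfl
      _ = b * ⊤ := by rw [mul_assoc, Rec_top_mul_top]
  induction k with
  | zero =>
    rw [pow_zero, pow_zero, one_mul]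
    exact le_top
  | succ k ih =>
    calc ((⊤ : Submodule O A) * b * ⊤) ^ (k + 1)
        = (⊤ * b * ⊤) ^ k * (⊤ * b * ⊤) := pow_succ _ _
      _ ≤ (b ^ k * ⊤) * (b * ⊤) := mul_le_mul' ih h0
      _ = b ^ k * (⊤ * b) * ⊤ := by simp only [mul_assoc]
      _ ≤ b ^ k * (b * ⊤) * ⊤ := mul_le_mul' (mul_le_mul' le_rfl hb) le_rfl
      _ = b ^ (k + 1) * ⊤ := by
        rw [pow_succ]
        simp only [mul_assoc]
        rw [Rec_top_mul_top]

private theorem Rec_hom_pow (T : Submodule O A) (d : ℕ) (hT : ∀ t ∈ T, Hom ζ Φ d t) (k : ℕ) :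
    ∀ t ∈ T ^ k, Hom ζ Φ (k * d) t := by
  induction k with
  | zero =>
    intro t ht
    rw [pow_zero, Submodule.mem_one] at ht
    obtain ⟨r, rfl⟩ := ht
    unfold Hom
    rw [zero_mul, pow_zero, one_smul]
    exact (Algebra.commutes r Φ).symm
  | succ k ih =>
    intro t ht
    rw [pow_succ] at ht
    have e : (k + 1) * d = k * d + d := by ring
    rw [e]
    refine Submodule.mul_induction_on ht ?_ ?_
    · intro a ha b hb
      exact (ih a ha).mul (hT b hb)
    · intro a b ha hb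
      exact ha.add hb

private theorem Rec_path (h : Sys ζ Φ Ψ Z X) (T : Submodule O A) (d : ℕ)
    (hT : ∀ t ∈ T, Hom ζ Φ d t) (hd : ∀ i < 6, ∃ j ≤ 5, (i + j * d) % 6 = 0) :
    T ^ 5 = ⊥ := by
  have h1 : ∀ i < 6, ∀ t ∈ T ^ 5, t * ide ζ Φ i = 0 := by
    intro i hi t ht
    obtain ⟨j, hj, hij⟩ := hd i hi
    have e : T ^ 5 = T ^ (5 - j) * T ^ j := by rw [← pow_add]; congr 1; omega
    rw [e] at ht
    refine Submodule.mul_induction_on ht ?_ ?_
    · intro a _ b hb
      have h2 := (Rec_hom_pow T d hT j b hb).ide h i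
      rw [mul_assoc, h2, ide_congr h (j := 0) (by simpa using hij), ide_zero h, zero_mul, mul_zero]
    · intro a b ha hb
      rw [add_mul, ha, hb, add_zero]
  rw [eq_bot_iff]
  intro t ht
  rw [Submodule.mem_bot]
  calc t = t * ∑ i ∈ Finset.range 6, ide ζ Φ i := by rw [ide_sum h, mul_one]
    _ = 0 := by
      rw [Finset.mul_sum]
      exact Finset.sum_eq_zero fun i hi => h1 i (Finset.mem_range.1 hi) t ht

theorem lieB_zero : LieB 0 1 := by
  intro O A _ _ _ ζ Φ Ψ Z X h hd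
  have h1 : X = ⊥ := by
    rw [eq_bot_iff, ← hd]
    exact le_sup_right.trans (le_LC _)
  rw [h1, Submodule.mul_bot, Submodule.bot_mul, pow_one]

/-- homogeneous letters -/
private def Rec_deg (ζ : O) (Φ : A) (X : Submodule O A) (d : ℕ) : Submodule O A where
  carrier := {x | x ∈ X ∧ Hom ζ Φ d x}
  add_mem' := by
    rintro a b ⟨h1, h2⟩ ⟨h3, h4⟩
    exact ⟨X.add_mem h1 h3, h2.add h4⟩
  zero_mem' := ⟨X.zero_mem, by unfold Hom; rw [mul_zero, zero_mul, smul_zero]⟩
  smul_mem' := by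
    rintro r a ⟨h1, h2⟩
    exact ⟨X.smul_mem r h1, h2.smul r⟩

private theorem Rec_comm_of_derL_one {S : Submodule O A} (hd : derL 1 S = ⊥) :
    ∀ a ∈ S, ∀ b ∈ S, a * b = b * a := by
  intro a ha b hb
  have h1 : a * b - b * a ∈ derL 1 S := Submodule.subset_span ⟨a, ha, b, hb, rfl⟩
  rw [hd, Submodule.mem_bot] at h1
  exact sub_eq_zero.1 h1

private theorem Rec_comm_sub {P Q : Submodule O A} (h : ∀ a ∈ P, ∀ b ∈ Q, a * b = b * a) :
    P * Q = Q * P := by
  apply le_antisymm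
  · rw [Submodule.mul_le]
    intro a ha b hb
    rw [h a ha b hb]
    exact Submodule.mul_mem_mul hb ha
  · rw [Submodule.mul_le]
    intro b hb a ha
    rw [← h a ha b hb]
    exact Submodule.mul_mem_mul ha hb

theorem lieB_one : LieB 1 9 := by
  intro O A _ _ _ ζ Φ Ψ Z X h hd
  have hc := Rec_comm_of_derL_one hd
  have hXS : X ≤ LC (Z ⊔ X) := le_sup_right.trans (le_LC _)
  have hZS : Z ≤ LC (Z ⊔ X) := le_sup_left.trans (le_LC _)
  have h1 : Rec_deg ζ Φ X 1 ^ 5 = ⊥ := by
    refine Rec_path h _ 1 (fun t ht => ht.2) ?_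
    intro i hi
    interval_cases i
    · exact ⟨0, by norm_num, by norm_num⟩
    · exact ⟨5, by norm_num, by norm_num⟩
    · exact ⟨4, by norm_num, by norm_num⟩
    · exact ⟨3, by norm_num, by norm_num⟩
    · exact ⟨2, by norm_num, by norm_num⟩
    · exact ⟨1, by norm_num, by norm_num⟩
  have h5 : Rec_deg ζ Φ X 5 ^ 5 = ⊥ := by
    refine Rec_path h _ 5 (fun t ht => ht.2) ?_
    intro i hi
    exact ⟨i, by omega, by omega⟩
  have hle : X ≤ Rec_deg ζ Φ X 1 + Rec_deg ζ Φ X 5 := by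
    intro x hx
    obtain ⟨y, hy, w, hw, h1, h2, rfl⟩ := h.split hx
    rw [Submodule.add_eq_sup]
    exact Submodule.add_mem_sup ⟨hy, h1⟩ ⟨hw, h2⟩
  have hcom : Commute (Rec_deg ζ Φ X 1) (Rec_deg ζ Φ X 5) :=
    Rec_comm_sub fun a ha b hb => hc a (hXS ha.1) b (hXS hb.1)
  have h9 : (Rec_deg ζ Φ X 1 + Rec_deg ζ Φ X 5) ^ 9 = 0 :=
    hcom.add_pow_eq_zero_of_add_le_succ_of_pow_eq_zero h1 h5 (by norm_num)
  have hX9 : X ^ 9 = ⊥ := by
    rw [eq_bot_iff]
    exact (pow_le_pow_left' hle 9).trans h9.le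
  have hn : (⊤ : Submodule O A) * X ≤ X * ⊤ := by
    apply Rec_norm h X
    · intro x hx
      have e : Φ * x = (Φ * x * Ψ) * Φ := by rw [mul_assoc _ Ψ Φ, h.qp, mul_one]
      rw [e]
      exact Submodule.mul_mem_mul (h.hx x hx) trivial
    · intro z hz x hx
      rw [hc z (hZS hz) x (hXS hx)]
      exact Submodule.mul_mem_mul hx trivial
    · intro y hy x hx
      rw [hc y (hXS hy) x (hXS hx)]
      exact Submodule.mul_mem_mul hx trivial
  rw [eq_bot_iff]
  refine (Rec_ideal_pow X hn 9).trans ?_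
  rw [hX9, Submodule.bot_mul]

private theorem Rec_derL_ideal {S : Submodule O A} (hS : IsLie S) (k : ℕ) :
    ∀ s ∈ S, ∀ p ∈ derL k S, s * p - p * s ∈ derL k S := by
  induction k with
  | zero => exact fun s hs p hp => hS s hs p hp
  | succ k ih =>
    intro s hs p hp
    change p ∈ Submodule.span O _ at hp
    induction hp using Submodule.span_induction with
    | mem p hp =>
      obtain ⟨a, ha, b, hb, rfl⟩ := hp
      have e : s * (a * b - b * a) - (a * b - b * a) * s =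
          ((s * a - a * s) * b - b * (s * a - a * s)) +
          (a * (s * b - b * s) - (s * b - b * s) * a) := by noncomm_ring
      rw [e]
      exact Submodule.add_mem _ (Submodule.subset_span ⟨_, ih s hs a ha, b, hb, rfl⟩)
        (Submodule.subset_span ⟨a, ha, _, ih s hs b hb, rfl⟩)
    | zero => rw [mul_zero, zero_mul, sub_zero]; exact Submodule.zero_mem _
    | add a b _ _ h1 h2 =>
      have e : s * (a + b) - (a + b) * s = (s * a - a * s) + (s * b - b * s) := by noncomm_ring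
      rw [e]
      exact Submodule.add_mem _ h1 h2
    | smul r a _ h1 =>
      rw [mul_smul_comm, smul_mul_assoc, ← smul_sub]
      exact Submodule.smul_mem _ _ h1

private theorem Rec_derL_le {S : Submodule O A} (hS : IsLie S) (k : ℕ) : derL k S ≤ S := by
  induction k with
  | zero => exact le_rfl
  | succ k ih =>
    show Submodule.span O _ ≤ _
    rw [Submodule.span_le]
    rintro _ ⟨a, ha, b, hb, rfl⟩
    exact hS a (ih ha) b (ih hb)

private theorem Rec_derL_one {S : Submodule O A} (hS : IsLie S) (k : ℕ) (hk : 1 ≤ k) :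
    derL k S ≤ derL 1 S := by
  induction k, hk using Nat.le_induction with
  | base => exact le_rfl
  | succ k _ _ =>
    show Submodule.span O _ ≤ _
    rw [Submodule.span_le]
    rintro _ ⟨a, ha, b, hb, rfl⟩
    exact Submodule.subset_span ⟨a, Rec_derL_le hS k ha, b, Rec_derL_le hS k hb, rfl⟩

private theorem Rec_conj_mul (h : Sys ζ Φ Ψ Z X) (a b : A) :
    Φ * (a * b) * Ψ = (Φ * a * Ψ) * (Φ * b * Ψ) := by
  have : (Φ * a * Ψ) * (Φ * b * Ψ) = Φ * a * (Ψ * Φ) * b * Ψ := by simp only [mul_assoc]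
  rw [this, h.qp, mul_one]
  simp only [mul_assoc]

private theorem Rec_derL_conj (h : Sys ζ Φ Ψ Z X) {S : Submodule O A}
    (hS : ∀ a ∈ S, Φ * a * Ψ ∈ S) (k : ℕ) : ∀ a ∈ derL k S, Φ * a * Ψ ∈ derL k S := by
  induction k with
  | zero => exact hS
  | succ k ih =>
    intro p hp
    change p ∈ Submodule.span O _ at hp
    induction hp using Submodule.span_induction with
    | mem p hp =>
      obtain ⟨a, ha, b, hb, rfl⟩ := hp
      rw [mul_sub, sub_mul, Rec_conj_mul h, Rec_conj_mul h]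
      exact Submodule.subset_span ⟨_, ih a ha, _, ih b hb, rfl⟩
    | zero => rw [mul_zero, zero_mul]; exact Submodule.zero_mem _
    | add a b _ _ h1 h2 =>
      rw [mul_add, add_mul]
      exact Submodule.add_mem _ h1 h2
    | smul r a _ h1 =>
      rw [mul_smul_comm, smul_mul_assoc]
      exact Submodule.smul_mem _ _ h1

private theorem Rec_ideal_left (b : Submodule O A) (a k : A)
    (hk : k ∈ (⊤ : Submodule O A) * b * ⊤) : a * k ∈ (⊤ : Submodule O A) * b * ⊤ := by
  have h1 : a * k ∈ ⊤ * ((⊤ : Submodule O A) * b * ⊤) := Submodule.mul_mem_mul trivial hk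
  have e : (⊤ : Submodule O A) * (⊤ * b * ⊤) = ⊤ * b * ⊤ := by
    rw [← mul_assoc, ← mul_assoc, Rec_top_mul_top]
  rwa [e] at h1

private theorem Rec_ideal_right (b : Submodule O A) (a k : A)
    (hk : k ∈ (⊤ : Submodule O A) * b * ⊤) : k * a ∈ (⊤ : Submodule O A) * b * ⊤ := by
  have h1 : k * a ∈ ((⊤ : Submodule O A) * b * ⊤) * ⊤ := Submodule.mul_mem_mul hk trivial
  rwa [mul_assoc, Rec_top_mul_top] at h1

private theorem Rec_derL_one_le (h : Sys ζ Φ Ψ Z X) :
    derL 1 (LC (Z ⊔ X)) ≤ (⊤ : Submodule O A) * X * ⊤ := by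
  have hzz : ∀ z ∈ Z, ∀ z' ∈ Z, z * z' - z' * z = 0 := by
    intro z hz z' hz'
    have h1 : Hom ζ Φ 0 (z * z' - z' * z) :=
      ((h.homZ hz).comm (h.homZ hz')).mod h.prim (by norm_num)
    refine h1.zero h (h.tr _ ?_)
    exact LC_lie _ z (le_LC _ (Submodule.mem_sup_left hz)) z' (le_LC _ (Submodule.mem_sup_left hz'))
  have key : ∀ a ∈ Z ⊔ ((⊤ : Submodule O A) * X * ⊤), ∀ b ∈ Z ⊔ ((⊤ : Submodule O A) * X * ⊤),
      a * b - b * a ∈ (⊤ : Submodule O A) * X * ⊤ := by
    intro a ha b hb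
    obtain ⟨z, hz, j, hj, rfl⟩ := Submodule.mem_sup.1 ha
    obtain ⟨z', hz', j', hj', rfl⟩ := Submodule.mem_sup.1 hb
    have e : (z + j) * (z' + j') - (z' + j') * (z + j) = (z * z' - z' * z) +
        ((z * j' - j' * z) + (j * z' - z' * j) + (j * j' - j' * j)) := by noncomm_ring
    rw [e, hzz z hz z' hz', zero_add]
    refine Submodule.add_mem _ (Submodule.add_mem _ ?_ ?_) ?_
    · exact Submodule.sub_mem _ (Rec_ideal_left X z j' hj') (Rec_ideal_right X z j' hj')
    · exact Submodule.sub_mem _ (Rec_ideal_right X z' j hj) (Rec_ideal_left X z' j hj)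
    · exact Submodule.sub_mem _ (Rec_ideal_left X j j' hj') (Rec_ideal_left X j' j hj)
  have hle : LC (Z ⊔ X) ≤ Z ⊔ ((⊤ : Submodule O A) * X * ⊤) := by
    apply LC_le
    · intro a ha b hb
      exact Submodule.mem_sup_right (key a ha b hb)
    · exact sup_le_sup_left (Rec_le_ideal X) Z
  show Submodule.span O _ ≤ _
  rw [Submodule.span_le]
  rintro _ ⟨a, ha, b, hb, rfl⟩
  exact key a (hle ha) b (hle hb)

private theorem Rec_map_ideal {B : Type} [Ring B] [Algebra O B] (f : A →ₐ[O] B)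
    (b : Submodule O A) (k : ℕ) :
    (((⊤ : Submodule O A) * b * ⊤) ^ k).map f.toLinearMap ≤
      ((⊤ : Submodule O B) * b.map f.toLinearMap * ⊤) ^ k := by
  have e : (((⊤ : Submodule O A) * b * ⊤) ^ k).map f.toLinearMap =
      ((((⊤ : Submodule O A) * b * ⊤)).map f.toLinearMap) ^ k := Submodule.map_pow _ _ _
  rw [e]
  apply pow_le_pow_left'
  rw [Submodule.map_mul, Submodule.map_mul]
  exact mul_le_mul' (mul_le_mul' le_top le_rfl) le_top

theorem lieB_succ (d M : ℕ) (hd : 1 ≤ d) (IH : LieB d M) : LieB (d + 1) (M * 18 ^ M) := by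
  intro O A _ _ _ ζ Φ Ψ Z X h hd1
  have hSL : IsLie (LC (Z ⊔ X)) := LC_lie _
  have hXS : X ≤ LC (Z ⊔ X) := le_sup_right.trans (le_LC _)
  have hZS : Z ≤ LC (Z ⊔ X) := le_sup_left.trans (le_LC _)
  set S := LC (Z ⊔ X) with hS
  set P := derL d S with hP
  have hPS : P ≤ S := Rec_derL_le hSL d
  have hPJ : P ≤ (⊤ : Submodule O A) * X * ⊤ :=
    (Rec_derL_one hSL d hd).trans (Rec_derL_one_le h)
  have hPc : ∀ a ∈ P, ∀ b ∈ P, a * b = b * a := by
    intro a ha b hb
    have h1 : a * b - b * a ∈ derL (d + 1) S := Submodule.subset_span ⟨a, ha, b, hb, rfl⟩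
    rw [hd1, Submodule.mem_bot] at h1
    exact sub_eq_zero.1 h1
  obtain ⟨a, ha0, haM, hanti, haz, hax, haΦ⟩ := adM IH h P
    (fun z hz p hp => Rec_derL_ideal hSL d z (hZS hz) p hp)
    (fun x hx p hp => Rec_derL_ideal hSL d x (hXS hx) p hp)
    (Rec_derL_conj h h.lc_stab d) (fun p hp => h.tr p (hPS hp)) hPc
  have haP : ∀ i, a i ≤ P := by
    intro i
    induction i with
    | zero => exact ha0.le
    | succ i ih => exact (hanti i).trans ih
  -- the descending induction
  have claim : ∀ i, i ≤ M → ((⊤ : Submodule O A) * a (M - i) * ⊤) ^ (18 ^ i) = ⊥ := by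
    intro i
    induction i with
    | zero =>
      intro _
      rw [Nat.sub_zero, haM, Submodule.mul_bot, Submodule.bot_mul, pow_zero, pow_one]
    | succ i ih =>
      intro hi
      have ih' := ih (by omega)
      obtain ⟨j, hj⟩ : ∃ j, j = M - (i + 1) := ⟨_, rfl⟩
      have hj1 : M - i = j + 1 := by omega
      rw [← hj]
      rw [hj1] at ih'
      obtain ⟨B, _, _, f, hf, hk⟩ := exists_quot ((⊤ : Submodule O A) * a (j + 1) * ⊤)
        (fun x k hk => Rec_ideal_left _ x k hk) (fun x k hk => Rec_ideal_right _ x k hk)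
      have h' := h.map f hf
      have hab := abel h' ((a j).map f.toLinearMap) ?_ ?_ ?_ ?_ ?_ ?_
      · have h1 : ((⊤ : Submodule O A) * a j * ⊤) ^ 18 ≤ (⊤ : Submodule O A) * a (j + 1) * ⊤ := by
          intro x hx
          have h2 : f x ∈ ((⊤ : Submodule O B) * (a j).map f.toLinearMap * ⊤) ^ 18 :=
            Rec_map_ideal f (a j) 18 ⟨x, hx, rfl⟩
          rw [hab, Submodule.mem_bot] at h2
          exact (hk x).1 h2
        rw [eq_bot_iff, ← ih', pow_succ, mul_comm, pow_mul]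
        exact pow_le_pow_left' h1 _
      · rw [← Submodule.map_sup, ← LC_map]
        exact Submodule.map_mono ((haP j).trans hPS)
      · refine (Submodule.map_mono ((haP j).trans hPJ)).trans ?_
        have := Rec_map_ideal f X 1
        rwa [pow_one, pow_one] at this
      · rintro _ ⟨z, hz, rfl⟩ _ ⟨β, hβ, rfl⟩
        exact ⟨z * β - β * z, haz j z hz β hβ, by simp⟩
      · rintro _ ⟨x, hx, rfl⟩ _ ⟨β, hβ, rfl⟩
        have h2 : f (x * β - β * x) = 0 := (hk _).2 (Rec_le_ideal _ (hax j x hx β hβ))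
        rw [map_sub, map_mul, map_mul] at h2
        exact sub_eq_zero.1 h2
      · rintro _ ⟨β, hβ, rfl⟩
        exact ⟨Φ * β * Ψ, haΦ j β hβ, by simp⟩
      · rintro _ ⟨β, hβ, rfl⟩ _ ⟨γ, hγ, rfl⟩
        have h2 := congrArg f (hPc β (haP j hβ) γ (haP j hγ))
        rw [map_mul, map_mul] at h2
        exact h2
  have hK : ((⊤ : Submodule O A) * P * ⊤) ^ (18 ^ M) = ⊥ := by
    have := claim M le_rfl
    rwa [Nat.sub_self, ha0] at this
  obtain ⟨B, _, _, f, hf, hk⟩ := exists_quot ((⊤ : Submodule O A) * P * ⊤)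
    (fun x k hk => Rec_ideal_left _ x k hk) (fun x k hk => Rec_ideal_right _ x k hk)
  have h' := h.map f hf
  have h1 : derL d (LC (Z.map f.toLinearMap ⊔ X.map f.toLinearMap)) = ⊥ := by
    rw [← Submodule.map_sup, ← LC_map, ← derL_map, eq_bot_iff]
    rintro _ ⟨p, hp, rfl⟩
    rw [Submodule.mem_bot]
    exact (hk p).2 (Rec_le_ideal P hp)
  have h2 := IH O B ζ (f Φ) (f Ψ) _ _ h' h1
  have h3 : ((⊤ : Submodule O A) * X * ⊤) ^ M ≤ (⊤ : Submodule O A) * P * ⊤ := by
    intro x hx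
    have h4 : f x ∈ ((⊤ : Submodule O B) * X.map f.toLinearMap * ⊤) ^ M :=
      Rec_map_ideal f X M ⟨x, hx, rfl⟩
    rw [h2, Submodule.mem_bot] at h4
    exact (hk x).1 h4
  rw [eq_bot_iff, ← hK, pow_mul]
  exact pow_le_pow_left' h3 _

/-- conjugation by `Φ` as an algebra homomorphism -/
private def Rec_conj (h : Sys ζ Φ Ψ Z X) : A →ₐ[O] A where
  toFun a := Φ * a * Ψ
  map_one' := by rw [mul_one, h.pq]
  map_mul' a b := Rec_conj_mul h a b
  map_zero' := by rw [mul_zero, zero_mul]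
  map_add' a b := by rw [mul_add, add_mul]
  commutes' r := by
    show Φ * algebraMap O A r * Ψ = _
    rw [← Algebra.commutes, mul_assoc, h.pq, mul_one]

/-- the Lie lemma: words with at least `M` letters `X` vanish -/
theorem lieSix : ∃ M : ℕ, 0 < M ∧ ∀ (O A : Type) [CommRing O] [Ring A] [Algebra O A] (ζ : O)
    (Φ Ψ : A) (Z X : Submodule O A), Sys ζ Φ Ψ Z X → ((⊤ : Submodule O A) * X * ⊤) ^ M = ⊥ := by
  have h1 : ∀ d : ℕ, ∃ M : ℕ, 0 < M ∧ LieB (d + 1) M := by
    intro d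
    induction d with
    | zero => exact ⟨9, by norm_num, lieB_one⟩
    | succ d ih =>
      obtain ⟨M, hM, h⟩ := ih
      exact ⟨M * 18 ^ M, by positivity, lieB_succ (d + 1) M (by omega) h⟩
  obtain ⟨M, hM, h31⟩ := h1 30
  refine ⟨M, hM, ?_⟩
  intro O A _ _ _ ζ Φ Ψ Z X h
  refine h31 O A ζ Φ Ψ Z X h ?_
  have hit : ∀ (j : ℕ) (a : A), (⇑(Rec_conj h))^[j] a = Φ ^ j * a * Ψ ^ j := by
    intro j
    induction j with
    | zero => intro a; simp
    | succ j ih =>
      intro a
      rw [Function.iterate_succ_apply', ih, pow_succ' Φ j, pow_succ Ψ j]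
      show Φ * (Φ ^ j * a * Ψ ^ j) * Ψ = _
      simp only [mul_assoc]
  have h6 := h.six
  have h6' : Ψ ^ 6 = 1 := by
    rw [h.psi, ← pow_mul, show 5 * 6 = 6 * 5 by norm_num, pow_mul, h.six, one_pow]
  have hk := kreknin 6 ζ h.prim (Rec_conj h) (fun a => by rw [hit, h6, h6', one_mul, mul_one])
    (LC (Z ⊔ X)) (LC_lie _) h.lc_stab (fun a ha => by
      rw [Finset.sum_congr rfl fun j _ => hit j a]
      exact h.tr a ha)
  exact hk

end Pool.Agent.OrdS
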