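import Pool.Agent.OrdS.Three
import Pool.Agent.OrdS.Key6
import Pool.Agent.OrdS.Grp

/-!
# Groups with a fixed-point-free automorphism of order 6

`six`: order prime to 6. `exists_YN`; `G / Y` has an automorphism with `φ³ = 1` and the splitting identity of
length 3, so `derG 3 ⊤ ≤ Y` (`three`, quotient map as in `LgP/Main.lean`, `level`). `Y / N` is abelian
(`φ` is inversion on it: `⁅y, z⁆ ∈ N` for `y z ∈ Y`), so `derG 4 ⊤ ≤ N`. `K = derG (4 + r) ⊤ ≤ derG r N`; `gamma` for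
`K` with `H = ⁅K, K⁆` in `key6`: `derG (6 + r) ⊤ = ⊥`.
-/

set_option autoImplicit false

open scoped commutatorElement

namespace Pool.Agent.OrdS

open Pool.Agent.LgP

private theorem Six_comm {G : Type} [Group G] (φ : G →* G) (Y N : Subgroup G)
    (h1 : ∀ y ∈ Y, φ y * y ∈ N) (h2 : ∀ y ∈ Y, ∀ n ∈ N, y * n * y⁻¹ ∈ N) :
    ⁅Y, Y⁆ ≤ N := by
  have h3 : ∀ y ∈ Y, ∀ z ∈ Y, y⁻¹ * z⁻¹ * y * z ∈ N := by
    intro y hy z hz
    have h4 := h1 (y * z) (Y.mul_mem hy hz)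
    have h5 := h1 y hy
    have h6 := h2 y⁻¹ (Y.inv_mem hy) _ (h1 z hz)
    rw [inv_inv] at h6
    have h7 : y⁻¹ * z⁻¹ * y * z =
        (y⁻¹ * (φ z * z) * y)⁻¹ * ((φ y * y)⁻¹ * (φ (y * z) * (y * z))) := by
      rw [map_mul]
      group
    rw [h7]
    exact N.mul_mem (N.inv_mem h6) (N.mul_mem (N.inv_mem h5) h4)
  rw [Subgroup.commutator_le]
  intro y hy z hz
  have h4 := h3 y⁻¹ (Y.inv_mem hy) z⁻¹ (Y.inv_mem hz)
  rw [inv_inv, inv_inv] at h4
  exact h4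

private theorem Six_quot {G : Type} [Group G] [Finite G] [Group.IsNilpotent G]
    (hco : Nat.Coprime 6 (Nat.card G)) (φ : G →* G) (Y : Subgroup G) (hY : Y.Normal)
    (hc : ∀ y ∈ Y, φ y ∈ Y) (h3 : ∀ g, g⁻¹ * (⇑φ)^[3] g ∈ Y)
    (hs : ∀ g, g * φ g * φ (φ g) ∈ Y) : derG 3 (⊤ : Subgroup G) ≤ Y := by
  have hcY : Y ≤ Y.comap φ := hc
  have hdvd : Nat.card (G ⧸ Y) ∣ Nat.card G := Subgroup.card_quotient_dvd_card _
  have hco3 : Nat.Coprime 3 (Nat.card (G ⧸ Y)) :=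
    Nat.Coprime.coprime_dvd_right hdvd (Nat.Coprime.coprime_dvd_left (by norm_num) hco)
  have hit : ∀ (j : ℕ) (g : G), (⇑(QuotientGroup.map _ _ φ hcY))^[j] (g : G ⧸ Y) =
      (((⇑φ)^[j] g : G) : G ⧸ Y) := by
    intro j g
    induction j with
    | zero => rfl
    | succ j ihj =>
      rw [Function.iterate_succ_apply', ihj, Function.iterate_succ_apply']
      rfl
  have hq : derG 3 (⊤ : Subgroup (G ⧸ Y)) = ⊥ := by
    refine three hco3 (QuotientGroup.map _ _ φ hcY) ?_ ?_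
    · intro g
      obtain ⟨g, rfl⟩ := QuotientGroup.mk_surjective g
      rw [hit]
      exact ((QuotientGroup.eq (s := Y)).2 (h3 g)).symm
    · intro g
      obtain ⟨g, rfl⟩ := QuotientGroup.mk_surjective g
      have h4 : ((g * φ g * φ (φ g) : G) : G ⧸ Y) = 1 := (QuotientGroup.eq_one_iff _).2 (hs g)
      have h5 : (List.range 3) = [0, 1, 2] := rfl
      rw [h5, List.map_cons, List.map_cons, List.map_cons, List.map_nil, List.prod_cons,
        List.prod_cons, List.prod_cons, List.prod_nil, mul_one, hit, hit, hit, ← mul_assoc]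
      exact h4
  intro g hg
  have h2 : QuotientGroup.mk' Y g ∈ (derG 3 (⊤ : Subgroup G)).map (QuotientGroup.mk' Y) :=
    Subgroup.mem_map_of_mem _ hg
  rw [derG_map'] at h2
  have h4 := derG_mono 3 (le_top : (⊤ : Subgroup G).map (QuotientGroup.mk' Y) ≤ ⊤) h2
  rw [hq, Subgroup.mem_bot] at h4
  exact (QuotientGroup.eq_one_iff g).1 h4

theorem six : ∃ d : ℕ, ∀ (G : Type) [Group G] [Finite G] [Group.IsNilpotent G],
    Nat.Coprime 6 (Nat.card G) → ∀ (φ : G →* G), (∀ g, (⇑φ)^[6] g = g) → Split 6 φ →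
    derG d (⊤ : Subgroup G) = ⊥ := by
  obtain ⟨r, hr⟩ := key6
  refine ⟨r + 4 + 1 + 1, ?_⟩
  intro G _ _ _ hco φ hφ hS
  obtain ⟨Y, N, hYn, hNY, hYc, hY3, hYs, hYN, hNc, hNN⟩ := exists_YN hco φ hφ hS
  have h3 : derG 3 (⊤ : Subgroup G) ≤ Y := Six_quot hco φ Y hYn hYc hY3 hYs
  have h4 : derG 4 (⊤ : Subgroup G) ≤ N := by
    show ⁅derG 3 (⊤ : Subgroup G), derG 3 (⊤ : Subgroup G)⁆ ≤ N
    exact (Subgroup.commutator_mono h3 h3).trans (Six_comm φ Y N hYN hNc)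
  have h5 : derG (r + 4) (⊤ : Subgroup G) ≤ derG r N := by
    rw [← derG_add]
    exact derG_mono r h4
  have hKn : (derG (r + 4) (⊤ : Subgroup G)).Normal := derG_normal _ _ inferInstance
  have hKc : ∀ h ∈ ⁅derG (r + 4) (⊤ : Subgroup G), derG (r + 4) (⊤ : Subgroup G)⁆,
      φ h ∈ ⁅derG (r + 4) (⊤ : Subgroup G), derG (r + 4) (⊤ : Subgroup G)⁆ :=
    derG_inv φ (r + 4 + 1) ⊤ (fun h _ => Subgroup.mem_top _)
  refine gamma (derG (r + 4) (⊤ : Subgroup G)) hKn ?_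
  intro g hg a ha
  exact hr G hco φ hφ hS Y N hNY hYc hYN hNN
    ⁅derG (r + 4) (⊤ : Subgroup G), derG (r + 4) (⊤ : Subgroup G)⁆
    (Subgroup.commutator_normal _ _) hKc g (h5 hg) a ha

end Pool.Agent.OrdS
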