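import Pool.Agent.OrdS.Six
import Pool.Agent.RegA.NilB

/-!
# All finite nilpotent groups with a fixed-point-free automorphism of order 6

`sixAll`: the Sylow subgroups as in `RegA/NilB.lean` (`nilp'`). For `p = 3`, `nil_sylow'` applies (`3 ≡ 1` modulo
`6 / 3 = 2`). For `p = 2`, `fpf_pow` with `a = 1` shows that `φ²` is fixed-point-free on the Sylow subgroup, and
`three` applies. For `p ≥ 5`, `six` applies.
-/

set_option autoImplicit false

open scoped commutatorElement

namespace Pool.Agent.OrdS

open Pool.Agent.LgP Pool.Agent.RegA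

private theorem sixAll_der {G : Type} [Group G] {a b : ℕ} (h : derivedSeries G a = ⊥) (hab : a ≤ b) :
    derivedSeries G b = ⊥ :=
  le_bot_iff.1 (h ▸ derivedSeries_antitone G hab)

private theorem sixAll_fac : 6 / 3 ^ Nat.factorization 6 3 = 2 := by
  have h : Nat.factorization 6 3 = 1 := by
    rw [show (6 : ℕ) = 2 * 3 from rfl, Nat.factorization_mul (by norm_num) (by norm_num),
      Finsupp.add_apply, Nat.Prime.factorization_self Nat.prime_three,
      Nat.factorization_eq_zero_of_not_dvd (by norm_num)]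
  rw [h]
  rfl

/-- the case `p = 2` -/
private theorem sixAll_two {P : Type} [Group P] [Finite P] (hP : IsPGroup 2 P) (θ : P ≃* P)
    (hθ : ∀ g, (⇑θ)^[6] g = g) (hfix : ∀ g : P, θ g = g → g = 1) : derivedSeries P 3 = ⊥ := by
  have : Fact (Nat.Prime 2) := ⟨Nat.prime_two⟩
  have : Group.IsNilpotent P := hP.isNilpotent
  obtain ⟨k, hk⟩ := IsPGroup.iff_card.1 hP
  let ψ : P →* P := θ.toMonoidHom.comp θ.toMonoidHom
  have hψ : ∀ x, ψ x = θ (θ x) := fun _ => rfl
  have h1 : ∀ g, (⇑ψ)^[3] g = g := fun g => hθ g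
  have h2 : ∀ g, ψ g = g → g = 1 := by
    intro g hg
    exact fpf_pow (p := 2) P hP θ hfix 1 g hg
  have h3 : Split 3 ψ := split_of_fpf 3 ψ h1 h2
  have h4 : Nat.Coprime 3 (Nat.card P) := by
    rw [hk]
    exact Nat.Coprime.pow_right k (by norm_num)
  rw [← derG_derivedSeries]
  exact three h4 ψ h1 h3

theorem sixAll : ∃ d : ℕ, ∀ (G : Type) [Group G] [Finite G] [Group.IsNilpotent G] (φ : MulAut G),
    φ ^ 6 = 1 → (∀ g : G, φ g = g → g = 1) → derivedSeries G d = ⊥ := by
  obtain ⟨d, hd⟩ := six
  refine ⟨max d (max 3 ((3 ^ (6 - 1) - 1) / 2)), ?_⟩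
  intro G _ _ hnil φ hφ hfix
  obtain ⟨E⟩ := ((Group.isNilpotent_of_finite_tfae (G := G)).out 0 4).1 hnil
  have hnorm := ((Group.isNilpotent_of_finite_tfae (G := G)).out 0 3).1 hnil
  have hit : ∀ (c : ℕ) (x : G), (⇑φ)^[c] x = (φ ^ c) x := by
    intro c
    induction c with
    | zero =>
      intro x
      rfl
    | succ c ih =>
      intro x
      rw [Function.iterate_succ_apply, ih, pow_succ]
      rfl
  have hsyl : ∀ (p : ℕ), p.Prime → ∀ P : Sylow p G,
      derivedSeries (P : Subgroup G) (max d (max 3 ((3 ^ (6 - 1) - 1) / 2))) = ⊥ := by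
    intro p hpp P
    have : Fact p.Prime := ⟨hpp⟩
    have hP : (P : Subgroup G).Normal := hnorm p inferInstance P
    have hch : (P : Subgroup G).Characteristic := P.characteristic_of_normal hP
    have hmap : (P : Subgroup G).map (φ : G →* G) = P :=
      Subgroup.characteristic_iff_map_eq.1 hch φ
    have hres : ∀ (c : ℕ) (x : (P : Subgroup G)),
        (((⇑(resA φ (P : Subgroup G) hmap))^[c] x : (P : Subgroup G)) : G) =
          (⇑φ)^[c] (x : G) := by
      intro c
      induction c with
      | zero =>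
        intro x
        rfl
      | succ c ih =>
        intro x
        rw [Function.iterate_succ_apply, Function.iterate_succ_apply, ih, resA_apply]
    have h6 : ∀ g, (⇑(resA φ (P : Subgroup G) hmap))^[6] g = g := by
      intro g
      apply Subtype.ext
      rw [hres, hit, hφ]
      rfl
    have hf : ∀ g, resA φ (P : Subgroup G) hmap g = g → g = 1 := by
      intro g hg
      apply Subtype.ext
      apply hfix
      rw [← resA_apply φ (P : Subgroup G) hmap g]
      exact congrArg (Subtype.val) hg
    by_cases h2 : p = 2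
    · subst h2
      exact sixAll_der (sixAll_two P.isPGroup' (resA φ (P : Subgroup G) hmap) h6 hf)
        ((le_max_left _ _).trans (le_max_right _ _))
    by_cases h3 : p = 3
    · subst h3
      refine sixAll_der (nil_sylow' 6 (by norm_num) G φ hφ hfix 3 ?_ P hP)
        ((le_max_right _ _).trans (le_max_right _ _))
      rw [sixAll_fac]
      rfl
    · have : Group.IsNilpotent (P : Subgroup G) := P.isPGroup'.isNilpotent
      obtain ⟨k, hk⟩ := IsPGroup.iff_card.1 P.isPGroup'
      have hco : Nat.Coprime 6 (Nat.card (P : Subgroup G)) := by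
        rw [hk]
        refine Nat.Coprime.pow_right k ?_
        rw [Nat.coprime_comm, Nat.Prime.coprime_iff_not_dvd hpp]
        intro h
        have h' : p ∣ 2 * 3 := h
        rcases (Nat.Prime.dvd_mul hpp).1 h' with h4 | h4
        · exact h2 ((Nat.prime_dvd_prime_iff_eq hpp Nat.prime_two).1 h4)
        · exact h3 ((Nat.prime_dvd_prime_iff_eq hpp Nat.prime_three).1 h4)
      have h4 := hd (P : Subgroup G) hco (resA φ (P : Subgroup G) hmap).toMonoidHom h6
        (split_of_fpf 6 _ h6 hf)
      rw [derG_derivedSeries] at h4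
      exact sixAll_der h4 (le_max_left _ _)
  rw [eq_bot_iff]
  intro x hx
  have h1 : E.symm x = 1 := by
    funext p P
    have hpp : (p : ℕ).Prime := Nat.prime_of_mem_primeFactors p.2
    have h2 := hsyl p hpp P
    set f : G →* (P : Subgroup G) :=
      ((Pi.evalMonoidHom (fun P : Sylow (p : ℕ) G => (P : Subgroup G)) P).comp
        (Pi.evalMonoidHom (fun p : (Nat.card G).primeFactors =>
          ∀ P : Sylow (p : ℕ) G, (P : Subgroup G)) p)).comp E.symm.toMonoidHom with hf
    have h3 : f x ∈ derivedSeries (P : Subgroup G) (max d (max 3 ((3 ^ (6 - 1) - 1) / 2))) :=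
      map_derivedSeries_le_derivedSeries f _ ⟨x, hx, rfl⟩
    rw [h2] at h3
    exact Subgroup.mem_bot.1 h3
  rw [Subgroup.mem_bot]
  have h4 : E (E.symm x) = E 1 := by rw [h1]
  rw [MulEquiv.apply_symm_apply, map_one] at h4
  exact h4

end Pool.Agent.OrdS
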