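import Pool.Agent.OrdS.Act
import Pool.Agent.OrdS.Fil3
import Pool.Agent.LgP.Key
import Pool.Agent.LgP.Main

/-!
# Groups with a splitting automorphism of order 3
-/

set_option autoImplicit false

open scoped commutatorElement

namespace Pool.Agent.OrdS

open Pool.Agent.LgP

open Polynomial in
private theorem Three_natDegree : ((X ^ 2 + X + 1 : ℤ[X])).natDegree = 2 := by
  compute_degree!

open Polynomial in
private theorem Three_pw {G : Type} [Group G] (φ : G →* G) (hS : Split 3 φ) (g : G) :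
    pw φ (X ^ 2 + X + 1 : ℤ[X]) g = 1 := by
  have h0 : (X ^ 2 + X + 1 : ℤ[X]).coeff 0 = 1 := by
    simp [coeff_X, coeff_one]
  have h1 : (X ^ 2 + X + 1 : ℤ[X]).coeff 1 = 1 := by
    simp [coeff_X, coeff_one, coeff_X_pow]
  have h2 : (X ^ 2 + X + 1 : ℤ[X]).coeff 2 = 1 := by
    simp [coeff_X, coeff_one, coeff_X_pow]
  have h3 := hS g
  unfold pw
  rw [Three_natDegree]
  have hr : List.range (2 + 1) = [0, 1, 2] := rfl
  have hr' : List.range 3 = [0, 1, 2] := rfl
  rw [hr'] at h3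
  rw [hr]
  simp only [List.map_cons, List.map_nil, h0, h1, h2, zpow_one]
  exact h3

/-- order 3: finite nilpotent groups of order prime to 3. For `H = ⁅K, K⁆`, `K = derG 1 ⊤`, `rep_exists` and
`vis3` give `(aug O ρ)^2 = 0`, so `derG 1 ⊤` acts trivially on `H^ab` (`derG_trivial` with `N = ⊤`); use `gamma`. -/
theorem three {G : Type} [Group G] [Finite G] [Group.IsNilpotent G]
    (hco : Nat.Coprime 3 (Nat.card G)) (φ : G →* G) (hφ : ∀ g, (⇑φ)^[3] g = g)
    (hS : Split 3 φ) : derG 3 (⊤ : Subgroup G) = ⊥ := by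
  have hKn : (derG 1 (⊤ : Subgroup G)).Normal := derG_normal 1 ⊤ inferInstance
  refine gamma (derG 1 (⊤ : Subgroup G)) hKn ?_
  have hHn : (derG 2 (⊤ : Subgroup G)).Normal := derG_normal 2 ⊤ inferInstance
  have hH : ∀ h ∈ derG 2 (⊤ : Subgroup G), φ h ∈ derG 2 (⊤ : Subgroup G) :=
    derG_inv φ 2 ⊤ (fun _ _ => Subgroup.mem_top _)
  obtain ⟨O, V, iO, iV, iM, ζ, ρ, Φ, Ψ, hP, -, -, h1, h2, h3, hρ, htriv, hK, hpoly⟩ :=
    rep_exists 3 (by norm_num) hco φ hφ (derG 2 (⊤ : Subgroup G)) hHn hH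
  have hsum : ∑ j ∈ Finset.range 3, Φ ^ j = 0 := by
    have h4 := hpoly (Polynomial.X ^ 2 + Polynomial.X + 1) (fun h _ => by
      rw [Three_pw φ hS h]
      exact Subgroup.one_mem _)
    simp only [map_add, map_pow, Polynomial.aeval_X, map_one] at h4
    rw [Finset.sum_range_succ, Finset.sum_range_succ, Finset.sum_range_one, pow_zero, pow_one]
    rw [← h4]
    abel
  have haug : (aug O ρ) ^ 2 = ⊥ :=
    vis3 O (Module.End O V) G ζ Φ Ψ ρ φ hP h1 h2 hsum (fun g => (hρ g).symm) hS hK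
  have hle : augS O ρ (⊤ : Subgroup G) ≤ aug O ρ := by
    unfold augS aug
    refine Submodule.span_mono ?_
    rintro u ⟨g, -, rfl⟩
    exact ⟨g, rfl⟩
  have haugS : (augS O ρ (⊤ : Subgroup G)) ^ 2 = ⊥ := by
    rw [eq_bot_iff, ← haug]
    exact pow_le_pow_left' hle 2
  have htr := derG_trivial ρ (⊤ : Subgroup G) 2 1 (by norm_num) haugS
  intro g hg a ha
  exact htriv g (htr g hg) a ha

end Pool.Agent.OrdS
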