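import Pool.Agent.OrdS.Idem

/-!
# Modules with two classes modulo 3

`word_pow`: `A` is generated by `Φ`, `Z`, `X`. Let `W` be the subalgebra generated by `Φ` and `Z`.
The sum over `k` of the submodules `(W X)^k W` is closed under products and contains all generators,
so it is everything. Hence `X ⊤ X ⊤ ⋯ X` (`m + 1` factors `X`) is the sum of the
`(X W)^k X` with `k ≥ m`, which is `0` if `(X W)^m X = 0`.

`twoClass`: assume moreover that `Φ` has no eigenvalue `ζ^3 = -1` (hypothesis `h3`), so that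
`ide ζ Φ 3 = 0` and also `ide ζ Φ 0 = 0`. Put `f1 = e_1 + e_4`, `f2 = e_2 + e_5` (`e_i = ide ζ Φ i`),
`f1 + f2 = 1`, orthogonal idempotents. Let `S = LC (Z ⊔ X)`; an element of `S` of degree `0` is `0`
(`Hom.zero`, `Sys.tr`). For `a` of degree `d`: `a f_i = f_(i+d) a` with `f_0 = 0` (indices modulo 3), so
* `d = 0` mod 3: `a` commutes with `f1`, `f2`;
* `d = 1` mod 3 (class one): `a = a f1 = f2 a`, `a f2 = 0`, `f1 a = 0`;
* `d = 2` mod 3 (class two): `a = a f2 = f1 a`, `a f1 = 0`, `f2 a = 0`.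
So the product of two elements of the same class (1 or 2), with any elements of degree divisible by 3 in between,
is `0`. For `x` in `S` of degree 1 and `y` in `S` of degree 5: `x y = y x` (the commutator has degree 0),
and `x y f1 = 0`, `x y f2 = y x f2 = 0`; so `x y = y x = 0`.
Elements of degree 3 in `S` commute with each other. Let `P` be the (commutative) subalgebra generated by the
elements of degree 3 of `S`, `WZ` the subalgebra generated by `Z` (so `WZ ≤ P`).
CLAIM: for `d` in `S` of class two, `c` in `S` of class one and `s ∈ WZ`: `d s c = p f1` with `p ∈ P`.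
(`s = 1`: `d c = d c f1 = (d c - c d) f1` because `d f1 = 0`, and `d c - c d` has degree 3 or 0.
`s z` instead of `s`: `d s z c = (d s c) z + d s (z c - c z)`, `z c - c z` is again of class one in `S`,
`f1 z = z f1`.) In the same way `c s d = p f2`.
Then for `x, x'` of degree 1, `y` of degree 5, all in `X`, and `s, s' ∈ WZ`:
`x s y s' x' = x s p f1 = x p s f1 = x p f1 s = x (y s' x') s = (x y) s' x' s = 0`;
in the same way `y s x s' y' = 0`; and `x s x' = 0 = y s y'`. By `Sys.split` therefore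
`X WZ X WZ X = 0`. `W = WZ * O[Φ]` and `O[Φ] X = X O[Φ]`, so `(X W)^2 X = 0`; use `word_pow`.
-/

set_option autoImplicit false

namespace Pool.Agent.OrdS

open Pool.Agent.LgP

variable {O A : Type} [CommRing O] [Ring A] [Algebra O A] {ζ : O} {Φ Ψ : A} {Z X : Submodule O A}

/-- the subalgebra generated by `Φ` and `Z`, as a submodule -/
def WW (O : Type) {A : Type} [CommRing O] [Ring A] [Algebra O A] (Φ : A) (Z : Submodule O A) :
    Submodule O A :=
  Subalgebra.toSubmodule (Algebra.adjoin O ({Φ} ∪ (Z : Set A)))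

private theorem Two_ml (P : Submodule O A) {Q R : Submodule O A} (h : Q ≤ R) : P * Q ≤ P * R :=
  mul_le_mul' le_rfl h

private theorem Two_mr (P : Submodule O A) {Q R : Submodule O A} (h : Q ≤ R) : Q * P ≤ R * P :=
  mul_le_mul' h le_rfl

private theorem Two_one_mem : (1 : A) ∈ WW O Φ Z := Subalgebra.one_mem _

private theorem Two_mul_mem {a b : A} (ha : a ∈ WW O Φ Z) (hb : b ∈ WW O Φ Z) :
    a * b ∈ WW O Φ Z := Subalgebra.mul_mem _ ha hb

private theorem Two_WW : WW O Φ Z * WW O Φ Z ≤ WW O Φ Z := by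
  rw [Submodule.mul_le]
  intro a ha b hb
  exact Two_mul_mem ha hb

/-- the sum of the `(W X)^k W` -/
private theorem Two_top (hgen : Algebra.adjoin O ({Φ} ∪ (Z : Set A) ∪ (X : Set A)) = ⊤) :
    (⊤ : Submodule O A) ≤ ⨆ k : ℕ, (WW O Φ Z * X) ^ k * WW O Φ Z := by
  have hW0 : WW O Φ Z ≤ ⨆ k : ℕ, (WW O Φ Z * X) ^ k * WW O Φ Z := by
    refine le_trans ?_ (le_iSup _ 0)
    rw [pow_zero, one_mul]
  have hmul : (⨆ k : ℕ, (WW O Φ Z * X) ^ k * WW O Φ Z) *
      (⨆ k : ℕ, (WW O Φ Z * X) ^ k * WW O Φ Z) ≤ ⨆ k : ℕ, (WW O Φ Z * X) ^ k * WW O Φ Z := by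
    rw [Submodule.iSup_mul]
    refine iSup_le fun k => ?_
    rw [Submodule.mul_iSup]
    refine iSup_le fun l => ?_
    refine le_trans ?_ (le_iSup _ (k + l))
    cases l with
    | zero =>
      rw [pow_zero, one_mul, add_zero, mul_assoc]
      exact Two_ml _ Two_WW
    | succ l =>
      have e : (WW O Φ Z * X) ^ k * WW O Φ Z * ((WW O Φ Z * X) ^ (l + 1) * WW O Φ Z) =
          (WW O Φ Z * X) ^ k * ((WW O Φ Z * WW O Φ Z) * (X * ((WW O Φ Z * X) ^ l * WW O Φ Z))) := by
        rw [pow_succ']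
        simp only [mul_assoc]
      have e2 : (WW O Φ Z * X) ^ (k + (l + 1)) * WW O Φ Z =
          (WW O Φ Z * X) ^ k * (WW O Φ Z * (X * ((WW O Φ Z * X) ^ l * WW O Φ Z))) := by
        rw [pow_add, pow_succ']
        simp only [mul_assoc]
      rw [e, e2]
      exact Two_ml _ (Two_mr _ Two_WW)
  let U : Subalgebra O A :=
    { carrier := {a | a ∈ ⨆ k : ℕ, (WW O Φ Z * X) ^ k * WW O Φ Z}
      mul_mem' := fun {a b} ha hb => hmul (Submodule.mul_mem_mul ha hb)
      add_mem' := fun {a b} ha hb => (⨆ k : ℕ, (WW O Φ Z * X) ^ k * WW O Φ Z).add_mem ha hb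
      algebraMap_mem' := fun r => hW0 (Subalgebra.algebraMap_mem _ r) }
  have hU : U = ⊤ := by
    rw [← top_le_iff, ← hgen]
    apply Algebra.adjoin_le
    rintro a ((ha | ha) | ha)
    · exact hW0 (Algebra.subset_adjoin (Or.inl ha))
    · exact hW0 (Algebra.subset_adjoin (Or.inr ha))
    · show a ∈ ⨆ k : ℕ, (WW O Φ Z * X) ^ k * WW O Φ Z
      refine (le_iSup (fun k : ℕ => (WW O Φ Z * X) ^ k * WW O Φ Z) 1) ?_
      rw [pow_one]
      have h1 := Submodule.mul_mem_mul (Submodule.mul_mem_mul (Two_one_mem (O := O) (Φ := Φ) (Z := Z))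
        ha) (Two_one_mem (O := O) (Φ := Φ) (Z := Z))
      rwa [one_mul, mul_one] at h1
  intro a _
  have : a ∈ U := by rw [hU]; trivial
  exact this

theorem word_pow (h : Sys ζ Φ Ψ Z X) (m : ℕ) (hm : (X * WW O Φ Z) ^ m * X = ⊥) :
    ((⊤ : Submodule O A) * X * ⊤) ^ (m + 1) = ⊥ := by
  have htop := Two_top h.gen
  have hP : ∀ j : ℕ, (X * ⊤) ^ j * X ≤ ⨆ k : ℕ, (X * WW O Φ Z) ^ (j + k) * X := by
    intro j
    induction j with
    | zero =>
      refine le_trans ?_ (le_iSup _ 0)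
      simp
    | succ j ih =>
      rw [pow_succ', mul_assoc]
      have h1 : X * (⊤ : Submodule O A) ≤ ⨆ k : ℕ, (X * WW O Φ Z) ^ (k + 1) := by
        refine le_trans (Two_ml _ htop) ?_
        rw [Submodule.mul_iSup]
        refine iSup_le fun k => ?_
        refine le_trans (le_of_eq ?_) (le_iSup _ k)
        clear hm ih
        induction k with
        | zero => simp
        | succ k ihk =>
          have e : X * ((WW O Φ Z * X) ^ (k + 1) * WW O Φ Z) =
            X * WW O Φ Z * (X * ((WW O Φ Z * X) ^ k * WW O Φ Z)) := by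
            rw [pow_succ']
            simp only [mul_assoc]
          rw [e, ihk, pow_succ' _ (k + 1)]
      refine le_trans (mul_le_mul' h1 ih) ?_
      rw [Submodule.iSup_mul]
      refine iSup_le fun k => ?_
      rw [Submodule.mul_iSup]
      refine iSup_le fun l => ?_
      refine le_trans (le_of_eq ?_) (le_iSup _ (k + l))
      rw [← mul_assoc, ← pow_add]
      congr 2
      ring
  have hQ : ∀ j : ℕ, ((⊤ : Submodule O A) * X * ⊤) ^ (j + 1) ≤ ⊤ * ((X * ⊤) ^ j * X) * ⊤ := by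
    intro j
    induction j with
    | zero => simp
    | succ j ih =>
      rw [pow_succ]
      refine le_trans (Two_mr _ ih) ?_
      have e : ⊤ * ((X * ⊤) ^ j * X) * ⊤ * (⊤ * X * ⊤) =
        ⊤ * ((X * ⊤) ^ j * (X * ((⊤ * ⊤) * (X * (⊤ : Submodule O A))))) := by
        simp only [mul_assoc]
      have e2 : ⊤ * ((X * ⊤) ^ (j + 1) * X) * ⊤ =
        ⊤ * ((X * ⊤) ^ j * (X * (⊤ * (X * (⊤ : Submodule O A))))) := by
        rw [pow_succ]
        simp only [mul_assoc]
      rw [e, e2]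
      exact Two_ml _ (Two_ml _ (Two_ml _ (Two_mr _ le_top)))
  have hR : (X * ⊤) ^ m * X = ⊥ := by
    rw [eq_bot_iff]
    refine le_trans (hP m) ?_
    refine iSup_le fun k => ?_
    rw [add_comm, pow_add, mul_assoc, hm, Submodule.mul_bot]
  rw [eq_bot_iff]
  refine le_trans (hQ m) ?_
  rw [hR, Submodule.mul_bot, Submodule.bot_mul]

private theorem Two_five {M1 M2 M3 M4 M5 : Submodule O A}
    (h : ∀ a ∈ M1, ∀ b ∈ M2, ∀ c ∈ M3, ∀ d ∈ M4, ∀ e ∈ M5, a * b * c * d * e = 0) :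
    M1 * M2 * M3 * M4 * M5 = ⊥ := by
  rw [eq_bot_iff, Submodule.mul_le]
  intro m hm e he
  rw [Submodule.mem_bot]
  refine Submodule.mul_induction_on (C := fun m => m * e = 0) hm ?_ ?_
  · intro m hm d hd
    refine Submodule.mul_induction_on (C := fun m => m * d * e = 0) hm ?_ ?_
    · intro m hm c hc
      refine Submodule.mul_induction_on (C := fun m => m * c * d * e = 0) hm ?_ ?_
      · intro a ha b hb
        exact h a ha b hb c hc d hd e he
      · intro x y hx hy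
        rw [add_mul, add_mul, add_mul, hx, hy, add_zero]
    · intro x y hx hy
      rw [add_mul, add_mul, hx, hy, add_zero]
  · intro x y hx hy
    rw [add_mul, hx, hy, add_zero]

/-- `f1` -/
private noncomputable def Two_f (ζ : O) (Φ : A) : A := ide ζ Φ 1 + ide ζ Φ 4

/-- `f2` -/
private noncomputable def Two_g (ζ : O) (Φ : A) : A := ide ζ Φ 2 + ide ζ Φ 5

private theorem Two_ide3 (h : Sys ζ Φ Ψ Z X)
    (h3 : ∑ j ∈ Finset.range 6, (-1 : A) ^ j * Φ ^ j = 0) : ide ζ Φ 3 = 0 := by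
  unfold ide
  have e : ∀ j, ζ ^ (5 * 3 * j) • Φ ^ j = (-1 : A) ^ j * Φ ^ j := by
    intro j
    have e1 : ζ ^ (5 * 3 * j) = (-1) ^ j := by
      rw [pow_mul]
      congr 1
      have : ζ ^ (5 * 3) = (ζ ^ 3) ^ 5 := by ring
      rw [this, h.zeta3]
      norm_num
    rw [e1, Algebra.smul_def, map_pow, map_neg, map_one]
  simp only [e]
  rw [h3, smul_zero]

section

variable (h : Sys ζ Φ Ψ Z X) (h3 : ∑ j ∈ Finset.range 6, (-1 : A) ^ j * Φ ^ j = 0)

include h h3

private theorem Two_fg : Two_f ζ Φ + Two_g ζ Φ = 1 := by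
  have h1 := ide_sum h
  simp only [Finset.sum_range_succ, Finset.sum_range_zero] at h1
  rw [ide_zero h, Two_ide3 h h3] at h1
  unfold Two_f Two_g
  rw [← h1]
  abel

/-- class one -/
private theorem Two_c1 {a : A} (ha : Hom ζ Φ 1 a ∨ Hom ζ Φ 4 a) :
    a * Two_g ζ Φ = 0 ∧ Two_f ζ Φ * a = 0 := by
  have e0 : ide ζ Φ 0 = 0 := ide_zero h
  have e3 := Two_ide3 h h3
  have key : a * Two_g ζ Φ = 0 ∧ a * Two_f ζ Φ = Two_g ζ Φ * a := by
    unfold Two_f Two_g
    rcases ha with ha | ha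
    · constructor
      · rw [mul_add, ha.ide h, ha.ide h, ide_congr h (show (2 + 1) % 6 = 3 % 6 by norm_num),
          ide_congr h (show (5 + 1) % 6 = 0 % 6 by norm_num), e0, e3, zero_mul, add_zero]
      · rw [mul_add, ha.ide h, ha.ide h, add_mul]
    · constructor
      · rw [mul_add, ha.ide h, ha.ide h, ide_congr h (show (2 + 4) % 6 = 0 % 6 by norm_num),
          ide_congr h (show (5 + 4) % 6 = 3 % 6 by norm_num), e0, e3, zero_mul, add_zero]
      · rw [mul_add, ha.ide h, ha.ide h, ide_congr h (show (1 + 4) % 6 = 5 % 6 by norm_num),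
          ide_congr h (show (4 + 4) % 6 = 2 % 6 by norm_num), add_mul, add_comm]
  refine ⟨key.1, ?_⟩
  have e1 : Two_f ζ Φ = 1 - Two_g ζ Φ := by
    rw [← Two_fg h h3]; abel
  have e2 : a * Two_f ζ Φ = a := by
    rw [e1, mul_sub, key.1, mul_one, sub_zero]
  rw [e1, sub_mul, one_mul, ← key.2, e2, sub_self]

/-- class two -/
private theorem Two_c2 {a : A} (ha : Hom ζ Φ 2 a ∨ Hom ζ Φ 5 a) :
    a * Two_f ζ Φ = 0 ∧ Two_g ζ Φ * a = 0 := by
  have e0 : ide ζ Φ 0 = 0 := ide_zero h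
  have e3 := Two_ide3 h h3
  have key : a * Two_f ζ Φ = 0 ∧ a * Two_g ζ Φ = Two_f ζ Φ * a := by
    unfold Two_f Two_g
    rcases ha with ha | ha
    · constructor
      · rw [mul_add, ha.ide h, ha.ide h, ide_congr h (show (1 + 2) % 6 = 3 % 6 by norm_num),
          ide_congr h (show (4 + 2) % 6 = 0 % 6 by norm_num), e0, e3, zero_mul, add_zero]
      · rw [mul_add, ha.ide h, ha.ide h, ide_congr h (show (2 + 2) % 6 = 4 % 6 by norm_num),
          ide_congr h (show (5 + 2) % 6 = 1 % 6 by norm_num), add_mul, add_comm]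
    · constructor
      · rw [mul_add, ha.ide h, ha.ide h, ide_congr h (show (1 + 5) % 6 = 0 % 6 by norm_num),
          ide_congr h (show (4 + 5) % 6 = 3 % 6 by norm_num), e0, e3, zero_mul, add_zero]
      · rw [mul_add, ha.ide h, ha.ide h, ide_congr h (show (2 + 5) % 6 = 1 % 6 by norm_num),
          ide_congr h (show (5 + 5) % 6 = 4 % 6 by norm_num), add_mul]
  refine ⟨key.1, ?_⟩
  have e1 : Two_g ζ Φ = 1 - Two_f ζ Φ := by
    rw [← Two_fg h h3]; abel
  have e2 : a * Two_g ζ Φ = a := by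
    rw [e1, mul_sub, key.1, mul_one, sub_zero]
  rw [e1, sub_mul, one_mul, ← key.2, e2, sub_self]

end

/-- the elements of degree `3` of the Lie algebra -/
private def Two_D (ζ : O) (Φ : A) (Z X : Submodule O A) : Set A :=
  {a | a ∈ LC (Z ⊔ X) ∧ Hom ζ Φ 3 a}

section

variable (h : Sys ζ Φ Ψ Z X)

include h

private theorem Two_zero {a b : A} {i j : ℕ} (ha : a ∈ LC (Z ⊔ X)) (hb : b ∈ LC (Z ⊔ X))
    (hai : Hom ζ Φ i a) (hbj : Hom ζ Φ j b) (hij : (i + j) % 6 = 0) : a * b - b * a = 0 := by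
  have h1 : Hom ζ Φ 0 (a * b - b * a) := Hom.mod h.prim (by rw [hij]) (hai.comm hbj)
  exact h1.zero h (h.tr _ (LC_lie _ _ ha _ hb))

private theorem Two_comm {p q : A} (hp : p ∈ Algebra.adjoin O (Two_D ζ Φ Z X))
    (hq : q ∈ Algebra.adjoin O (Two_D ζ Φ Z X)) : p * q = q * p := by
  have h1 : ∀ a ∈ Two_D ζ Φ Z X, ∀ b ∈ Two_D ζ Φ Z X, Commute a b := by
    intro a ha b hb
    exact sub_eq_zero.1 (Two_zero h ha.1 hb.1 ha.2 hb.2 (by norm_num))
  have h2 : ∀ a ∈ Two_D ζ Φ Z X, Commute a q := fun a ha =>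
    Algebra.commute_of_mem_adjoin_of_forall_mem_commute hq (h1 a ha)
  have h4 : Commute q p :=
    Algebra.commute_of_mem_adjoin_of_forall_mem_commute hp fun a ha => (h2 a ha).symm
  exact h4.symm

private theorem Two_Z_sub {s : A} (hs : s ∈ Algebra.adjoin O (Z : Set A)) :
    s ∈ Algebra.adjoin O (Two_D ζ Φ Z X) := by
  refine Algebra.adjoin_mono ?_ hs
  intro z hz
  exact ⟨le_LC _ (Submodule.mem_sup_left hz), h.homZ hz⟩

private theorem Two_f_comm {p : A} (hp : p ∈ Algebra.adjoin O (Two_D ζ Φ Z X)) :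
    Two_f ζ Φ * p = p * Two_f ζ Φ := by
  refine Algebra.commute_of_mem_adjoin_of_forall_mem_commute hp ?_
  rintro a ⟨_, ha⟩
  show Two_f ζ Φ * a = a * Two_f ζ Φ
  unfold Two_f
  rw [mul_add, ha.ide h, ha.ide h, ide_congr h (show (4 + 3) % 6 = 1 % 6 by norm_num), add_mul,
    add_comm]

private theorem Two_g_comm {p : A} (hp : p ∈ Algebra.adjoin O (Two_D ζ Φ Z X)) :
    Two_g ζ Φ * p = p * Two_g ζ Φ := by
  refine Algebra.commute_of_mem_adjoin_of_forall_mem_commute hp ?_
  rintro a ⟨_, ha⟩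
  show Two_g ζ Φ * a = a * Two_g ζ Φ
  unfold Two_g
  rw [mul_add, ha.ide h, ha.ide h, ide_congr h (show (5 + 3) % 6 = 2 % 6 by norm_num), add_mul,
    add_comm]

private theorem Two_P {d c : A} (hd : d ∈ LC (Z ⊔ X)) (hd2 : Hom ζ Φ 2 d ∨ Hom ζ Φ 5 d)
    (hc : c ∈ LC (Z ⊔ X)) (hc1 : Hom ζ Φ 1 c ∨ Hom ζ Φ 4 c) :
    d * c - c * d ∈ Algebra.adjoin O (Two_D ζ Φ Z X) := by
  have hS : d * c - c * d ∈ LC (Z ⊔ X) := LC_lie _ _ hd _ hc
  rcases hd2 with hd2 | hd2 <;> rcases hc1 with hc1 | hc1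
  · exact Algebra.subset_adjoin ⟨hS, hd2.comm hc1⟩
  · rw [Two_zero h hd hc hd2 hc1 (by norm_num)]
    exact Subalgebra.zero_mem _
  · rw [Two_zero h hd hc hd2 hc1 (by norm_num)]
    exact Subalgebra.zero_mem _
  · exact Algebra.subset_adjoin ⟨hS, Hom.mod h.prim (by norm_num) (hd2.comm hc1)⟩

omit h in
private theorem Two_ind {T : Submodule O A} (h1 : (1 : A) ∈ T)
    (h2 : ∀ s ∈ T, ∀ z ∈ Z, s * z ∈ T) {s : A} (hs : s ∈ Algebra.adjoin O (Z : Set A)) :
    s ∈ T := by
  have h5 : s ∈ Submodule.span O (Submonoid.closure (Z : Set A) : Set A) := by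
    rw [← Algebra.adjoin_eq_span]
    exact hs
  refine (Submodule.span_le.2 ?_) h5
  intro t ht
  refine Submonoid.closure_induction_right (motive := fun m _ => m ∈ T) h1 ?_ ht
  intro x _ y hy hx
  exact h2 x hx y hy

end

section

variable (h : Sys ζ Φ Ψ Z X) (h3 : ∑ j ∈ Finset.range 6, (-1 : A) ^ j * Φ ^ j = 0)

include h h3

private theorem Two_21 {d : A} (hd : d ∈ LC (Z ⊔ X)) (hd2 : Hom ζ Φ 2 d ∨ Hom ζ Φ 5 d)
    {s : A} (hs : s ∈ Algebra.adjoin O (Z : Set A)) : ∀ c, c ∈ LC (Z ⊔ X) →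
      (Hom ζ Φ 1 c ∨ Hom ζ Φ 4 c) →
      ∃ p ∈ Algebra.adjoin O (Two_D ζ Φ Z X), d * s * c = p * Two_f ζ Φ := by
  let T : Submodule O A :=
    { carrier := {s | ∀ c, c ∈ LC (Z ⊔ X) → (Hom ζ Φ 1 c ∨ Hom ζ Φ 4 c) →
        ∃ p ∈ Algebra.adjoin O (Two_D ζ Φ Z X), d * s * c = p * Two_f ζ Φ}
      zero_mem' := fun c _ _ => ⟨0, Subalgebra.zero_mem _, by simp⟩
      add_mem' := by
        intro a b ha hb c hc hc1
        obtain ⟨p, hp, ep⟩ := ha c hc hc1
        obtain ⟨q, hq, eq⟩ := hb c hc hc1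
        exact ⟨p + q, Subalgebra.add_mem _ hp hq, by rw [mul_add, add_mul, ep, eq, add_mul]⟩
      smul_mem' := by
        intro r a ha c hc hc1
        obtain ⟨p, hp, ep⟩ := ha c hc hc1
        exact ⟨r • p, Subalgebra.smul_mem _ hp r, by
          rw [mul_smul_comm, smul_mul_assoc, ep, smul_mul_assoc]⟩ }
  have hT : s ∈ T := by
    refine Two_ind ?_ ?_ hs
    · intro c hc hc1
      refine ⟨d * c - c * d, Two_P h hd hd2 hc hc1, ?_⟩
      have e1 : Two_f ζ Φ = 1 - Two_g ζ Φ := by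
        rw [← Two_fg h h3]; abel
      have e2 : d * c * Two_f ζ Φ = d * c := by
        rw [e1, mul_sub, mul_one, mul_assoc d c, (Two_c1 h h3 hc1).1, mul_zero, sub_zero]
      rw [mul_one, sub_mul, e2, mul_assoc c d, (Two_c2 h h3 hd2).1, mul_zero, sub_zero]
    · intro t ht z hz c hc hc1
      obtain ⟨p, hp, ep⟩ := ht c hc hc1
      have hzS : z ∈ LC (Z ⊔ X) := le_LC _ (Submodule.mem_sup_left hz)
      have hzh := h.homZ hz
      have hzP : z ∈ Algebra.adjoin O (Two_D ζ Φ Z X) := Algebra.subset_adjoin ⟨hzS, hzh⟩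
      have hcl : Hom ζ Φ 1 (z * c - c * z) ∨ Hom ζ Φ 4 (z * c - c * z) := by
        rcases hc1 with hc1 | hc1
        · exact Or.inr (Hom.mod h.prim (by norm_num) (hzh.comm hc1))
        · exact Or.inl (Hom.mod h.prim (by norm_num) (hzh.comm hc1))
      obtain ⟨q, hq, eq⟩ := ht (z * c - c * z) (LC_lie _ _ hzS _ hc) hcl
      refine ⟨p * z + q, Subalgebra.add_mem _ (Subalgebra.mul_mem _ hp hzP) hq, ?_⟩
      have e1 : d * (t * z) * c = d * t * c * z + d * t * (z * c - c * z) := by noncomm_ring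
      rw [e1, ep, eq, add_mul, mul_assoc p, Two_f_comm h hzP, ← mul_assoc]
  exact hT

private theorem Two_12 {c : A} (hc : c ∈ LC (Z ⊔ X)) (hc1 : Hom ζ Φ 1 c ∨ Hom ζ Φ 4 c)
    {s : A} (hs : s ∈ Algebra.adjoin O (Z : Set A)) : ∀ d, d ∈ LC (Z ⊔ X) →
      (Hom ζ Φ 2 d ∨ Hom ζ Φ 5 d) →
      ∃ p ∈ Algebra.adjoin O (Two_D ζ Φ Z X), c * s * d = p * Two_g ζ Φ := by
  let T : Submodule O A :=
    { carrier := {s | ∀ d, d ∈ LC (Z ⊔ X) → (Hom ζ Φ 2 d ∨ Hom ζ Φ 5 d) →
        ∃ p ∈ Algebra.adjoin O (Two_D ζ Φ Z X), c * s * d = p * Two_g ζ Φ}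
      zero_mem' := fun d _ _ => ⟨0, Subalgebra.zero_mem _, by simp⟩
      add_mem' := by
        intro a b ha hb d hd hd2
        obtain ⟨p, hp, ep⟩ := ha d hd hd2
        obtain ⟨q, hq, eq⟩ := hb d hd hd2
        exact ⟨p + q, Subalgebra.add_mem _ hp hq, by rw [mul_add, add_mul, ep, eq, add_mul]⟩
      smul_mem' := by
        intro r a ha d hd hd2
        obtain ⟨p, hp, ep⟩ := ha d hd hd2
        exact ⟨r • p, Subalgebra.smul_mem _ hp r, by
          rw [mul_smul_comm, smul_mul_assoc, ep, smul_mul_assoc]⟩ }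
  have hT : s ∈ T := by
    refine Two_ind ?_ ?_ hs
    · intro d hd hd2
      refine ⟨c * d - d * c, ?_, ?_⟩
      · have h5 := Subalgebra.neg_mem _ (Two_P h hd hd2 hc hc1)
        rwa [neg_sub] at h5
      have e1 : Two_g ζ Φ = 1 - Two_f ζ Φ := by
        rw [← Two_fg h h3]; abel
      have e2 : c * d * Two_g ζ Φ = c * d := by
        rw [e1, mul_sub, mul_one, mul_assoc c d, (Two_c2 h h3 hd2).1, mul_zero, sub_zero]
      rw [mul_one, sub_mul, e2, mul_assoc d c, (Two_c1 h h3 hc1).1, mul_zero, sub_zero]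
    · intro t ht z hz d hd hd2
      obtain ⟨p, hp, ep⟩ := ht d hd hd2
      have hzS : z ∈ LC (Z ⊔ X) := le_LC _ (Submodule.mem_sup_left hz)
      have hzh := h.homZ hz
      have hzP : z ∈ Algebra.adjoin O (Two_D ζ Φ Z X) := Algebra.subset_adjoin ⟨hzS, hzh⟩
      have hcl : Hom ζ Φ 2 (z * d - d * z) ∨ Hom ζ Φ 5 (z * d - d * z) := by
        rcases hd2 with hd2 | hd2
        · exact Or.inr (Hom.mod h.prim (by norm_num) (hzh.comm hd2))
        · exact Or.inl (Hom.mod h.prim (by norm_num) (hzh.comm hd2))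
      obtain ⟨q, hq, eq⟩ := ht (z * d - d * z) (LC_lie _ _ hzS _ hd) hcl
      refine ⟨p * z + q, Subalgebra.add_mem _ (Subalgebra.mul_mem _ hp hzP) hq, ?_⟩
      have e1 : c * (t * z) * d = c * t * d * z + c * t * (z * d - d * z) := by noncomm_ring
      rw [e1, ep, eq, add_mul, mul_assoc p, Two_g_comm h hzP, ← mul_assoc]
  exact hT

/-- the products `x s y s' x'`, `y s x s' y'`, `x s x'`, `y s y'` vanish -/
private theorem Two_words {x y : A} (hxX : x ∈ X) (hyX : y ∈ X) (hx : Hom ζ Φ 1 x)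
    (hy : Hom ζ Φ 5 y) {s t : A} (hs : s ∈ Algebra.adjoin O (Z : Set A))
    (ht : t ∈ Algebra.adjoin O (Z : Set A)) :
    (∀ x' ∈ X, Hom ζ Φ 1 x' → x * s * x' = 0 ∧ x * s * y * t * x' = 0) ∧
    (∀ y' ∈ X, Hom ζ Φ 5 y' → y * s * y' = 0 ∧ y * s * x * t * y' = 0) := by
  have hxS : x ∈ LC (Z ⊔ X) := le_LC _ (Submodule.mem_sup_right hxX)
  have hyS : y ∈ LC (Z ⊔ X) := le_LC _ (Submodule.mem_sup_right hyX)
  have hc : x * y - y * x = 0 := Two_zero h hxS hyS hx hy (by norm_num)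
  have hxy : x * y = 0 := by
    have e1 : x * y = x * (y * Two_f ζ Φ) + (x * y) * Two_g ζ Φ := by
      rw [← mul_assoc, ← mul_add, Two_fg h h3, mul_one]
    rw [e1, (Two_c2 h h3 (Or.inr hy)).1, mul_zero, zero_add, sub_eq_zero.1 hc, mul_assoc,
      (Two_c1 h h3 (Or.inl hx)).1, mul_zero]
  have hyx : y * x = 0 := by rw [← sub_eq_zero.1 hc, hxy]
  have hsP := Two_Z_sub h hs
  have htP := Two_Z_sub h ht
  constructor
  · intro x' hx'X hx'
    have hx'S : x' ∈ LC (Z ⊔ X) := le_LC _ (Submodule.mem_sup_right hx'X)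
    constructor
    · have e1 : x' = Two_g ζ Φ * x' := by
        have e2 : x' = Two_f ζ Φ * x' + Two_g ζ Φ * x' := by
          rw [← add_mul, Two_fg h h3, one_mul]
        rw [(Two_c1 h h3 (Or.inl hx')).2, zero_add] at e2
        exact e2
      rw [e1, ← mul_assoc, mul_assoc x, ← Two_g_comm h hsP, ← mul_assoc x,
        (Two_c1 h h3 (Or.inl hx)).1, zero_mul, zero_mul]
    · obtain ⟨p, hp, ep⟩ := Two_21 h h3 hyS (Or.inr hy) ht x' hx'S (Or.inl hx')
      have e1 : x * s * y * t * x' = x * s * (y * t * x') := by simp only [mul_assoc]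
      have e2 : x * s * (p * Two_f ζ Φ) = x * (p * Two_f ζ Φ) * s := by
        have : s * (p * Two_f ζ Φ) = p * Two_f ζ Φ * s := by
          rw [← mul_assoc, Two_comm h hsP hp, mul_assoc, ← Two_f_comm h hsP, mul_assoc]
        rw [mul_assoc, this, ← mul_assoc]
      rw [e1, ep, e2, ← ep]
      have e3 : x * (y * t * x') * s = (x * y) * (t * x' * s) := by simp only [mul_assoc]
      rw [e3, hxy, zero_mul]
  · intro y' hy'X hy'
    have hy'S : y' ∈ LC (Z ⊔ X) := le_LC _ (Submodule.mem_sup_right hy'X)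
    constructor
    · have e1 : y' = Two_f ζ Φ * y' := by
        have e2 : y' = Two_f ζ Φ * y' + Two_g ζ Φ * y' := by
          rw [← add_mul, Two_fg h h3, one_mul]
        rw [(Two_c2 h h3 (Or.inr hy')).2, add_zero] at e2
        exact e2
      rw [e1, ← mul_assoc, mul_assoc y, ← Two_f_comm h hsP, ← mul_assoc y,
        (Two_c2 h h3 (Or.inr hy)).1, zero_mul, zero_mul]
    · obtain ⟨p, hp, ep⟩ := Two_12 h h3 hxS (Or.inl hx) ht y' hy'S (Or.inr hy')
      have e1 : y * s * x * t * y' = y * s * (x * t * y') := by simp only [mul_assoc]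
      have e2 : y * s * (p * Two_g ζ Φ) = y * (p * Two_g ζ Φ) * s := by
        have : s * (p * Two_g ζ Φ) = p * Two_g ζ Φ * s := by
          rw [← mul_assoc, Two_comm h hsP hp, mul_assoc, ← Two_g_comm h hsP, mul_assoc]
        rw [mul_assoc, this, ← mul_assoc]
      rw [e1, ep, e2, ← ep]
      have e3 : y * (x * t * y') * s = (y * x) * (t * y' * s) := by simp only [mul_assoc]
      rw [e3, hyx, zero_mul]

private theorem Two_XZX : X * Subalgebra.toSubmodule (Algebra.adjoin O (Z : Set A)) * X *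
    Subalgebra.toSubmodule (Algebra.adjoin O (Z : Set A)) * X = ⊥ := by
  apply Two_five
  intro a ha s hs b hb t ht c hc
  obtain ⟨x1, hx1, y1, hy1, dx1, dy1, rfl⟩ := h.split ha
  obtain ⟨x2, hx2, y2, hy2, dx2, dy2, rfl⟩ := h.split hb
  obtain ⟨x3, hx3, y3, hy3, dx3, dy3, rfl⟩ := h.split hc
  have a1 : x1 * s * x2 = 0 := ((Two_words h h3 hx1 hy1 dx1 dy1 hs ht).1 x2 hx2 dx2).1
  have a2 : y1 * s * y2 = 0 := ((Two_words h h3 hx1 hy1 dx1 dy1 hs ht).2 y2 hy2 dy2).1
  have a3 : x1 * s * y2 * t * x3 = 0 := ((Two_words h h3 hx1 hy2 dx1 dy2 hs ht).1 x3 hx3 dx3).2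
  have a4 : y1 * s * x2 * t * y3 = 0 := ((Two_words h h3 hx2 hy1 dx2 dy1 hs ht).2 y3 hy3 dy3).2
  have a5 : y2 * t * y3 = 0 := ((Two_words h h3 hx2 hy2 dx2 dy2 ht ht).2 y3 hy3 dy3).1
  have a6 : x2 * t * x3 = 0 := ((Two_words h h3 hx2 hy2 dx2 dy2 ht ht).1 x3 hx3 dx3).1
  have e : (x1 + y1) * s * (x2 + y2) * t * (x3 + y3) =
      (x1 * s * x2) * t * (x3 + y3) + (y1 * s * y2) * t * (x3 + y3) + x1 * s * y2 * t * x3 +
      y1 * s * x2 * t * y3 + x1 * s * (y2 * t * y3) + y1 * s * (x2 * t * x3) := by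
    noncomm_ring
  rw [e, a1, a2, a3, a4, a5, a6]
  simp

end

/-- conjugation moves powers of `Φ` to the right -/
private theorem Two_QT (h : Sys ζ Φ Ψ Z X) (T : Submodule O A) (hT : ∀ a ∈ T, Φ * a * Ψ ∈ T) :
    Subalgebra.toSubmodule (Algebra.adjoin O ({Φ} : Set A)) * T ≤
      T * Subalgebra.toSubmodule (Algebra.adjoin O ({Φ} : Set A)) := by
  rw [Submodule.mul_le]
  intro q hq t ht
  have hq2 : q ∈ Algebra.adjoin O ({Φ} : Set A) := hq
  induction hq2 using Algebra.adjoin_induction generalizing t with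
  | mem x hx =>
    rw [Set.mem_singleton_iff] at hx
    subst hx
    have e : x * t = (x * t * Ψ) * x := by
      rw [mul_assoc (x * t), h.qp, mul_one]
    rw [e]
    exact Submodule.mul_mem_mul (hT t ht) (Algebra.subset_adjoin rfl)
  | algebraMap r =>
    rw [Algebra.commutes]
    exact Submodule.mul_mem_mul ht (Subalgebra.algebraMap_mem _ r)
  | add x y hx hy ihx ihy =>
    rw [add_mul]
    exact Submodule.add_mem _ (ihx hx t ht) (ihy hy t ht)
  | mul x y hx hy ihx ihy =>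
    have h1 := ihy hy t ht
    rw [mul_assoc]
    refine Submodule.mul_induction_on (C := fun m => x * m ∈ T *
      Subalgebra.toSubmodule (Algebra.adjoin O ({Φ} : Set A))) h1 ?_ ?_
    · intro m hm n hn
      have h2 := ihx hx m hm
      rw [← mul_assoc]
      refine Submodule.mul_induction_on (C := fun w => w * n ∈ T *
        Subalgebra.toSubmodule (Algebra.adjoin O ({Φ} : Set A))) h2 ?_ ?_
      · intro m' hm' n' hn'
        rw [mul_assoc]
        exact Submodule.mul_mem_mul hm' (Subalgebra.mul_mem _ hn' hn)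
      · intro a b ha hb
        rw [add_mul]
        exact Submodule.add_mem _ ha hb
    · intro a b ha hb
      rw [mul_add]
      exact Submodule.add_mem _ ha hb

private theorem Two_Zstab (h : Sys ζ Φ Ψ Z X) :
    ∀ a ∈ Subalgebra.toSubmodule (Algebra.adjoin O (Z : Set A)),
      Φ * a * Ψ ∈ Subalgebra.toSubmodule (Algebra.adjoin O (Z : Set A)) := by
  intro a ha
  have ha2 : a ∈ Algebra.adjoin O (Z : Set A) := ha
  show Φ * a * Ψ ∈ Algebra.adjoin O (Z : Set A)
  clear ha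
  induction ha2 using Algebra.adjoin_induction with
  | mem z hz =>
    rw [h.hz z hz]
    exact Subalgebra.neg_mem _ (Algebra.subset_adjoin hz)
  | algebraMap r =>
    rw [← Algebra.commutes, mul_assoc, h.pq, mul_one]
    exact Subalgebra.algebraMap_mem _ r
  | add x y hx hy ihx ihy =>
    rw [mul_add, add_mul]
    exact Subalgebra.add_mem _ ihx ihy
  | mul x y hx hy ihx ihy =>
    have e : Φ * (x * y) * Ψ = (Φ * x * Ψ) * (Φ * y * Ψ) := by
      have : (Φ * x * Ψ) * (Φ * y * Ψ) = Φ * x * (Ψ * Φ) * y * Ψ := by simp only [mul_assoc]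
      rw [this, h.qp, mul_one]
      simp only [mul_assoc]
    rw [e]
    exact Subalgebra.mul_mem _ ihx ihy

private theorem Two_Wle (h : Sys ζ Φ Ψ Z X) :
    WW O Φ Z ≤ Subalgebra.toSubmodule (Algebra.adjoin O (Z : Set A)) *
      Subalgebra.toSubmodule (Algebra.adjoin O ({Φ} : Set A)) := by
  have hQT := Two_QT h _ (Two_Zstab h)
  have hmul : (Subalgebra.toSubmodule (Algebra.adjoin O (Z : Set A)) *
      Subalgebra.toSubmodule (Algebra.adjoin O ({Φ} : Set A))) *
      (Subalgebra.toSubmodule (Algebra.adjoin O (Z : Set A)) *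
      Subalgebra.toSubmodule (Algebra.adjoin O ({Φ} : Set A))) ≤
      Subalgebra.toSubmodule (Algebra.adjoin O (Z : Set A)) *
      Subalgebra.toSubmodule (Algebra.adjoin O ({Φ} : Set A)) := by
    have e1 : (Subalgebra.toSubmodule (Algebra.adjoin O (Z : Set A)) *
      Subalgebra.toSubmodule (Algebra.adjoin O ({Φ} : Set A))) *
      (Subalgebra.toSubmodule (Algebra.adjoin O (Z : Set A)) *
      Subalgebra.toSubmodule (Algebra.adjoin O ({Φ} : Set A))) =
      Subalgebra.toSubmodule (Algebra.adjoin O (Z : Set A)) *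
      ((Subalgebra.toSubmodule (Algebra.adjoin O ({Φ} : Set A)) *
      Subalgebra.toSubmodule (Algebra.adjoin O (Z : Set A))) *
      Subalgebra.toSubmodule (Algebra.adjoin O ({Φ} : Set A))) := by
      simp only [mul_assoc]
    rw [e1]
    refine le_trans (Two_ml _ (Two_mr _ hQT)) ?_
    rw [mul_assoc (Subalgebra.toSubmodule (Algebra.adjoin O (Z : Set A))), ← mul_assoc]
    exact mul_le_mul' (by rw [Submodule.mul_le]; intro a ha b hb; exact Subalgebra.mul_mem _ ha hb)
      (by rw [Submodule.mul_le]; intro a ha b hb; exact Subalgebra.mul_mem _ ha hb)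
  let U : Subalgebra O A :=
    { carrier := {a | a ∈ Subalgebra.toSubmodule (Algebra.adjoin O (Z : Set A)) *
        Subalgebra.toSubmodule (Algebra.adjoin O ({Φ} : Set A))}
      mul_mem' := fun {a b} ha hb => hmul (Submodule.mul_mem_mul ha hb)
      add_mem' := fun {a b} ha hb => (Subalgebra.toSubmodule (Algebra.adjoin O (Z : Set A)) *
        Subalgebra.toSubmodule (Algebra.adjoin O ({Φ} : Set A))).add_mem ha hb
      algebraMap_mem' := fun r => by
        have := Submodule.mul_mem_mul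
          (show algebraMap O A r ∈ Subalgebra.toSubmodule (Algebra.adjoin O (Z : Set A)) from
            Subalgebra.algebraMap_mem _ r)
          (show (1 : A) ∈ Subalgebra.toSubmodule (Algebra.adjoin O ({Φ} : Set A)) from
            Subalgebra.one_mem _)
        rwa [mul_one] at this }
  have hU : Algebra.adjoin O ({Φ} ∪ (Z : Set A)) ≤ U := by
    apply Algebra.adjoin_le
    rintro a (ha | ha)
    · rw [Set.mem_singleton_iff] at ha
      subst ha
      have := Submodule.mul_mem_mul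
          (show (1 : A) ∈ Subalgebra.toSubmodule (Algebra.adjoin O (Z : Set A)) from
            Subalgebra.one_mem _)
          (show a ∈ Subalgebra.toSubmodule (Algebra.adjoin O ({a} : Set A)) from
            Algebra.subset_adjoin rfl)
      rwa [one_mul] at this
    · have := Submodule.mul_mem_mul
          (show a ∈ Subalgebra.toSubmodule (Algebra.adjoin O (Z : Set A)) from
            Algebra.subset_adjoin ha)
          (show (1 : A) ∈ Subalgebra.toSubmodule (Algebra.adjoin O ({Φ} : Set A)) from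
            Subalgebra.one_mem _)
      rwa [mul_one] at this
  intro a ha
  exact hU ha

theorem twoClass (h : Sys ζ Φ Ψ Z X) (h3 : ∑ j ∈ Finset.range 6, (-1 : A) ^ j * Φ ^ j = 0) :
    ((⊤ : Submodule O A) * X * ⊤) ^ 3 = ⊥ := by
  apply word_pow h 2
  have hW := Two_Wle h
  have hQX := Two_QT h X h.hx
  have hQZ := Two_QT h _ (Two_Zstab h)
  have hXZX := Two_XZX h h3
  generalize Subalgebra.toSubmodule (Algebra.adjoin O (Z : Set A)) = V at *
  generalize Subalgebra.toSubmodule (Algebra.adjoin O ({Φ} : Set A)) = Q at *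
  generalize WW O Φ Z = W at *
  rw [eq_bot_iff]
  have e1 : (X * W) ^ 2 * X ≤ X * (V * Q) * (X * (V * Q)) * X := by
    rw [pow_two]
    exact mul_le_mul' (mul_le_mul' (Two_ml _ hW) (Two_ml _ hW)) le_rfl
  refine le_trans e1 ?_
  have e2 : X * (V * Q) * (X * (V * Q)) * X = X * (V * ((Q * X) * (V * (Q * X)))) := by
    simp only [mul_assoc]
  rw [e2]
  have e3 : X * (V * ((Q * X) * (V * (Q * X)))) ≤ X * (V * ((X * Q) * (V * (X * Q)))) :=
    Two_ml _ (Two_ml _ (mul_le_mul' hQX (Two_ml _ hQX)))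
  refine le_trans e3 ?_
  have e4 : X * (V * ((X * Q) * (V * (X * Q)))) = X * (V * (X * ((Q * V) * (X * Q)))) := by
    simp only [mul_assoc]
  rw [e4]
  have e5 : X * (V * (X * ((Q * V) * (X * Q)))) ≤ X * (V * (X * ((V * Q) * (X * Q)))) :=
    Two_ml _ (Two_ml _ (Two_ml _ (Two_mr _ hQZ)))
  refine le_trans e5 ?_
  have e6 : X * (V * (X * ((V * Q) * (X * Q)))) = X * (V * (X * (V * ((Q * X) * Q)))) := by
    simp only [mul_assoc]
  rw [e6]
  have e7 : X * (V * (X * (V * ((Q * X) * Q)))) ≤ X * (V * (X * (V * ((X * Q) * Q)))) :=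
    Two_ml _ (Two_ml _ (Two_ml _ (Two_ml _ (Two_mr _ hQX))))
  refine le_trans e7 ?_
  have e8 : X * (V * (X * (V * ((X * Q) * Q)))) = (X * V * X * V * X) * (Q * Q) := by
    simp only [mul_assoc]
  rw [e8, hXZX, Submodule.bot_mul]

end Pool.Agent.OrdS
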